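import Pool.Agent.NL25.Defs
import Pool.Agent.HB45.Swap

set_option autoImplicit false

/-!
# NL25/SteinS: mean, Jensen, bounds for `GG`
-/

namespace Pool.NL25

open Pool.HB45 Pool.HM63 Pool.PH43 Pool.SC25 Pool.SC45

/-- Jensen, given the mean -/
theorem jensen_of_mean {N : ℕ} {Q : Rel (N + 1)} {lab : Fin (N + 1) → ℕ}
    (hm : ∑ g ∈ LE Q, Xf lab g = (LE Q).card * GG Q) (s : ℝ) :
    (LE Q).card * Real.exp (s * GG Q / 2) ≤ MG Q lab s := by
  have h1 : ∀ g ∈ LE Q, Real.exp (s * GG Q / 2) * (1 + (s * Xf lab g / 2 - s * GG Q / 2)) ≤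
      Real.exp (s * Xf lab g / 2) := by
    intro g _
    have h2 := Real.add_one_le_exp (s * Xf lab g / 2 - s * GG Q / 2)
    have h3 : Real.exp (s * Xf lab g / 2) =
        Real.exp (s * GG Q / 2) * Real.exp (s * Xf lab g / 2 - s * GG Q / 2) := by
      rw [← Real.exp_add]
      congr 1
      ring
    rw [h3]
    exact mul_le_mul_of_nonneg_left (by linarith) (Real.exp_pos _).le
  have h4 := Finset.sum_le_sum h1
  have h5 : ∑ g ∈ LE Q, Real.exp (s * GG Q / 2) * (1 + (s * Xf lab g / 2 - s * GG Q / 2)) =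
      (LE Q).card * Real.exp (s * GG Q / 2) := by
    have h6 : ∀ g ∈ LE Q, Real.exp (s * GG Q / 2) * (1 + (s * Xf lab g / 2 - s * GG Q / 2)) =
        Real.exp (s * GG Q / 2) * (1 - s * GG Q / 2) +
          (Real.exp (s * GG Q / 2) * (s / 2)) * Xf lab g := by
      intro g _
      ring
    have h7 : ∑ g ∈ LE Q, (Real.exp (s * GG Q / 2) * (s / 2)) * Xf lab g =
        (Real.exp (s * GG Q / 2) * (s / 2)) * ((LE Q).card * GG Q) := by
      rw [← Finset.mul_sum, hm]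
    rw [Finset.sum_congr rfl h6, Finset.sum_add_distrib, h7, Finset.sum_const, nsmul_eq_mul]
    ring
  rw [h5] at h4
  exact h4

theorem GG_nonneg' {N : ℕ} (Q : Rel (N + 1)) : 0 ≤ GG Q := by
  unfold GG
  exact div_nonneg (Finset.sum_nonneg fun _ _ => Nat.cast_nonneg _) (Nat.cast_nonneg _)

theorem GG_le' {N h : ℕ} {Q : Rel (N + 1)} {κ lab : Fin (N + 1) → ℕ} (hκ : Lev h Q κ)
    (hn : Nat' Q lab) : GG Q ≤ h := by
  unfold GG
  rw [div_le_iff₀ (card_pos hn)]
  exact sum_adj_le hκ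

theorem card_mul_GG {N : ℕ} {Q : Rel (N + 1)} {lab : Fin (N + 1) → ℕ} (hn : Nat' Q lab) :
    (LE Q).card * GG Q = ∑ g ∈ LE Q, (adj Q g : ℝ) := by
  unfold GG
  have := card_pos hn
  field_simp

end Pool.NL25
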