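import Pool.Agent.NL25.Defs
import Pool.Agent.NL25.SteinS

set_option autoImplicit false

/-!
# NL25/Stein: swap identity (STUB)
-/

namespace Pool.NL25

open Pool.HB45 Pool.HM63 Pool.PH43 Pool.SC25 Pool.SC45

/-- `+1` at an ascent, `-1` at a descent -/
noncomputable def ep {N : ℕ} (lab : Fin (N + 1) → ℕ) (i : Fin N) (g : Equiv.Perm (Fin (N + 1))) : ℝ :=
  if lab (g i.castSucc) < lab (g i.succ) then 1 else -1

/-- the local term at `i` -/
noncomputable def loc {N : ℕ} (Q : Rel (N + 1)) (lab : Fin (N + 1) → ℕ) (s : ℝ) (i : Fin N)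
    (g : Equiv.Perm (Fin (N + 1))) : ℝ := by
  classical
  exact if Q (g i.castSucc) (g i.succ) then 0 else
    ep lab i g * (1 - Real.exp (s * ((des lab g : ℝ) - des lab (sw g i))))

/-- `X = ∑ ep` (labels injective) -/
theorem Xf_eq {N : ℕ} {lab : Fin (N + 1) → ℕ} (hinj : Function.Injective lab)
    (g : Equiv.Perm (Fin (N + 1))) : Xf lab g = ∑ i : Fin N, ep lab i g := by
  have h1 : ∀ i : Fin N, ep lab i g =
      1 - 2 * (if lab (g i.succ) < lab (g i.castSucc) then (1 : ℝ) else 0) := by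
    intro i
    have hne : lab (g i.castSucc) ≠ lab (g i.succ) := by
      intro h
      have h2 := congrArg Fin.val (g.injective (hinj h))
      simp at h2
    unfold ep
    by_cases h : lab (g i.castSucc) < lab (g i.succ)
    · rw [if_pos h, if_neg (by omega)]; norm_num
    · rw [if_neg h, if_pos (by omega)]; norm_num
  rw [Finset.sum_congr rfl fun i _ => h1 i, Finset.sum_sub_distrib, ← Finset.mul_sum,
    Finset.sum_boole]
  simp [Xf, des]

/-- the swap at incomparable neighbours changes the sign of `ep` -/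
theorem ep_sw {N : ℕ} {lab : Fin (N + 1) → ℕ} (hinj : Function.Injective lab) (i : Fin N)
    (g : Equiv.Perm (Fin (N + 1))) : ep lab i (sw g i) = - ep lab i g := by
  have hne : lab (g i.castSucc) ≠ lab (g i.succ) := by
    intro h
    have h2 := congrArg Fin.val (g.injective (hinj h))
    simp at h2
  unfold ep
  rw [sw_left, sw_right]
  by_cases h : lab (g i.castSucc) < lab (g i.succ)
  · rw [if_pos h, if_neg (by omega)]
  · rw [if_neg h, if_pos (by omega)]; norm_num

/-- words with incomparable neighbours at `i` -/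
noncomputable def inc {N : ℕ} (Q : Rel (N + 1)) (i : Fin N) : Finset (Equiv.Perm (Fin (N + 1))) := by
  classical
  exact (LE Q).filter fun g => ¬ Q (g i.castSucc) (g i.succ)

theorem sw_inc {N : ℕ} {Q : Rel (N + 1)} {i : Fin N} {g : Equiv.Perm (Fin (N + 1))}
    (hg : g ∈ inc Q i) : sw g i ∈ inc Q i := by
  classical
  unfold inc at hg ⊢
  rw [Finset.mem_filter] at hg ⊢
  refine ⟨sw_mem hg.1 hg.2, ?_⟩
  rw [sw_left, sw_right]
  intro h
  have h1 := (mem_LE.1 hg.1) _ _ h
  rw [Fin.lt_def] at h1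
  simp at h1

/-- the weight of the swapped word -/
theorem exp_sw {N : ℕ} (lab : Fin (N + 1) → ℕ) (s : ℝ) (i : Fin N) (g : Equiv.Perm (Fin (N + 1))) :
    Real.exp (s * Xf lab (sw g i) / 2) =
      Real.exp (s * ((des lab g : ℝ) - des lab (sw g i))) * Real.exp (s * Xf lab g / 2) := by
  rw [← Real.exp_add]
  congr 1
  unfold Xf
  ring

/-- the swap identity at one position -/
theorem stein_one {N : ℕ} {Q : Rel (N + 1)} {lab : Fin (N + 1) → ℕ} (hn : Nat' Q lab) (s : ℝ)
    (i : Fin N) : ∑ g ∈ inc Q i, ep lab i g * Real.exp (s * Xf lab g / 2) =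
      1 / 2 * ∑ g ∈ inc Q i, loc Q lab s i g * Real.exp (s * Xf lab g / 2) := by
  classical
  have h1 : ∑ g ∈ inc Q i, ep lab i g * Real.exp (s * Xf lab g / 2) =
      ∑ g ∈ inc Q i, ep lab i (sw g i) * Real.exp (s * Xf lab (sw g i) / 2) := by
    refine Finset.sum_nbij' (fun g => sw g i) (fun g => sw g i) (fun g hg => sw_inc hg)
      (fun g hg => sw_inc hg) (fun g _ => sw_sw i g) (fun g _ => sw_sw i g) ?_
    intro g _
    rw [sw_sw]
  have h2 : ∀ g ∈ inc Q i, loc Q lab s i g * Real.exp (s * Xf lab g / 2) =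
      ep lab i g * Real.exp (s * Xf lab g / 2) +
        ep lab i (sw g i) * Real.exp (s * Xf lab (sw g i) / 2) := by
    intro g hg
    have h3 : ¬ Q (g i.castSucc) (g i.succ) := by
      unfold inc at hg
      exact (Finset.mem_filter.1 hg).2
    rw [ep_sw hn.inj, exp_sw]
    unfold loc
    rw [if_neg h3]
    ring
  rw [Finset.sum_congr rfl h2, Finset.sum_add_distrib, ← h1]
  ring

/-- STEIN. PROOF. `X = ∑_i ep_i`; comparable neighbours have `ep = 1` (natural labels): they give `adj`. For incomparable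
neighbours at `i` the swap `sw · i` is an involution of `{g ∈ LE Q : g i, g (i+1) incomparable}` with `ep_i (sw g i) = - ep_i g`,
so `∑ ep_i g e^(sX(g)/2) = (1/2) ∑ ep_i g (e^(sX(g)/2) - e^(sX(sw g i)/2))`, and
`e^(sX(sw g i)/2) = e^(sX(g)/2) e^(s (des g - des (sw g i)))`. -/
theorem stein {N : ℕ} {Q : Rel (N + 1)} {lab : Fin (N + 1) → ℕ} (hn : Nat' Q lab) (s : ℝ) :
    ∑ g ∈ LE Q, Xf lab g * Real.exp (s * Xf lab g / 2) =
      ∑ g ∈ LE Q, (adj Q g : ℝ) * Real.exp (s * Xf lab g / 2) +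
        1 / 2 * ∑ g ∈ LE Q, (∑ i : Fin N, loc Q lab s i g) * Real.exp (s * Xf lab g / 2) := by
  classical
  have hadj : ∀ g : Equiv.Perm (Fin (N + 1)), (adj Q g : ℝ) =
      ∑ i : Fin N, if Q (g i.castSucc) (g i.succ) then (1 : ℝ) else 0 := by
    intro g
    rw [Finset.sum_boole]
    unfold adj adjs
    congr
  have hone : ∀ i : Fin N, ∑ g ∈ LE Q, ep lab i g * Real.exp (s * Xf lab g / 2) =
      ∑ g ∈ LE Q, (if Q (g i.castSucc) (g i.succ) then (1 : ℝ) else 0) *
        Real.exp (s * Xf lab g / 2) +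
      1 / 2 * ∑ g ∈ LE Q, loc Q lab s i g * Real.exp (s * Xf lab g / 2) := by
    intro i
    have hinc : inc Q i = (LE Q).filter fun g => ¬ Q (g i.castSucc) (g i.succ) := by
      unfold inc
      congr
    have h3 := stein_one hn s i
    rw [hinc] at h3
    rw [← Finset.sum_filter_add_sum_filter_not (LE Q) (fun g => Q (g i.castSucc) (g i.succ))
        (fun g => ep lab i g * Real.exp (s * Xf lab g / 2)),
      ← Finset.sum_filter_add_sum_filter_not (LE Q) (fun g => Q (g i.castSucc) (g i.succ))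
        (fun g => (if Q (g i.castSucc) (g i.succ) then (1 : ℝ) else 0) *
          Real.exp (s * Xf lab g / 2)),
      ← Finset.sum_filter_add_sum_filter_not (LE Q) (fun g => Q (g i.castSucc) (g i.succ))
        (fun g => loc Q lab s i g * Real.exp (s * Xf lab g / 2)), h3]
    have e1 : ∑ g ∈ (LE Q).filter (fun g => Q (g i.castSucc) (g i.succ)),
        ep lab i g * Real.exp (s * Xf lab g / 2) =
        ∑ g ∈ (LE Q).filter (fun g => Q (g i.castSucc) (g i.succ)),
          (if Q (g i.castSucc) (g i.succ) then (1 : ℝ) else 0) * Real.exp (s * Xf lab g / 2) := by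
      refine Finset.sum_congr rfl fun g hg => ?_
      have hq := (Finset.mem_filter.1 hg).2
      rw [if_pos hq]
      unfold ep
      rw [if_pos (hn.mono _ _ hq)]
    have e2 : ∑ g ∈ (LE Q).filter (fun g => ¬ Q (g i.castSucc) (g i.succ)),
        (if Q (g i.castSucc) (g i.succ) then (1 : ℝ) else 0) * Real.exp (s * Xf lab g / 2) = 0 := by
      refine Finset.sum_eq_zero fun g hg => ?_
      rw [if_neg (Finset.mem_filter.1 hg).2, zero_mul]
    have e3 : ∑ g ∈ (LE Q).filter (fun g => Q (g i.castSucc) (g i.succ)),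
        loc Q lab s i g * Real.exp (s * Xf lab g / 2) = 0 := by
      refine Finset.sum_eq_zero fun g hg => ?_
      unfold loc
      rw [if_pos (Finset.mem_filter.1 hg).2, zero_mul]
    rw [e1, e2, e3]
    ring
  have hL : ∑ g ∈ LE Q, Xf lab g * Real.exp (s * Xf lab g / 2) =
      ∑ i : Fin N, ∑ g ∈ LE Q, ep lab i g * Real.exp (s * Xf lab g / 2) := by
    rw [Finset.sum_comm]
    refine Finset.sum_congr rfl fun g _ => ?_
    rw [Xf_eq hn.inj g, Finset.sum_mul]
  have hA : ∑ g ∈ LE Q, (adj Q g : ℝ) * Real.exp (s * Xf lab g / 2) =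
      ∑ i : Fin N, ∑ g ∈ LE Q, (if Q (g i.castSucc) (g i.succ) then (1 : ℝ) else 0) *
        Real.exp (s * Xf lab g / 2) := by
    rw [Finset.sum_comm]
    refine Finset.sum_congr rfl fun g _ => ?_
    rw [hadj g, Finset.sum_mul]
  have hLoc : ∑ g ∈ LE Q, (∑ i : Fin N, loc Q lab s i g) * Real.exp (s * Xf lab g / 2) =
      ∑ i : Fin N, ∑ g ∈ LE Q, loc Q lab s i g * Real.exp (s * Xf lab g / 2) := by
    rw [Finset.sum_comm]
    refine Finset.sum_congr rfl fun g _ => ?_
    rw [Finset.sum_mul]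
  rw [hL, hA, hLoc, Finset.mul_sum, ← Finset.sum_add_distrib]
  exact Finset.sum_congr rfl fun i _ => hone i

/-- `s = 0`: `E X = E adj` -/
theorem mean_X {N : ℕ} {Q : Rel (N + 1)} {lab : Fin (N + 1) → ℕ} (hn : Nat' Q lab) :
    ∑ g ∈ LE Q, Xf lab g = (LE Q).card * GG Q := by
  have h := stein hn 0
  have h1 : ∀ g ∈ LE Q, (∑ i : Fin N, loc Q lab 0 i g) * Real.exp (0 * Xf lab g / 2) = 0 := by
    intro g _
    rw [Finset.sum_eq_zero, zero_mul]
    intro i _
    unfold loc
    simp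
  rw [Finset.sum_congr rfl h1] at h
  simp only [zero_mul, zero_div, Real.exp_zero, mul_one, Finset.sum_const_zero, mul_zero,
    add_zero] at h
  rw [h, card_mul_GG hn]

/-- Jensen -/
theorem jensen {N : ℕ} {Q : Rel (N + 1)} {lab : Fin (N + 1) → ℕ} (hn : Nat' Q lab) (s : ℝ) :
    (LE Q).card * Real.exp (s * GG Q / 2) ≤ MG Q lab s :=
  jensen_of_mean (mean_X hn) s

/-- `0 ≤ GG ≤ h` (`sum_adj_le` of HB45/Swap) -/
theorem GG_nonneg {N : ℕ} (Q : Rel (N + 1)) : 0 ≤ GG Q := GG_nonneg' Q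

theorem GG_le {N h : ℕ} {Q : Rel (N + 1)} {κ lab : Fin (N + 1) → ℕ} (hκ : Lev h Q κ)
    (hn : Nat' Q lab) : GG Q ≤ h := GG_le' hκ hn

end Pool.NL25
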