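import Pool.Agent.NL25.Stein

set_option autoImplicit false

/-!
# NL25/EntS: consequences of the Gibbs inequality
-/

namespace Pool.NL25

open Pool.HB45 Pool.HM63 Pool.PH43 Pool.SC25 Pool.SC45

/-- `mA_close` from the Gibbs inequality `hgib`, Jensen `hjen` and the two sub-Gaussian bounds -/
theorem mA_close_aux {ι : Type} (S : Finset ι) (hS : S.Nonempty) (X A : ι → ℝ) (s v G V : ℝ)
    (hgib : ∀ y : ι → ℝ,
      (∑ i ∈ S, y i * Real.exp (s * X i / 2)) / (∑ i ∈ S, Real.exp (s * X i / 2)) ≤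
      Real.log ((∑ i ∈ S, Real.exp (y i)) / S.card) +
      (∑ i ∈ S, s * X i / 2 * Real.exp (s * X i / 2)) / (∑ i ∈ S, Real.exp (s * X i / 2)) -
      Real.log ((∑ i ∈ S, Real.exp (s * X i / 2)) / S.card))
    (hjen : S.card * Real.exp (s * G / 2) ≤ ∑ i ∈ S, Real.exp (s * X i / 2))
    (hsub : ∑ i ∈ S, Real.exp (v * A i) ≤ S.card * Real.exp (v * G + V)) :
    v * ((∑ i ∈ S, A i * Real.exp (s * X i / 2)) / (∑ i ∈ S, Real.exp (s * X i / 2)) - G) ≤
      V + s * ((∑ i ∈ S, X i * Real.exp (s * X i / 2)) /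
        (∑ i ∈ S, Real.exp (s * X i / 2)) - G) / 2 := by
  have hc : (0 : ℝ) < S.card := by exact_mod_cast Finset.card_pos.2 hS
  have hM : 0 < ∑ i ∈ S, Real.exp (s * X i / 2) := Finset.sum_pos (fun _ _ => Real.exp_pos _) hS
  have h1 := hgib fun i => v * A i
  have h2 : Real.log ((∑ i ∈ S, Real.exp (v * A i)) / S.card) ≤ v * G + V := by
    have hp : 0 < (∑ i ∈ S, Real.exp (v * A i)) / (S.card : ℝ) :=
      div_pos (Finset.sum_pos (fun _ _ => Real.exp_pos _) hS) hc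
    rw [Real.log_le_iff_le_exp hp, div_le_iff₀ hc]
    linarith
  have h3 : s * G / 2 ≤ Real.log ((∑ i ∈ S, Real.exp (s * X i / 2)) / S.card) := by
    rw [Real.le_log_iff_exp_le (div_pos hM hc), le_div_iff₀ hc]
    linarith
  have h4 : (∑ i ∈ S, v * A i * Real.exp (s * X i / 2)) / (∑ i ∈ S, Real.exp (s * X i / 2)) =
      v * ((∑ i ∈ S, A i * Real.exp (s * X i / 2)) / (∑ i ∈ S, Real.exp (s * X i / 2))) := by
    rw [← mul_div_assoc, Finset.mul_sum]
    congr 1
    refine Finset.sum_congr rfl fun i _ => ?_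
    ring
  have h5 : (∑ i ∈ S, s * X i / 2 * Real.exp (s * X i / 2)) /
      (∑ i ∈ S, Real.exp (s * X i / 2)) =
      s / 2 * ((∑ i ∈ S, X i * Real.exp (s * X i / 2)) / (∑ i ∈ S, Real.exp (s * X i / 2))) := by
    rw [← mul_div_assoc, Finset.mul_sum]
    congr 1
    refine Finset.sum_congr rfl fun i _ => ?_
    ring
  rw [h4, h5] at h1
  linarith

end Pool.NL25
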