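import Mathlib

set_option autoImplicit false

/-!
# NL25/GibbsS: the Gibbs (entropy) inequality
-/

namespace Pool.NL25

/-- `E_x[y] ≤ log (mean of e^y) + E_x[x] - log (mean of e^x)` -/
theorem gibbsS {ι : Type} (S : Finset ι) (hS : S.Nonempty) (x y : ι → ℝ) :
    (∑ i ∈ S, y i * Real.exp (x i)) / (∑ i ∈ S, Real.exp (x i)) ≤
      Real.log ((∑ i ∈ S, Real.exp (y i)) / S.card) +
      (∑ i ∈ S, x i * Real.exp (x i)) / (∑ i ∈ S, Real.exp (x i)) -
      Real.log ((∑ i ∈ S, Real.exp (x i)) / S.card) := by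
  have hx : 0 < ∑ i ∈ S, Real.exp (x i) := Finset.sum_pos (fun _ _ => Real.exp_pos _) hS
  have hy : 0 < ∑ i ∈ S, Real.exp (y i) := Finset.sum_pos (fun _ _ => Real.exp_pos _) hS
  have hc : (0 : ℝ) < S.card := by exact_mod_cast Finset.card_pos.2 hS
  rw [Real.log_div hy.ne' hc.ne', Real.log_div hx.ne' hc.ne']
  set Z := ∑ i ∈ S, Real.exp (x i) with hZ
  set Y := ∑ i ∈ S, Real.exp (y i) with hY
  set c := Real.log Y - Real.log Z with hcd
  have hec : Real.exp c = Y / Z := by
    rw [hcd, Real.exp_sub, Real.exp_log hy, Real.exp_log hx]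
  have key : ∑ i ∈ S, (y i - x i - c + 1) * Real.exp (x i) ≤ Z := by
    have h1 : ∀ i ∈ S, (y i - x i - c + 1) * Real.exp (x i) ≤ Real.exp (y i) * Real.exp (-c) := by
      intro i _
      have h2 : Real.exp (y i) * Real.exp (-c) = Real.exp (y i - x i - c) * Real.exp (x i) := by
        rw [← Real.exp_add, ← Real.exp_add]
        congr 1
        ring
      rw [h2]
      exact mul_le_mul_of_nonneg_right (Real.add_one_le_exp _) (Real.exp_pos _).le
    refine (Finset.sum_le_sum h1).trans ?_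
    rw [← Finset.sum_mul, Real.exp_neg, hec, ← hY]
    rw [inv_div, mul_div_assoc', mul_comm, mul_div_assoc, div_self hy.ne', mul_one]
  have hsum : ∑ i ∈ S, (y i - x i - c + 1) * Real.exp (x i) =
      ∑ i ∈ S, y i * Real.exp (x i) - ∑ i ∈ S, x i * Real.exp (x i) - c * Z + Z := by
    rw [hZ, Finset.mul_sum, ← Finset.sum_sub_distrib, ← Finset.sum_sub_distrib,
      ← Finset.sum_add_distrib]
    exact Finset.sum_congr rfl fun i _ => by ring
  rw [hsum] at key
  rw [div_le_iff₀ hx]
  have h3 : (Real.log Y - Real.log ↑S.card + (∑ i ∈ S, x i * Real.exp (x i)) / Z -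
      (Real.log Z - Real.log ↑S.card)) * Z = c * Z + ∑ i ∈ S, x i * Real.exp (x i) := by
    rw [hcd]
    field_simp
    ring
  rw [h3]
  linarith

end Pool.NL25
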