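import Pool.Agent.NL25.Stein
import Pool.Agent.NL25.EntS
import Pool.Agent.NL25.GibbsS

set_option autoImplicit false

/-!
# NL25/Ent: entropy inequality and the mean of `adj` in the tilt (STUB)
-/

namespace Pool.NL25

open Pool.HB45 Pool.HM63 Pool.PH43 Pool.SC25 Pool.SC45

/-- GIBBS. `E_x[y] ≤ log (mean of e^y) + E_x[x] - log (mean of e^x)`, `E_x` = weights `e^x`. PROOF. Jensen:
`exp (E_x[y - x]) ≤ E_x[e^(y-x)] = ∑ e^y / ∑ e^x`. -/
theorem gibbs {ι : Type} (S : Finset ι) (hS : S.Nonempty) (x y : ι → ℝ) :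
    (∑ i ∈ S, y i * Real.exp (x i)) / (∑ i ∈ S, Real.exp (x i)) ≤
      Real.log ((∑ i ∈ S, Real.exp (y i)) / S.card) +
      (∑ i ∈ S, x i * Real.exp (x i)) / (∑ i ∈ S, Real.exp (x i)) -
      Real.log ((∑ i ∈ S, Real.exp (x i)) / S.card) :=
  gibbsS S hS x y

/-- mean of `X` in the tilt -/
noncomputable def mX {N : ℕ} (Q : Rel (N + 1)) (lab : Fin (N + 1) → ℕ) (s : ℝ) : ℝ :=
  (∑ g ∈ LE Q, Xf lab g * Real.exp (s * Xf lab g / 2)) / MG Q lab s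

/-- mean of `adj` in the tilt -/
noncomputable def mA {N : ℕ} (Q : Rel (N + 1)) (lab : Fin (N + 1) → ℕ) (s : ℝ) : ℝ :=
  (∑ g ∈ LE Q, (adj Q g : ℝ) * Real.exp (s * Xf lab g / 2)) / MG Q lab s

/-- PROOF. `gibbs` with `x = sX/2`, `y = ± v adj`; `SubG` at `± v`; `log (MG/#) ≥ s GG/2` (`jensen`), so
`H = s mX/2 - log (MG/#) ≤ s (mX - GG)/2`. -/
theorem mA_close {N : ℕ} {Q : Rel (N + 1)} {lab : Fin (N + 1) → ℕ} (hn : Nat' Q lab) {ε v0 : ℝ}
    (hG : SubG Q ε v0) (s v : ℝ) (hv : 0 < v) (hv0 : v ≤ v0) :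
    v * |mA Q lab s - GG Q| ≤ ε * v ^ 2 * N + 1 + s * (mX Q lab s - GG Q) / 2 := by
  have hgib := fun y : Equiv.Perm (Fin (N + 1)) → ℝ =>
    gibbs (LE Q) (LE_nonempty hn) (fun g => s * Xf lab g / 2) y
  have h1 := mA_close_aux (LE Q) (LE_nonempty hn) (Xf lab) (fun g => (adj Q g : ℝ)) s v (GG Q)
    (ε * v ^ 2 * N + 1) hgib (jensen hn s) (by
      have h := hG v (by rw [abs_of_pos hv]; exact hv0)
      calc _ ≤ _ := h
        _ = _ := by rw [add_assoc])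
  have h2 := mA_close_aux (LE Q) (LE_nonempty hn) (Xf lab) (fun g => (adj Q g : ℝ)) s (-v) (GG Q)
    (ε * v ^ 2 * N + 1) hgib (jensen hn s) (by
      have h := hG (-v) (by rw [abs_neg, abs_of_pos hv]; exact hv0)
      calc _ ≤ _ := h
        _ = _ := by rw [add_assoc, neg_sq])
  change v * (mA Q lab s - GG Q) ≤ ε * v ^ 2 * N + 1 + s * (mX Q lab s - GG Q) / 2 at h1
  change -v * (mA Q lab s - GG Q) ≤ ε * v ^ 2 * N + 1 + s * (mX Q lab s - GG Q) / 2 at h2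
  rcases abs_cases (mA Q lab s - GG Q) with ⟨h3, _⟩ | ⟨h3, _⟩
  · rw [h3]
    exact h1
  · rw [h3]
    linarith

/-- in particular -/
theorem ent_nonneg {N : ℕ} {Q : Rel (N + 1)} {lab : Fin (N + 1) → ℕ} (hn : Nat' Q lab) (s : ℝ) :
    0 ≤ s * (mX Q lab s - GG Q) := by
  have hgib := fun y : Equiv.Perm (Fin (N + 1)) → ℝ =>
    gibbs (LE Q) (LE_nonempty hn) (fun g => s * Xf lab g / 2) y
  have h1 := mA_close_aux (LE Q) (LE_nonempty hn) (Xf lab) (fun _ => (0 : ℝ)) s 0 (GG Q)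
    0 hgib (jensen hn s) (by simp)
  change 0 * _ ≤ 0 + s * (mX Q lab s - GG Q) / 2 at h1
  rw [zero_mul, zero_add] at h1
  linarith

end Pool.NL25
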