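import Pool.Agent.NL25.Ent

set_option autoImplicit false

/-!
# NL25/HdLog: the derivative of `log MG` (for NL25/Real)
-/

namespace Pool.NL25

open Pool.HB45 Pool.HM63 Pool.PH43 Pool.SC25 Pool.SC45

theorem hasDerivAt_MG {N : ℕ} (Q : Rel (N + 1)) (lab : Fin (N + 1) → ℕ) (s : ℝ) :
    HasDerivAt (fun s => MG Q lab s)
      ((∑ g ∈ LE Q, Xf lab g * Real.exp (s * Xf lab g / 2)) / 2) s := by
  have h1 : ∀ g ∈ LE Q, HasDerivAt (fun s : ℝ => Real.exp (s * Xf lab g / 2))
      (Real.exp (s * Xf lab g / 2) * (Xf lab g / 2)) s := by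
    intro g _
    have h2 : HasDerivAt (fun s : ℝ => s * Xf lab g / 2) (Xf lab g / 2) s := by
      have h3 := ((hasDerivAt_id s).mul_const (Xf lab g)).div_const 2
      simpa only [id_eq, one_mul] using h3
    exact h2.exp
  have h4 := HasDerivAt.fun_sum h1
  unfold MG
  have h5 : (∑ g ∈ LE Q, Xf lab g * Real.exp (s * Xf lab g / 2)) / 2 =
      ∑ g ∈ LE Q, Real.exp (s * Xf lab g / 2) * (Xf lab g / 2) := by
    rw [Finset.sum_div]
    exact Finset.sum_congr rfl fun g _ => by ring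
  rw [h5]
  exact h4

/-- the derivative of `log MG` -/
theorem hasDerivAt_log' {N : ℕ} {Q : Rel (N + 1)} {lab : Fin (N + 1) → ℕ} (hn : Nat' Q lab) (s : ℝ) :
    HasDerivAt (fun s => Real.log (MG Q lab s / (LE Q).card)) (mX Q lab s / 2) s := by
  have hc := card_pos hn
  have hM := MG_pos hn s
  have h1 := (hasDerivAt_MG Q lab s).div_const ((LE Q).card : ℝ)
  have h2 : MG Q lab s / (LE Q).card ≠ 0 := (div_pos hM hc).ne'
  have h3 := h1.log h2
  have h4 : (∑ g ∈ LE Q, Xf lab g * Real.exp (s * Xf lab g / 2)) / 2 / ((LE Q).card : ℝ) /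
      (MG Q lab s / (LE Q).card) = mX Q lab s / 2 := by
    unfold mX
    generalize (∑ g ∈ LE Q, Xf lab g * Real.exp (s * Xf lab g / 2)) = S
    field_simp
  rw [h4] at h3
  exact h3

end Pool.NL25
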