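import Pool.Agent.SC25.Reg
import Pool.Agent.SC45.LD

set_option autoImplicit false

/-!
# NL25/Defs: posets of height `≤ c n / log n` (MP_dcdbc5_co)

`X = N - 2 des`, `MG s = ∑ e^(sX/2) = e^(sN/2) W(e^(-s))`, `GG = E adj` (so `E X = GG`), tilt `s` of both signs.
Plan: flips outside `|j - (N - GG)/2| ≤ A √(N log N)`, log-concavity inside.
-/

open Polynomial

namespace Pool.NL25

open Pool.HB45 Pool.HM63 Pool.PH43 Pool.SC25 Pool.SC45

/-- `X = N - 2 des` (ascents minus descents) -/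
noncomputable def Xf {N : ℕ} (lab : Fin (N + 1) → ℕ) (g : Equiv.Perm (Fin (N + 1))) : ℝ :=
  (N : ℝ) - 2 * des lab g

/-- `∑ e^(sX/2)` -/
noncomputable def MG {N : ℕ} (Q : Rel (N + 1)) (lab : Fin (N + 1) → ℕ) (s : ℝ) : ℝ :=
  ∑ g ∈ LE Q, Real.exp (s * Xf lab g / 2)

/-- mean of the number of comparable neighbours -/
noncomputable def GG {N : ℕ} (Q : Rel (N + 1)) : ℝ := (∑ g ∈ LE Q, (adj Q g : ℝ)) / (LE Q).card

/-- sub-Gaussian bound for `adj` with a small multiple of `N` as variance proxy -/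
def SubG {N : ℕ} (Q : Rel (N + 1)) (ε v0 : ℝ) : Prop :=
  ∀ v : ℝ, |v| ≤ v0 → ∑ g ∈ LE Q, Real.exp (v * adj Q g) ≤
    (LE Q).card * Real.exp (v * GG Q + ε * v ^ 2 * N + 1)

/-- `log MG` up to `ε (s² N + 1)` -/
def RE {N : ℕ} (Q : Rel (N + 1)) (lab : Fin (N + 1) → ℕ) (ε s0 : ℝ) : Prop :=
  ∀ s : ℝ, |s| ≤ s0 → |Real.log (MG Q lab s / (LE Q).card) - (s * GG Q / 2 + s ^ 2 * N / 24)| ≤
    ε * (s ^ 2 * N + 1)

theorem abs_Xf_le {N : ℕ} (lab : Fin (N + 1) → ℕ) (g : Equiv.Perm (Fin (N + 1))) :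
    |Xf lab g| ≤ N := by
  have h1 : des lab g ≤ N := by
    unfold des
    exact (Finset.card_le_univ _).trans (by rw [Fintype.card_fin])
  have h2 : (des lab g : ℝ) ≤ N := by exact_mod_cast h1
  have h3 : (0 : ℝ) ≤ des lab g := Nat.cast_nonneg _
  unfold Xf
  rw [abs_le]
  constructor <;> linarith

theorem LE_nonempty {N : ℕ} {Q : Rel (N + 1)} {lab : Fin (N + 1) → ℕ} (hn : Nat' Q lab) :
    (LE Q).Nonempty := by
  obtain ⟨g, hg, -⟩ := exists_sorted hn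
  exact ⟨g, hg⟩

theorem card_pos {N : ℕ} {Q : Rel (N + 1)} {lab : Fin (N + 1) → ℕ} (hn : Nat' Q lab) :
    (0 : ℝ) < (LE Q).card := by
  exact_mod_cast Finset.card_pos.2 (LE_nonempty hn)

theorem MG_pos {N : ℕ} {Q : Rel (N + 1)} {lab : Fin (N + 1) → ℕ} (hn : Nat' Q lab) (s : ℝ) :
    0 < MG Q lab s :=
  Finset.sum_pos (fun _ _ => Real.exp_pos _) (LE_nonempty hn)

theorem exp_X {N : ℕ} (lab : Fin (N + 1) → ℕ) (s : ℝ) (g : Equiv.Perm (Fin (N + 1))) :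
    Real.exp (s * Xf lab g / 2) = Real.exp (s * N / 2) * Real.exp (-s) ^ des lab g := by
  rw [← Real.exp_nat_mul, ← Real.exp_add]
  unfold Xf
  congr 1
  ring

theorem MG_eq {N : ℕ} (Q : Rel (N + 1)) (lab : Fin (N + 1) → ℕ) (s : ℝ) :
    MG Q lab s = Real.exp (s * N / 2) * Wr Q lab (Real.exp (-s)) := by
  unfold MG Wr
  rw [Finset.mul_sum]
  exact Finset.sum_congr rfl fun g _ => exp_X lab s g

end Pool.NL25
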