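import Pool.Agent.SC45.Defs
import Pool.Agent.HM63.Bad

set_option autoImplicit false

/-!
# NL25/Bad4S65: bad windows of four letters contain a position of `Bf 3`
-/

namespace Pool.NL25

open Pool.HB45 Pool.HM63 Pool.SC45

open Classical in
/-- every position of `S` is `o + e` for at most one `o` -/
theorem shift_card65 {M K : ℕ} (S : Finset (Fin M)) (e : ℕ) :
    (Finset.univ.filter fun o : Fin K => ∃ p ∈ S, p.val = o.val + e).card ≤ S.card := by
  have h1 : ((Finset.univ.filter fun o : Fin K => ∃ p ∈ S, p.val = o.val + e).image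
      Fin.val).card = (Finset.univ.filter fun o : Fin K => ∃ p ∈ S, p.val = o.val + e).card :=
    Finset.card_image_of_injective _ Fin.val_injective
  rw [← h1]
  refine (Finset.card_le_card ?_).trans (Finset.card_image_le (s := S) (f := fun p => p.val - e))
  intro n hn
  simp only [Finset.mem_image, Finset.mem_filter, Finset.mem_univ, true_and] at hn ⊢
  obtain ⟨o, ⟨p, hp, hpo⟩, rfl⟩ := hn
  exact ⟨p, hp, by omega⟩

open Classical in
/-- a bad window `[o, o + 4)` contains a position of `Bf 3` among `o + 1, o + 2, o + 3` -/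
theorem card_bad4_leS {N : ℕ} {Q : Rel (N + 1)} {g : Equiv.Perm (Fin (N + 1))} (hg : g ∈ LE Q)
    (hw : ∀ o : Fin (N - 2), o.val + (3 + 1) ≤ N + 1) :
    ((Finset.univ.filter fun o : Fin (N - 2) => Bad (winRel (hw o) Q g)).card) ≤
      3 * (Bf 3 Q g).card := by
  have hsub : (Finset.univ.filter fun o : Fin (N - 2) => Bad (winRel (hw o) Q g)) ⊆
      ((Finset.univ.filter fun o : Fin (N - 2) => ∃ p ∈ Bf 3 Q g, p.val = o.val + 1) ∪
      (Finset.univ.filter fun o : Fin (N - 2) => ∃ p ∈ Bf 3 Q g, p.val = o.val + 2)) ∪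
      (Finset.univ.filter fun o : Fin (N - 2) => ∃ p ∈ Bf 3 Q g, p.val = o.val + 3) := by
    intro o ho
    rw [Finset.mem_filter] at ho
    obtain ⟨-, i, j, hij⟩ := ho
    have hlt := (mem_LE.mp hg) _ _ hij
    have hi := i.isLt
    have hj := j.isLt
    have hx : wpos (hw o) j ∈ Bf 3 Q g := by
      simp only [Bf, Finset.mem_filter, Finset.mem_univ, true_and]
      refine ⟨wpos (hw o) i, hlt, ?_, hij⟩
      simp only [wpos]
      omega
    have hlt' : (wpos (hw o) i).val < (wpos (hw o) j).val := hlt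
    have hv : (wpos (hw o) j).val = o.val + j.val := rfl
    have hvi : (wpos (hw o) i).val = o.val + i.val := rfl
    simp only [Finset.mem_union, Finset.mem_filter, Finset.mem_univ, true_and]
    rcases (show j.val = 1 ∨ j.val = 2 ∨ j.val = 3 by omega) with h | h | h
    · exact Or.inl (Or.inl ⟨_, hx, by omega⟩)
    · exact Or.inl (Or.inr ⟨_, hx, by omega⟩)
    · exact Or.inr ⟨_, hx, by omega⟩
  have h1 := Finset.card_le_card hsub
  have a1 := shift_card65 (K := N - 2) (Bf 3 Q g) 1
  have a2 := shift_card65 (K := N - 2) (Bf 3 Q g) 2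
  have a3 := shift_card65 (K := N - 2) (Bf 3 Q g) 3
  have h2 := (Finset.card_union_le
    ((Finset.univ.filter fun o : Fin (N - 2) => ∃ p ∈ Bf 3 Q g, p.val = o.val + 1) ∪
      (Finset.univ.filter fun o : Fin (N - 2) => ∃ p ∈ Bf 3 Q g, p.val = o.val + 2))
    (Finset.univ.filter fun o : Fin (N - 2) => ∃ p ∈ Bf 3 Q g, p.val = o.val + 3))
  have h3 := (Finset.card_union_le
    (Finset.univ.filter fun o : Fin (N - 2) => ∃ p ∈ Bf 3 Q g, p.val = o.val + 1)
      (Finset.univ.filter fun o : Fin (N - 2) => ∃ p ∈ Bf 3 Q g, p.val = o.val + 2))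
  omega

end Pool.NL25
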