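import Pool.Agent.NL25.Stein
import Pool.Agent.PH48.Win4

set_option autoImplicit false

/-!
# NL25/LocAvgS: one position, the average over the window of four letters
-/

namespace Pool.NL25

open Pool.HB45 Pool.HM63 Pool.PH43 Pool.SC25 Pool.SC45

/-- descents as a sum of indicators -/
theorem des_eq_isum {N : ℕ} (lab : Fin (N + 1) → ℕ) (g : Equiv.Perm (Fin (N + 1))) :
    des lab g = ∑ i : Fin N, if lab (g i.succ) < lab (g i.castSucc) then 1 else 0 := by
  unfold des
  rw [Finset.card_filter]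

/-- the summands outside a window cancel in the difference of two rearrangements which agree at the ends of the window -/
theorem des_win_diff {N : ℕ} (lab : Fin (N + 1) → ℕ) (o : ℕ) (hof : o + (3 + 1) ≤ N + 1)
    (π : Equiv.Perm (Fin (N + 1))) (τ τ' : Equiv.Perm (Fin (3 + 1))) (h0 : τ 0 = τ' 0)
    (h3 : τ 3 = τ' 3) :
    (des lab (π * emb hof τ') : ℤ) - des lab (π * emb hof τ) =
      (des (fun i => lab (π (wpos hof i))) τ' : ℤ) - des (fun i => lab (π (wpos hof i))) τ := by
  have key : ∀ σ : Equiv.Perm (Fin (3 + 1)), (des lab (π * emb hof σ) : ℤ) =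
      des (fun i => lab (π (wpos hof i))) σ +
      ∑ i ∈ Finset.univ.filter (fun i : Fin N => ¬ (o ≤ i.val ∧ i.val < o + 3)),
        (if lab ((π * emb hof σ) i.succ) < lab ((π * emb hof σ) i.castSucc) then (1 : ℤ) else 0) := by
    intro σ
    rw [des_eq_isum, des_eq_isum]
    push_cast
    rw [← Finset.sum_filter_add_sum_filter_not Finset.univ
      (fun i : Fin N => o ≤ i.val ∧ i.val < o + 3)]
    congr 1
    symm
    refine Finset.sum_bij (fun (j : Fin 3) _ => (⟨o + j.val, by have := j.isLt; omega⟩ : Fin N))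
      ?_ ?_ ?_ ?_
    · intro j _
      rw [Finset.mem_filter]
      have := j.isLt
      exact ⟨Finset.mem_univ _, by simp, by simp⟩
    · intro j _ j' _ h
      rw [Fin.mk.injEq] at h
      exact Fin.ext (by omega)
    · intro i hi
      rw [Finset.mem_filter] at hi
      refine ⟨⟨i.val - o, by omega⟩, Finset.mem_univ _, ?_⟩
      apply Fin.ext
      simp
      omega
    · intro j _
      have e1 : (⟨o + j.val, by have := j.isLt; omega⟩ : Fin N).succ = wpos hof j.succ := by
        apply Fin.ext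
        simp [wpos]
        omega
      have e2 : (⟨o + j.val, by have := j.isLt; omega⟩ : Fin N).castSucc = wpos hof j.castSucc := by
        apply Fin.ext
        simp [wpos]
      rw [e1, e2]
      simp only [Equiv.Perm.coe_mul, Function.comp_apply, emb_wpos]
  rw [key τ, key τ']
  have h : ∑ i ∈ Finset.univ.filter (fun i : Fin N => ¬ (o ≤ i.val ∧ i.val < o + 3)),
        (if lab ((π * emb hof τ') i.succ) < lab ((π * emb hof τ') i.castSucc) then (1 : ℤ) else 0) =
      ∑ i ∈ Finset.univ.filter (fun i : Fin N => ¬ (o ≤ i.val ∧ i.val < o + 3)),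
        (if lab ((π * emb hof τ) i.succ) < lab ((π * emb hof τ) i.castSucc) then (1 : ℤ) else 0) := by
    refine Finset.sum_congr rfl fun i hi => ?_
    rw [Finset.mem_filter] at hi
    have hs : i.succ.val = i.val + 1 := rfl
    have hc : i.castSucc.val = i.val := rfl
    have e : ∀ q : Fin (N + 1), ¬ (o + 1 ≤ q.val ∧ q.val ≤ o + 2) → emb hof τ' q = emb hof τ q := by
      intro q hq
      by_cases hw : o ≤ q.val ∧ q.val < o + (3 + 1)
      · by_cases hq0 : q.val = o
        · have : q = wpos hof 0 := Fin.ext (by simp [wpos, hq0])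
          rw [this, emb_wpos, emb_wpos, h0]
        · have : q = wpos hof 3 := Fin.ext (by simp [wpos]; omega)
          rw [this, emb_wpos, emb_wpos, h3]
      · rw [emb_of_not hof τ' q hw, emb_of_not hof τ q hw]
    rw [Equiv.Perm.mul_apply, Equiv.Perm.mul_apply, Equiv.Perm.mul_apply, Equiv.Perm.mul_apply,
      e i.succ (by omega), e i.castSucc (by omega)]
  rw [h]
  ring

/-- rearranging a window of four letters changes `des` by at most 5 -/
theorem des_win_le {N : ℕ} (lab : Fin (N + 1) → ℕ) (o : ℕ) (hof : o + (3 + 1) ≤ N + 1)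
    (g g' : Equiv.Perm (Fin (N + 1)))
    (h : ∀ q : Fin (N + 1), ¬ (o ≤ q.val ∧ q.val < o + (3 + 1)) → g' q = g q) :
    des lab g' ≤ des lab g + 5 := by
  classical
  unfold des
  have h1 : (Finset.univ.filter fun i : Fin N => lab (g' i.succ) < lab (g' i.castSucc)) ⊆
      (Finset.univ.filter fun i : Fin N => lab (g i.succ) < lab (g i.castSucc)) ∪
      (Finset.univ.filter fun i : Fin N => o ≤ i.val + 1 ∧ i.val < o + 4) := by
    intro i hi
    rw [Finset.mem_filter] at hi
    rw [Finset.mem_union, Finset.mem_filter, Finset.mem_filter]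
    by_cases hw : o ≤ i.val + 1 ∧ i.val < o + 4
    · exact Or.inr ⟨Finset.mem_univ _, hw⟩
    · left
      refine ⟨Finset.mem_univ _, ?_⟩
      have hs : i.succ.val = i.val + 1 := rfl
      have hc : i.castSucc.val = i.val := rfl
      rw [← h i.succ (by omega), ← h i.castSucc (by omega)]
      exact hi.2
  have h2 : (Finset.univ.filter fun i : Fin N => o ≤ i.val + 1 ∧ i.val < o + 4).card ≤ 5 := by
    have h3 : (Finset.univ.filter fun i : Fin N => o ≤ i.val + 1 ∧ i.val < o + 4).card ≤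
        (Finset.range 5).card := by
      refine Finset.card_le_card_of_injOn (fun i => i.val + 1 - o) ?_ ?_
      · intro i hi
        have hi' := Finset.mem_filter.1 (Finset.mem_coe.1 hi)
        have h4 : i.val + 1 - o < 5 := by omega
        exact Finset.mem_coe.2 (Finset.mem_range.2 h4)
      · intro i hi j hj hij
        have hi' := Finset.mem_filter.1 (Finset.mem_coe.1 hi)
        have hj' := Finset.mem_filter.1 (Finset.mem_coe.1 hj)
        have hij' : i.val + 1 - o = j.val + 1 - o := hij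
        exact Fin.ext (by omega)
    rwa [Finset.card_range] at h3
  calc _ ≤ _ := Finset.card_le_card h1
    _ ≤ _ := Finset.card_union_le _ _
    _ ≤ _ := by omega

theorem abs_X_win {N : ℕ} (lab : Fin (N + 1) → ℕ) (o : ℕ) (hof : o + (3 + 1) ≤ N + 1)
    (π : Equiv.Perm (Fin (N + 1))) (τ : Equiv.Perm (Fin (3 + 1))) :
    |Xf lab (π * emb hof τ) - Xf lab π| ≤ 10 := by
  have e : ∀ q : Fin (N + 1), ¬ (o ≤ q.val ∧ q.val < o + (3 + 1)) →
      (π * emb hof τ) q = π q := by
    intro q hq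
    rw [Equiv.Perm.mul_apply, emb_of_not hof τ q hq]
  have h1 := des_win_le lab o hof π (π * emb hof τ) e
  have h2 := des_win_le lab o hof (π * emb hof τ) π fun q hq => (e q hq).symm
  have h1' : (des lab (π * emb hof τ) : ℝ) ≤ des lab π + 5 := by exact_mod_cast h1
  have h2' : (des lab π : ℝ) ≤ des lab (π * emb hof τ) + 5 := by exact_mod_cast h2
  unfold Xf
  rw [abs_le]
  constructor <;> linarith

/-- the numerical fact for four letters: `∑ ξ = 8` -/
def xi4 (lab : Fin (3 + 1) → ℕ) (τ : Equiv.Perm (Fin (3 + 1))) : ℤ :=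
  (if lab (τ 1) < lab (τ 2) then 1 else -1) * ((des lab (τ * Equiv.swap 1 2) : ℤ) - des lab τ)

theorem xi4_val : ∑ τ, xi4 (fun a => a.val) τ = 8 := by
  decide +kernel

theorem xi4_abs_val : ∑ τ, |xi4 (fun a => a.val) τ| = 16 := by
  decide +kernel

theorem xi4_le_val : ∀ τ, |xi4 (fun a => a.val) τ| ≤ 1 := by
  decide +kernel

theorem xi4_sort {lab : Fin (3 + 1) → ℕ} (hinj : Function.Injective lab)
    (τ : Equiv.Perm (Fin (3 + 1))) :
    xi4 lab (Tuple.sort lab * τ) = xi4 (fun a => a.val) τ := by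
  have hm : StrictMono (lab ∘ Tuple.sort lab) :=
    (Tuple.monotone_sort lab).strictMono_of_injective (hinj.comp (Tuple.sort lab).injective)
  unfold xi4
  rw [mul_assoc, des_sort hinj, des_sort hinj, Equiv.Perm.mul_apply, Equiv.Perm.mul_apply]
  congr 1
  have h : lab (Tuple.sort lab (τ 1)) < lab (Tuple.sort lab (τ 2)) ↔ (τ 1).val < (τ 2).val :=
    (hm.lt_iff_lt (a := τ 1) (b := τ 2)).trans Fin.lt_def
  simp only [h]

theorem xi4_sum {lab : Fin (3 + 1) → ℕ} (hinj : Function.Injective lab) :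
    ∑ τ, xi4 lab τ = 8 := by
  rw [← xi4_val, ← Equiv.sum_comp (Equiv.mulLeft (Tuple.sort lab)) (xi4 lab)]
  exact Finset.sum_congr rfl fun τ _ => xi4_sort hinj τ

theorem xi4_abs_sum {lab : Fin (3 + 1) → ℕ} (hinj : Function.Injective lab) :
    ∑ τ, |xi4 lab τ| = 16 := by
  rw [← xi4_abs_val, ← Equiv.sum_comp (Equiv.mulLeft (Tuple.sort lab)) (fun τ => |xi4 lab τ|)]
  refine Finset.sum_congr rfl fun τ _ => ?_
  change |xi4 lab (Tuple.sort lab * τ)| = _
  rw [xi4_sort hinj τ]

theorem xi4_le {lab : Fin (3 + 1) → ℕ} (hinj : Function.Injective lab)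
    (τ : Equiv.Perm (Fin (3 + 1))) : |xi4 lab τ| ≤ 1 := by
  have h := xi4_sort hinj ((Tuple.sort lab)⁻¹ * τ)
  rw [mul_inv_cancel_left] at h
  rw [h]
  exact xi4_le_val _

/-- exchanging the two middle letters of the window -/
theorem emb_mul_swap {N : ℕ} (o : ℕ) (hof : o + (3 + 1) ≤ N + 1) (ho : o + 1 < N)
    (π : Equiv.Perm (Fin (N + 1))) (τ : Equiv.Perm (Fin (3 + 1))) :
    sw (π * emb hof τ) ⟨o + 1, ho⟩ = π * emb hof (τ * Equiv.swap 1 2) := by
  have e1 : (⟨o + 1, ho⟩ : Fin N).castSucc = wpos hof 1 := Fin.ext (by simp [wpos])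
  have e2 : (⟨o + 1, ho⟩ : Fin N).succ = wpos hof 2 := Fin.ext (by simp [wpos])
  have hne : wpos hof 1 ≠ wpos hof 2 := by
    intro h
    have := congrArg Fin.val h
    simp [wpos] at this
  unfold sw
  rw [e1, e2, mul_assoc, emb_mul]
  congr 2
  ext p
  congr 1
  by_cases hw : o ≤ p.val ∧ p.val < o + (3 + 1)
  · obtain ⟨i, rfl⟩ := exists_wpos hof p hw
    rw [emb_wpos]
    have hinj : ∀ i j : Fin (3 + 1), wpos hof i = wpos hof j → i = j := by
      intro i j h
      have := congrArg Fin.val h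
      simp [wpos] at this
      exact Fin.ext this
    by_cases h1 : i = 1
    · rw [h1, Equiv.swap_apply_left, Equiv.swap_apply_left]
    · by_cases h2 : i = 2
      · rw [h2, Equiv.swap_apply_right, Equiv.swap_apply_right]
      · rw [Equiv.swap_apply_of_ne_of_ne h1 h2, Equiv.swap_apply_of_ne_of_ne
          (fun h => h1 (hinj _ _ h)) (fun h => h2 (hinj _ _ h))]
  · rw [emb_of_not hof _ p hw, Equiv.swap_apply_of_ne_of_ne]
    · intro h
      exact hw (h ▸ wpos_in hof 1)
    · intro h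
      exact hw (h ▸ wpos_in hof 2)

/-- `e^(5t) - 1 ≤ 148 t` on `[0, 1]` -/
theorem exp5_le (t : ℝ) (h0 : 0 ≤ t) (h1 : t ≤ 1) : Real.exp (5 * t) - 1 ≤ 148 * t := by
  have hc := convexOn_exp.2 (Set.mem_univ (5 : ℝ)) (Set.mem_univ (0 : ℝ)) h0
    (by linarith : 0 ≤ 1 - t) (by ring)
  simp only [smul_eq_mul, mul_zero, add_zero, Real.exp_zero, mul_one] at hc
  rw [mul_comm t 5] at hc
  have h5 : Real.exp 5 ≤ 149 := by
    have h2 : Real.exp 5 = Real.exp 1 ^ 5 := by
      rw [← Real.exp_nat_mul]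
      norm_num
    rw [h2]
    calc Real.exp 1 ^ 5 ≤ 2.7182818286 ^ 5 :=
          pow_le_pow_left₀ (Real.exp_pos _).le Real.exp_one_lt_d9.le 5
      _ ≤ 149 := by norm_num
  nlinarith

theorem abs_exp_sub_one_le5 (s x : ℝ) (hs : |s| ≤ 1) (hx : |x| ≤ 5 * |s|) :
    |Real.exp x - 1| ≤ 148 * |s| := by
  have h1 := exp5_le |s| (abs_nonneg _) hs
  have h2 : Real.exp x ≤ Real.exp (5 * |s|) := Real.exp_le_exp.2 ((le_abs_self x).trans hx)
  have h3 : Real.exp (-(5 * |s|)) ≤ Real.exp x :=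
    Real.exp_le_exp.2 (by have := neg_abs_le x; linarith)
  have h4 := Real.add_one_le_exp (-(5 * |s|))
  rw [abs_le]
  constructor
  · have := abs_nonneg s
    linarith
  · linarith

theorem bad_emb {N : ℕ} {Q : Rel (N + 1)} {o : ℕ} (hof : o + (3 + 1) ≤ N + 1)
    (π : Equiv.Perm (Fin (N + 1))) (τ : Equiv.Perm (Fin (3 + 1))) :
    Bad (winRel hof Q (π * emb hof τ)) ↔ Bad (winRel hof Q π) := by
  constructor
  · rintro ⟨i, j, hij⟩
    exact ⟨τ i, τ j, (winRel_mul_emb hof π τ i j).1 hij⟩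
  · rintro ⟨i, j, hij⟩
    refine ⟨τ.symm i, τ.symm j, (winRel_mul_emb hof π τ _ _).2 ?_⟩
    rw [Equiv.apply_symm_apply, Equiv.apply_symm_apply]
    exact hij

theorem abs_ep {N : ℕ} (lab : Fin (N + 1) → ℕ) (i : Fin N) (g : Equiv.Perm (Fin (N + 1))) :
    |ep lab i g| = 1 := by
  unfold ep
  split_ifs <;> simp

theorem abs_loc_leS {N : ℕ} {Q : Rel (N + 1)} {lab : Fin (N + 1) → ℕ} (hn : Nat' Q lab) (s : ℝ)
    (hs : |s| ≤ 1) (i : Fin N) (g : Equiv.Perm (Fin (N + 1))) : |loc Q lab s i g| ≤ 2 * |s| := by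
  unfold loc
  split_ifs with h
  · rw [abs_zero]
    positivity
  · rw [abs_mul, abs_ep, one_mul, abs_sub_comm]
    have hd : |s * ((des lab g : ℝ) - des lab (sw g i))| ≤ |s| := by
      rw [abs_mul]
      have h1 : |(des lab g : ℝ) - des lab (sw g i)| ≤ 1 := by
        rcases des_sw hn.inj g i with h1 | h1 | h1
        · rw [h1, sub_self, abs_zero]
          exact zero_le_one
        · rw [h1, abs_le]
          push_cast
          constructor <;> linarith
        · have h2 : (des lab g : ℝ) = des lab (sw g i) + 1 := by exact_mod_cast h1.symm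
          rw [h2, abs_le]
          constructor <;> linarith
      calc |s| * |(des lab g : ℝ) - des lab (sw g i)| ≤ |s| * 1 :=
            mul_le_mul_of_nonneg_left h1 (abs_nonneg _)
        _ = |s| := mul_one _
    have h2 := Real.abs_exp_sub_one_le (hd.trans hs)
    linarith

/-- the local term in a window without comparable letters -/
theorem loc_win {N : ℕ} {Q : Rel (N + 1)} {lab : Fin (N + 1) → ℕ} (s : ℝ) (hs : |s| ≤ 1)
    (hinj : Function.Injective lab) {o : ℕ} (hof : o + (3 + 1) ≤ N + 1) (ho : o + 1 < N)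
    (π : Equiv.Perm (Fin (N + 1))) (hb : ¬ Bad (winRel hof Q π)) (τ : Equiv.Perm (Fin (3 + 1))) :
    |loc Q lab s ⟨o + 1, ho⟩ (π * emb hof τ) - s * xi4 (fun i => lab (π (wpos hof i))) τ| ≤
      s ^ 2 * |(xi4 (fun i => lab (π (wpos hof i))) τ : ℝ)| := by
  have hinj4 : Function.Injective (fun i => lab (π (wpos hof i))) := by
    intro i j h
    have h1 := congrArg Fin.val (π.injective (hinj h))
    simp [wpos] at h1
    exact Fin.ext h1
  have e1 : (⟨o + 1, ho⟩ : Fin N).castSucc = wpos hof 1 := Fin.ext (by simp [wpos])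
  have e2 : (⟨o + 1, ho⟩ : Fin N).succ = wpos hof 2 := Fin.ext (by simp [wpos])
  have hq : ¬ Q ((π * emb hof τ) (⟨o + 1, ho⟩ : Fin N).castSucc)
      ((π * emb hof τ) (⟨o + 1, ho⟩ : Fin N).succ) := by
    rw [e1, e2]
    intro h
    exact hb ((bad_emb hof π τ).1 ⟨1, 2, h⟩)
  have hd := des_win_diff lab o hof π τ (τ * Equiv.swap 1 2)
    (by rw [Equiv.Perm.mul_apply, Equiv.swap_apply_of_ne_of_ne (by decide) (by decide)])
    (by rw [Equiv.Perm.mul_apply, Equiv.swap_apply_of_ne_of_ne (by decide) (by decide)])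
  unfold loc
  rw [if_neg hq, emb_mul_swap o hof ho π τ]
  have hep : ep lab ⟨o + 1, ho⟩ (π * emb hof τ) =
      if lab (π (wpos hof (τ 1))) < lab (π (wpos hof (τ 2))) then 1 else -1 := by
    unfold ep
    rw [e1, e2]
    simp only [Equiv.Perm.coe_mul, Function.comp_apply, emb_wpos]
  obtain ⟨d, hdd⟩ : ∃ d : ℤ, d = (des (fun i => lab (π (wpos hof i))) (τ * Equiv.swap 1 2) : ℤ) -
      des (fun i => lab (π (wpos hof i))) τ := ⟨_, rfl⟩
  have hdR : (des lab (π * emb hof τ) : ℝ) - des lab (π * emb hof (τ * Equiv.swap 1 2)) = -d := by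
    rw [← hdd] at hd
    have : ((des lab (π * emb hof (τ * Equiv.swap 1 2)) : ℤ) : ℝ) -
      ((des lab (π * emb hof τ) : ℤ) : ℝ) = (d : ℝ) := by exact_mod_cast hd
    push_cast at this
    linarith
  rw [hdR, hep]
  have hxi := xi4_le hinj4 τ
  unfold xi4 at hxi ⊢
  rw [← hdd] at hxi ⊢
  obtain ⟨e, he, he'⟩ : ∃ e : ℤ, (e = 1 ∨ e = -1) ∧
      (if lab (π (wpos hof (τ 1))) < lab (π (wpos hof (τ 2))) then (1 : ℤ) else -1) = e := by
    split_ifs
    · exact ⟨1, Or.inl rfl, rfl⟩
    · exact ⟨-1, Or.inr rfl, rfl⟩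
  have he'' : (if lab (π (wpos hof (τ 1))) < lab (π (wpos hof (τ 2))) then (1 : ℝ) else -1) = e := by
    rw [← he']
    split_ifs <;> simp
  rw [he'] at hxi ⊢
  rw [he'']
  have hd1 : d = 0 ∨ d = 1 ∨ d = -1 := by
    have : |d| ≤ 1 := by
      rw [abs_mul] at hxi
      rcases he with rfl | rfl
      · simpa using hxi
      · simpa using hxi
    rw [abs_le] at this
    omega
  have hu : |s * -(d : ℝ)| ≤ 1 := by
    rw [abs_mul, abs_neg]
    rcases hd1 with rfl | rfl | rfl
    · simp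
    · simpa using hs
    · simpa using hs
  have hr := Real.abs_exp_sub_one_sub_id_le hu
  have h1 : (e : ℝ) * (1 - Real.exp (s * -(d : ℝ))) - s * ((e * d : ℤ) : ℝ) =
      -(e : ℝ) * (Real.exp (s * -(d : ℝ)) - 1 - s * -(d : ℝ)) := by
    push_cast
    ring
  rw [h1, abs_mul, abs_neg]
  have h2 : |(e : ℝ)| = 1 := by
    rcases he with rfl | rfl <;> simp
  have h3 : (s * -(d : ℝ)) ^ 2 = s ^ 2 * |((e * d : ℤ) : ℝ)| := by
    push_cast
    rw [abs_mul, h2, one_mul]
    rcases hd1 with rfl | rfl | rfl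
    · simp
    · simp
    · simp
  rw [h2, one_mul, ← h3]
  exact hr

/-- the average over the rearrangements of one window -/
theorem win_avg {N : ℕ} {Q : Rel (N + 1)} {lab : Fin (N + 1) → ℕ} (s : ℝ) (hs : |s| ≤ 1)
    (hinj : Function.Injective lab) {o : ℕ} (hof : o + (3 + 1) ≤ N + 1) (ho : o + 1 < N)
    (π : Equiv.Perm (Fin (N + 1))) (hb : ¬ Bad (winRel hof Q π)) :
    |∑ τ : Equiv.Perm (Fin (3 + 1)), (loc Q lab s ⟨o + 1, ho⟩ (π * emb hof τ) - s / 3) *
      Real.exp (s * Xf lab (π * emb hof τ) / 2)| ≤ 7200 * s ^ 2 * Real.exp (s * Xf lab π / 2) := by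
  have hinj4 : Function.Injective (fun i => lab (π (wpos hof i))) := by
    intro i j h
    have h1 := congrArg Fin.val (π.injective (hinj h))
    simp [wpos] at h1
    exact Fin.ext h1
  obtain ⟨L, hL⟩ : ∃ L : Equiv.Perm (Fin (3 + 1)) → ℝ,
      L = fun τ => loc Q lab s ⟨o + 1, ho⟩ (π * emb hof τ) := ⟨_, rfl⟩
  obtain ⟨ξ, hξ⟩ : ∃ ξ : Equiv.Perm (Fin (3 + 1)) → ℝ,
      ξ = fun τ => (xi4 (fun i => lab (π (wpos hof i))) τ : ℝ) := ⟨_, rfl⟩
  have hw := fun τ => loc_win (Q := Q) s hs hinj hof ho π hb τ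
  have hLξ : ∀ τ, |L τ - s * ξ τ| ≤ s ^ 2 * |ξ τ| := by
    intro τ
    rw [hL, hξ]
    exact hw τ
  have hs1 : ∑ τ, ξ τ = 8 := by
    rw [hξ]
    have := xi4_sum hinj4
    simp only
    exact_mod_cast this
  have hs2 : ∑ τ, |ξ τ| = 16 := by
    rw [hξ]
    have := xi4_abs_sum hinj4
    simp only
    exact_mod_cast this
  have hcard : (Finset.univ : Finset (Equiv.Perm (Fin (3 + 1)))).card = 24 := by
    rw [Finset.card_univ, Fintype.card_perm, Fintype.card_fin]
    rfl
  have hs0 := abs_nonneg s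
  have hsq : s ^ 2 = |s| ^ 2 := (sq_abs s).symm
  -- the weights
  have hE : ∀ τ, |Real.exp (s * Xf lab (π * emb hof τ) / 2 - s * Xf lab π / 2) - 1| ≤ 148 * |s| := by
    intro τ
    refine abs_exp_sub_one_le5 s _ hs ?_
    have h1 := abs_X_win lab o hof π τ
    have h2 : s * Xf lab (π * emb hof τ) / 2 - s * Xf lab π / 2 =
        s * (Xf lab (π * emb hof τ) - Xf lab π) / 2 := by ring
    rw [h2, abs_div, abs_mul, abs_of_pos (by norm_num : (0 : ℝ) < 2)]
    have h3 := mul_le_mul_of_nonneg_left h1 hs0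
    linarith
  have hA : |∑ τ, (L τ - s / 3)| ≤ 16 * s ^ 2 := by
    have h1 : ∑ τ, (L τ - s / 3) = ∑ τ, (L τ - s * ξ τ) := by
      rw [Finset.sum_sub_distrib, Finset.sum_sub_distrib, ← Finset.mul_sum, hs1, Finset.sum_const,
        hcard, nsmul_eq_mul]
      push_cast
      ring
    rw [h1]
    calc |∑ τ, (L τ - s * ξ τ)| ≤ ∑ τ, |L τ - s * ξ τ| := Finset.abs_sum_le_sum_abs _ _
      _ ≤ ∑ τ, s ^ 2 * |ξ τ| := Finset.sum_le_sum fun τ _ => hLξ τ
      _ = 16 * s ^ 2 := by rw [← Finset.mul_sum, hs2]; ring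
  have hB : ∑ τ, |L τ - s / 3| ≤ 40 * |s| := by
    calc ∑ τ, |L τ - s / 3| ≤ ∑ τ, (2 * |s| * |ξ τ| + |s| / 3) := by
          refine Finset.sum_le_sum fun τ _ => ?_
          have h1 := hLξ τ
          have h2 : |L τ - s / 3| ≤ |L τ - s * ξ τ| + |s * ξ τ| + |s / 3| := by
            have e : L τ - s / 3 = (L τ - s * ξ τ) + s * ξ τ + -(s / 3) := by ring
            rw [e]
            refine (abs_add_three _ _ _).trans ?_
            rw [abs_neg]
          rw [abs_mul, abs_div, abs_of_pos (by norm_num : (0 : ℝ) < 3)] at h2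
          have h3 : s ^ 2 * |ξ τ| ≤ |s| * |ξ τ| := by
            refine mul_le_mul_of_nonneg_right ?_ (abs_nonneg _)
            rw [hsq]
            nlinarith
          linarith
      _ = 40 * |s| := by
          rw [Finset.sum_add_distrib, ← Finset.mul_sum, hs2, Finset.sum_const, hcard, nsmul_eq_mul]
          push_cast
          ring
  have hC : |∑ τ, (L τ - s / 3) *
      (Real.exp (s * Xf lab (π * emb hof τ) / 2 - s * Xf lab π / 2) - 1)| ≤
      40 * |s| * (148 * |s|) := by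
    calc _ ≤ ∑ τ, |(L τ - s / 3) *
        (Real.exp (s * Xf lab (π * emb hof τ) / 2 - s * Xf lab π / 2) - 1)| :=
          Finset.abs_sum_le_sum_abs _ _
      _ ≤ ∑ τ, |L τ - s / 3| * (148 * |s|) := by
          refine Finset.sum_le_sum fun τ _ => ?_
          rw [abs_mul]
          exact mul_le_mul_of_nonneg_left (hE τ) (abs_nonneg _)
      _ = (∑ τ, |L τ - s / 3|) * (148 * |s|) := by rw [Finset.sum_mul]
      _ ≤ 40 * |s| * (148 * |s|) := mul_le_mul_of_nonneg_right hB (by positivity)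
  have hmain : ∑ τ : Equiv.Perm (Fin (3 + 1)), (loc Q lab s ⟨o + 1, ho⟩ (π * emb hof τ) - s / 3) *
      Real.exp (s * Xf lab (π * emb hof τ) / 2) =
      Real.exp (s * Xf lab π / 2) * (∑ τ, (L τ - s / 3) + ∑ τ, (L τ - s / 3) *
      (Real.exp (s * Xf lab (π * emb hof τ) / 2 - s * Xf lab π / 2) - 1)) := by
    rw [← Finset.sum_add_distrib, Finset.mul_sum]
    refine Finset.sum_congr rfl fun τ _ => ?_
    have e : Real.exp (s * Xf lab (π * emb hof τ) / 2) = Real.exp (s * Xf lab π / 2) *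
        Real.exp (s * Xf lab (π * emb hof τ) / 2 - s * Xf lab π / 2) := by
      rw [← Real.exp_add]
      congr 1
      ring
    rw [e, hL]
    ring
  rw [hmain, abs_mul, abs_of_pos (Real.exp_pos _), mul_comm (7200 * s ^ 2)]
  refine mul_le_mul_of_nonneg_left ?_ (Real.exp_pos _).le
  refine (abs_add_le _ _).trans ?_
  rw [hsq] at hA ⊢
  nlinarith [sq_nonneg |s|]

open Classical in
theorem loc_avgS {N : ℕ} {Q : Rel (N + 1)} {lab : Fin (N + 1) → ℕ} (hn : Nat' Q lab) (s : ℝ)
    (hs : |s| ≤ 1) (o : ℕ) (ho : o + 3 ≤ N) (hof : o + (3 + 1) ≤ N + 1) :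
    |∑ g ∈ LE Q, (loc Q lab s ⟨o + 1, by omega⟩ g - s / 3) * Real.exp (s * Xf lab g / 2)| ≤
      300 * s ^ 2 * MG Q lab s +
        4 * |s| * ∑ g ∈ (LE Q).filter (fun g => Bad (winRel hof Q g)),
          Real.exp (s * Xf lab g / 2) := by
  have ho1 : o + 1 < N := by omega
  obtain ⟨F, hF⟩ : ∃ F : Equiv.Perm (Fin (N + 1)) → ℝ,
      F = fun g => (loc Q lab s ⟨o + 1, ho1⟩ g - s / 3) * Real.exp (s * Xf lab g / 2) := ⟨_, rfl⟩
  have hsplit : ∑ g ∈ LE Q, F g = ∑ g ∈ (LE Q).filter (fun g => Bad (winRel hof Q g)), F g +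
      ∑ g ∈ LE Q, (if Bad (winRel hof Q g) then 0 else F g) := by
    rw [Finset.sum_filter, ← Finset.sum_add_distrib]
    refine Finset.sum_congr rfl fun g _ => ?_
    split_ifs <;> simp
  have hbad : |∑ g ∈ (LE Q).filter (fun g => Bad (winRel hof Q g)), F g| ≤
      4 * |s| * ∑ g ∈ (LE Q).filter (fun g => Bad (winRel hof Q g)), Real.exp (s * Xf lab g / 2) := by
    refine (Finset.abs_sum_le_sum_abs _ _).trans ?_
    rw [Finset.mul_sum]
    refine Finset.sum_le_sum fun g _ => ?_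
    rw [hF]
    simp only
    rw [abs_mul, abs_of_pos (Real.exp_pos _)]
    refine mul_le_mul_of_nonneg_right ?_ (Real.exp_pos _).le
    have h1 := abs_loc_leS hn s hs ⟨o + 1, ho1⟩ g
    have h2 := abs_sub (loc Q lab s ⟨o + 1, ho1⟩ g) (s / 3)
    rw [abs_div, abs_of_pos (by norm_num : (0 : ℝ) < 3)] at h2
    have := abs_nonneg s
    linarith
  have hgood : |∑ g ∈ LE Q, (if Bad (winRel hof Q g) then 0 else F g)| ≤
      300 * s ^ 2 * MG Q lab s := by
    rw [avg hof (fun g => if Bad (winRel hof Q g) then 0 else F g)]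
    refine (Finset.abs_sum_le_sum_abs _ _).trans ?_
    unfold MG
    rw [Finset.mul_sum]
    refine Finset.sum_le_sum fun π _ => ?_
    by_cases hb : Bad (winRel hof Q π)
    · have h0 : ∑ τ ∈ LE (winRel hof Q π),
          (if Bad (winRel hof Q (π * emb hof τ)) then 0 else F (π * emb hof τ)) = 0 := by
        refine Finset.sum_eq_zero fun τ _ => ?_
        rw [if_pos ((bad_emb hof π τ).2 hb)]
      rw [h0, smul_zero, abs_zero]
      positivity
    · have hall : LE (winRel hof Q π) = Finset.univ := by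
        rw [Finset.eq_univ_iff_forall]
        intro g
        rw [mem_LE]
        intro i j hij
        exact absurd ⟨_, _, hij⟩ hb
      have hcard : (Finset.univ : Finset (Equiv.Perm (Fin (3 + 1)))).card = 24 := by
        rw [Finset.card_univ, Fintype.card_perm, Fintype.card_fin]
        rfl
      have h0 : ∑ τ : Equiv.Perm (Fin (3 + 1)),
          (if Bad (winRel hof Q (π * emb hof τ)) then 0 else F (π * emb hof τ)) =
          ∑ τ : Equiv.Perm (Fin (3 + 1)), F (π * emb hof τ) := by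
        refine Finset.sum_congr rfl fun τ _ => ?_
        rw [if_neg (fun h => hb ((bad_emb hof π τ).1 h))]
      have h1 := win_avg (Q := Q) s hs hn.inj hof ho1 π hb
      rw [hall, hcard, h0, smul_eq_mul, abs_mul]
      have h2 : |∑ τ : Equiv.Perm (Fin (3 + 1)), F (π * emb hof τ)| ≤
          7200 * s ^ 2 * Real.exp (s * Xf lab π / 2) := by
        rw [hF]
        exact h1
      have h3 : |(((24 : ℕ) : ℝ))⁻¹| = 1 / 24 := by norm_num
      rw [h3]
      linarith
  have hfin : ∑ g ∈ LE Q, (loc Q lab s ⟨o + 1, by omega⟩ g - s / 3) * Real.exp (s * Xf lab g / 2) =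
      ∑ g ∈ LE Q, F g := by
    rw [hF]
  rw [hfin, hsplit]
  refine (abs_add_le _ _).trans ?_
  linarith

end Pool.NL25
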