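import Pool.Agent.NL25.Stein
import Pool.Agent.NL25.LocAvgS
import Pool.Agent.NL25.Bad4S65

set_option autoImplicit false

/-!
# NL25/Loc: the local terms have mean `s/3` on antichain windows
-/

namespace Pool.NL25

open Pool.HB45 Pool.HM63 Pool.PH43 Pool.SC25 Pool.SC45

theorem win4_le {N : ℕ} (o : ℕ) (ho : o + 3 ≤ N) : o + (3 + 1) ≤ N + 1 := by omega

/-- `|e^x - 1 - x| ≤ x²` etc.: `|loc| ≤ 2 |s|` for `|s| ≤ 1` (`des` changes by at most 1, `des_sw`) -/
theorem abs_loc_le {N : ℕ} {Q : Rel (N + 1)} {lab : Fin (N + 1) → ℕ} (hn : Nat' Q lab) (s : ℝ)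
    (hs : |s| ≤ 1) (i : Fin N) (g : Equiv.Perm (Fin (N + 1))) : |loc Q lab s i g| ≤ 2 * |s| :=
  abs_loc_leS hn s hs i g

open Classical in
/-- ONE POSITION. `i = o + 1`, window `[o, o + 4)`. PROOF. With `d = des (sw g i) - des g ∈ {-1, 0, 1}`:
`loc = s * ep_i d + O(s²)` (`|1 - e^(-sd) - sd| ≤ s²`), `ξ := ep_i d` = `1 - #{outer letters of the window with label between the
two middle ones}`. For an antichain window: `avg` with `f = 4`; all 24 orders occur and `∑_σ ξ = 8` (depends only on the order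
of the four labels; compare `P4_card` in PH48/Win4); `X` changes by at most 10 in the window, so the weights `e^(sX/2)` vary by a factor
`1 + O(150 |s|)`. Bad windows: trivial bound. -/
theorem loc_avg {N : ℕ} {Q : Rel (N + 1)} {lab : Fin (N + 1) → ℕ} (hn : Nat' Q lab) (s : ℝ)
    (hs : |s| ≤ 1) (o : ℕ) (ho : o + 3 ≤ N) :
    |∑ g ∈ LE Q, (loc Q lab s ⟨o + 1, by omega⟩ g - s / 3) * Real.exp (s * Xf lab g / 2)| ≤
      300 * s ^ 2 * MG Q lab s +
        4 * |s| * ∑ g ∈ (LE Q).filter (fun g => Bad (winRel (win4_le o ho) Q g)),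
          Real.exp (s * Xf lab g / 2) :=
  loc_avgS hn s hs o ho (win4_le o ho)

open Classical in
/-- a bad window `[o, o + 4)` contains a position of `Bf 3` among `o + 1, o + 2, o + 3` -/
theorem card_bad4_le {N : ℕ} {Q : Rel (N + 1)} {g : Equiv.Perm (Fin (N + 1))} (hg : g ∈ LE Q) :
    ((Finset.univ.filter fun o : Fin (N - 2) =>
      Bad (winRel (win4_le o.val (by have := o.isLt; omega)) Q g)).card) ≤ 3 * (Bf 3 Q g).card :=
  card_bad4_leS hg (fun o => by have := o.isLt; omega)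

/-- the term of the position `i` -/
private noncomputable def LS_T {N : ℕ} (Q : Rel (N + 1)) (lab : Fin (N + 1) → ℕ) (s : ℝ)
    (i : Fin N) : ℝ :=
  ∑ g ∈ LE Q, (loc Q lab s i g - s / 3) * Real.exp (s * Xf lab g / 2)

private theorem LS_swap {N : ℕ} (Q : Rel (N + 1)) (lab : Fin (N + 1) → ℕ) (s : ℝ) :
    ∑ g ∈ LE Q, (∑ i : Fin N, loc Q lab s i g - s * N / 3) * Real.exp (s * Xf lab g / 2) =
      ∑ i : Fin N, LS_T Q lab s i := by
  unfold LS_T
  rw [Finset.sum_comm]
  refine Finset.sum_congr rfl fun g _ => ?_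
  rw [← Finset.sum_mul, Finset.sum_sub_distrib, Finset.sum_const, Finset.card_univ,
    Fintype.card_fin, nsmul_eq_mul]
  congr 2
  ring

private theorem LS_border {N : ℕ} {Q : Rel (N + 1)} {lab : Fin (N + 1) → ℕ} (hn : Nat' Q lab)
    (s : ℝ) (hs : |s| ≤ 1) (i : Fin N) : |LS_T Q lab s i| ≤ 7 / 3 * |s| * MG Q lab s := by
  unfold LS_T MG
  rw [Finset.mul_sum]
  refine (Finset.abs_sum_le_sum_abs _ _).trans (Finset.sum_le_sum fun g _ => ?_)
  rw [abs_mul, abs_of_pos (Real.exp_pos _)]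
  refine mul_le_mul_of_nonneg_right ?_ (Real.exp_pos _).le
  have h1 := abs_loc_le hn s hs i g
  have h2 : |loc Q lab s i g - s / 3| ≤ |loc Q lab s i g| + |s / 3| := abs_sub _ _
  rw [abs_div, abs_of_pos (by norm_num : (0 : ℝ) < 3)] at h2
  linarith

open Classical in
private theorem LS_bad {N : ℕ} (Q : Rel (N + 1)) (w : Equiv.Perm (Fin (N + 1)) → ℝ)
    (hw : ∀ g, 0 ≤ w g) :
    ∑ o : Fin (N - 2), ∑ g ∈ (LE Q).filter (fun g =>
      Bad (winRel (win4_le o.val (by have := o.isLt; omega)) Q g)), w g ≤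
      ∑ g ∈ LE Q, 3 * ((Bf 3 Q g).card : ℝ) * w g := by
  have h1 : ∀ o : Fin (N - 2), ∑ g ∈ (LE Q).filter (fun g =>
      Bad (winRel (win4_le o.val (by have := o.isLt; omega)) Q g)), w g =
      ∑ g ∈ LE Q, if Bad (winRel (win4_le o.val (by have := o.isLt; omega)) Q g) then w g
        else 0 := fun o => Finset.sum_filter _ _
  rw [Finset.sum_congr rfl fun o _ => h1 o, Finset.sum_comm]
  refine Finset.sum_le_sum fun g hg => ?_
  rw [← Finset.sum_filter, Finset.sum_const, nsmul_eq_mul]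
  refine mul_le_mul_of_nonneg_right ?_ (hw g)
  exact_mod_cast card_bad4_le hg

/-- SUM. The two border positions contribute at most `2 (2 |s| + |s|/3)`. -/
theorem loc_sum {N : ℕ} {Q : Rel (N + 1)} {lab : Fin (N + 1) → ℕ} (hn : Nat' Q lab) (s : ℝ)
    (hs : |s| ≤ 1) :
    |∑ g ∈ LE Q, (∑ i : Fin N, loc Q lab s i g - s * N / 3) * Real.exp (s * Xf lab g / 2)| ≤
      (300 * s ^ 2 * N + 5 * |s|) * MG Q lab s +
        12 * |s| * ∑ g ∈ LE Q, ((Bf 3 Q g).card : ℝ) * Real.exp (s * Xf lab g / 2) := by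
  classical
  rw [LS_swap]
  have hM := MG_pos hn s
  have hS : 0 ≤ 12 * |s| * ∑ g ∈ LE Q, ((Bf 3 Q g).card : ℝ) * Real.exp (s * Xf lab g / 2) :=
    mul_nonneg (by positivity) (Finset.sum_nonneg fun g _ => by positivity)
  have hsM : 0 ≤ |s| * MG Q lab s := by positivity
  match N, Q, lab, hn, hM, hS, hsM with
  | 0, Q, lab, hn, hM, hS, hsM =>
    rw [Finset.univ_eq_empty, Finset.sum_empty, abs_zero]
    have h1 : 0 ≤ s ^ 2 * MG Q lab s := by positivity
    push_cast
    linarith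
  | 1, Q, lab, hn, hM, hS, hsM =>
    rw [Fin.sum_univ_one]
    have h1 := LS_border hn s hs 0
    have h2 : 0 ≤ s ^ 2 * MG Q lab s := by positivity
    push_cast
    linarith
  | M + 2, Q, lab, hn, hM, hS, hsM =>
    rw [Fin.sum_univ_succ, Fin.sum_univ_castSucc]
    have h0 := LS_border hn s hs 0
    have hl := LS_border hn s hs (Fin.last M).succ
    have hmid : ∀ o : Fin M, |LS_T Q lab s o.castSucc.succ| ≤
        300 * s ^ 2 * MG Q lab s + 4 * |s| * ∑ g ∈ (LE Q).filter (fun g =>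
          Bad (winRel (win4_le o.val (by have := o.isLt; omega)) Q g)),
            Real.exp (s * Xf lab g / 2) := by
      intro o
      exact loc_avg hn s hs o.val (by have := o.isLt; omega)
    have h3 : |∑ o : Fin M, LS_T Q lab s o.castSucc.succ| ≤
        M * (300 * s ^ 2 * MG Q lab s) +
          4 * |s| * ∑ g ∈ LE Q, 3 * ((Bf 3 Q g).card : ℝ) * Real.exp (s * Xf lab g / 2) := by
      refine (Finset.abs_sum_le_sum_abs _ _).trans ?_
      refine (Finset.sum_le_sum fun o _ => hmid o).trans ?_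
      rw [Finset.sum_add_distrib, Finset.sum_const, Finset.card_univ, Fintype.card_fin,
        nsmul_eq_mul, ← Finset.mul_sum]
      have h4 := LS_bad Q (fun g => Real.exp (s * Xf lab g / 2)) fun g => (Real.exp_pos _).le
      have h5 := mul_le_mul_of_nonneg_left h4 (show 0 ≤ 4 * |s| by positivity)
      exact add_le_add le_rfl h5
    have h6 : ∑ g ∈ LE Q, 3 * ((Bf 3 Q g).card : ℝ) * Real.exp (s * Xf lab g / 2) =
        3 * ∑ g ∈ LE Q, ((Bf 3 Q g).card : ℝ) * Real.exp (s * Xf lab g / 2) := by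
      rw [Finset.mul_sum]
      exact Finset.sum_congr rfl fun g _ => by ring
    rw [h6] at h3
    have h7 : 0 ≤ s ^ 2 * MG Q lab s := by positivity
    have h8 := abs_add_le (LS_T Q lab s 0)
      (∑ o : Fin M, LS_T Q lab s o.castSucc.succ + LS_T Q lab s (Fin.last M).succ)
    have h9 := abs_add_le (∑ o : Fin M, LS_T Q lab s o.castSucc.succ)
      (LS_T Q lab s (Fin.last M).succ)
    push_cast
    nlinarith

end Pool.NL25
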