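import Mathlib

set_option autoImplicit false

/-!
# NL25/LoopS: closing the loop (helper80), pure real analysis
-/

namespace Pool.NL25

/-- CLOSING THE LOOP (real numbers), `a = mA - G`, `y = mX - G`. -/
theorem loopS (ε : ℝ) (hε : 0 < ε) : ∃ ε1 : ℝ, 0 < ε1 ∧ ∀ v0 : ℝ, 0 < v0 → ∃ s0 : ℝ, 0 < s0 ∧
    ∃ N0 : ℝ, ∀ N s a y : ℝ, N0 ≤ N → |s| ≤ s0 → |y| ≤ 2 * N →
    |y - a - s * N / 6| ≤ 1 / 100 * |s| * N →
    (∀ v : ℝ, 0 < v → v ≤ v0 → v * |a| ≤ ε1 * v ^ 2 * N + 1 + s * y / 2) →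
    |a| ≤ ε * (|s| * N + Real.sqrt N) := by
  obtain ⟨ε1, hε1, h1, h8⟩ : ∃ ε1 : ℝ, 0 < ε1 ∧ ε1 ≤ 1 ∧ 8 * ε1 ≤ ε ^ 2 :=
    ⟨min 1 (ε ^ 2 / 8), by positivity, min_le_left _ _, by
      have := min_le_right 1 (ε ^ 2 / 8)
      linarith⟩
  refine ⟨ε1, hε1, fun v0 hv0 => ⟨ε1 * v0 ^ 2 / 2, by positivity, 2 / (ε1 * v0 ^ 2), ?_⟩⟩
  intro N s a y hN hs hy h2 h3
  have hNpos : 0 < N := lt_of_lt_of_le (by positivity) hN
  have hN2 : 2 ≤ ε1 * v0 ^ 2 * N := by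
    rw [div_le_iff₀ (by positivity)] at hN
    linarith
  have hsa : 0 ≤ |s| := abs_nonneg s
  have hya : 0 ≤ |y| := abs_nonneg y
  have haa : 0 ≤ |a| := abs_nonneg a
  obtain ⟨P, hPdef⟩ : ∃ P : ℝ, P = 1 + |s| * |y| / 2 := ⟨_, rfl⟩
  have hP : 0 < P := by rw [hPdef]; positivity
  have hPle : P ≤ ε1 * v0 ^ 2 * N := by
    have h4 : |s| * |y| ≤ ε1 * v0 ^ 2 / 2 * (2 * N) := by gcongr
    rw [hPdef]
    linarith
  have heN : 0 < ε1 * N := by positivity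
  have hv : 0 < Real.sqrt (P / (ε1 * N)) := Real.sqrt_pos.2 (by positivity)
  have hv2 : Real.sqrt (P / (ε1 * N)) ^ 2 = P / (ε1 * N) := Real.sq_sqrt (by positivity)
  have hvle : Real.sqrt (P / (ε1 * N)) ≤ v0 := by
    rw [Real.sqrt_le_left hv0.le, div_le_iff₀ heN]
    linarith
  have h4 := h3 _ hv hvle
  set v := Real.sqrt (P / (ε1 * N)) with hvdef
  have hvN : ε1 * v ^ 2 * N = P := by
    rw [hv2]; field_simp
  have hsy : s * y ≤ |s| * |y| := by rw [← abs_mul]; exact le_abs_self _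
  have h5 : v * |a| ≤ 2 * P := by rw [hvN] at h4; rw [hPdef] at h4 ⊢; linarith
  have h6 : (v * |a|) ^ 2 ≤ (2 * P) ^ 2 := by gcongr
  have h7 : P * |a| ^ 2 ≤ P * (4 * P * (ε1 * N)) := by
    have h9 : P * |a| ^ 2 = (v * |a|) ^ 2 * (ε1 * N) := by
      rw [mul_pow, ← hvN]; ring
    rw [h9]
    calc (v * |a|) ^ 2 * (ε1 * N) ≤ (2 * P) ^ 2 * (ε1 * N) := by gcongr
      _ = P * (4 * P * (ε1 * N)) := by ring
  have h9 : |a| ^ 2 ≤ 4 * P * (ε1 * N) := le_of_mul_le_mul_left h7 hP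
  have h10 : |y| ≤ |a| + |s| * N / 5 := by
    have h11 : |y| ≤ |y - a - s * N / 6| + |a| + |s * N / 6| := by
      have : y = (y - a - s * N / 6) + a + s * N / 6 := by ring
      calc |y| = |(y - a - s * N / 6) + a + s * N / 6| := by rw [← this]
        _ ≤ _ := abs_add_three _ _ _
    have h12 : |s * N / 6| = |s| * N / 6 := by
      rw [abs_div, abs_mul, abs_of_pos hNpos]; norm_num
    have h13 : 0 ≤ |s| * N := by positivity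
    rw [h12] at h11
    nlinarith
  have h13 : |a| ^ 2 ≤ 4 * (ε1 * N) + 2 * (ε1 * N) * |s| * |a| + 2 / 5 * (ε1 * N) * |s| ^ 2 * N := by
    calc |a| ^ 2 ≤ 4 * P * (ε1 * N) := h9
      _ = 4 * (ε1 * N) + 2 * (ε1 * N) * |s| * |y| := by rw [hPdef]; ring
      _ ≤ 4 * (ε1 * N) + 2 * (ε1 * N) * |s| * (|a| + |s| * N / 5) := by gcongr
      _ = _ := by ring
  have h14 : 2 * (ε1 * N) * |s| * |a| ≤ |a| ^ 2 / 2 + 2 * (ε1 * N * |s|) ^ 2 := by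
    nlinarith [sq_nonneg (|a| - 2 * (ε1 * N * |s|))]
  have h15 : |a| ^ 2 ≤ ε ^ 2 * (N + (|s| * N) ^ 2) := by
    have h16 : |a| ^ 2 ≤ 8 * ε1 * N + (4 * ε1 ^ 2 + 4 / 5 * ε1) * (|s| * N) ^ 2 := by
      linarith [h13, h14]
    have h17 : 8 * ε1 * N ≤ ε ^ 2 * N := by gcongr
    have h18 : (4 * ε1 ^ 2 + 4 / 5 * ε1) * (|s| * N) ^ 2 ≤ ε ^ 2 * (|s| * N) ^ 2 := by
      gcongr
      nlinarith
    linarith
  have hsq : Real.sqrt N ^ 2 = N := Real.sq_sqrt hNpos.le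
  have hsn : 0 ≤ Real.sqrt N := Real.sqrt_nonneg N
  have h19 : |a| ^ 2 ≤ (ε * (|s| * N + Real.sqrt N)) ^ 2 := by
    refine h15.trans ?_
    have h20 : 0 ≤ |s| * N * Real.sqrt N := by positivity
    have h21 : (ε * (|s| * N + Real.sqrt N)) ^ 2 =
        ε ^ 2 * (N + (|s| * N) ^ 2) + 2 * ε ^ 2 * (|s| * N * Real.sqrt N) := by
      rw [mul_pow, add_sq, hsq]; ring
    rw [h21]
    have : 0 ≤ 2 * ε ^ 2 * (|s| * N * Real.sqrt N) := by positivity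
    linarith
  exact le_of_sq_le_sq h19 (by positivity)

end Pool.NL25
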