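import Pool.Agent.NL25.Defs

set_option autoImplicit false

/-!
# NL25/BadZ98: many bad windows, no tilt
-/

namespace Pool.NL25

open Pool.HB45 Pool.HM63 Pool.PH43 Pool.SC25 Pool.SC45

theorem ps_le_one98 {σ : ℝ} (hσ : 0 < σ) : ps σ ≤ 1 := by
  unfold ps
  rw [div_le_one hσ]
  linarith [Real.add_one_le_exp (-σ)]

theorem ps_nonneg98 {σ : ℝ} (hσ : 0 < σ) : 0 ≤ ps σ := by
  unfold ps
  apply div_nonneg _ hσ.le
  have : Real.exp (-σ) ≤ 1 := by
    rw [Real.exp_le_one_iff]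
    linarith
  linarith

open Classical in
theorem bad_zero98 : ∃ c : ℝ, 0 < c ∧ ∃ N0 : ℕ, ∀ N ≥ N0, ∀ (h m b : ℕ) (hm : m * (3 + 2) ≤ N + 1)
    (Q : Rel (N + 1)) (κ lab : Fin (N + 1) → ℕ), 1 ≤ h → (h : ℝ) ≤ c * N → Lev h Q κ → Nat' Q lab →
    (N : ℝ) / 10 ≤ b → (((LE Q).filter fun g => b ≤ nbad hm Q g).card : ℝ) ≤
      Real.exp (-(N / 200)) * (LE Q).card := by
  refine ⟨1 / 100000, by norm_num, 30000, ?_⟩
  intro N hN h m b hm Q κ lab hh hc hκ hn hb
  have hNR : (30000 : ℝ) ≤ N := by exact_mod_cast hN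
  have h1 := star hh hκ hn hm b (1 / 1000) (by norm_num)
  have hps : ps (1 / 1000) ^ (N + 1) ≤ 1 :=
    pow_le_one₀ (ps_nonneg98 (by norm_num)) (ps_le_one98 (by norm_num))
  have h2 : (((LE Q).filter fun g => b ≤ nbad hm Q g).card : ℝ) * Real.exp (-(N / 1000)) ≤
      ∑ g ∈ (LE Q).filter (fun g => b ≤ nbad hm Q g), Real.exp (-(1 / 1000)) ^ des lab g := by
    rw [← nsmul_eq_mul]
    apply Finset.card_nsmul_le_sum
    intro g _
    have h3 : des lab g ≤ N := by
      unfold des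
      exact (Finset.card_le_univ _).trans (by rw [Fintype.card_fin])
    rw [← Real.exp_nat_mul]
    apply Real.exp_le_exp.2
    have h4 : (des lab g : ℝ) ≤ N := by exact_mod_cast h3
    linarith
  have hC : (0 : ℝ) ≤ (LE Q).card := Nat.cast_nonneg _
  have h5 : ((LE Q).card : ℝ) * ps (1 / 1000) ^ (N + 1) *
      Real.exp ((150 + 3 * (1 / 1000)) * (h + 1) + 1 + (N + 1) / 900 - 7 / 50 * b) ≤
      (LE Q).card * Real.exp (-(N / 1000) - N / 200) := by
    apply mul_le_mul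
    · exact mul_le_of_le_one_right hC hps
    · apply Real.exp_le_exp.2
      linarith
    · exact (Real.exp_pos _).le
    · exact hC
  have h6 := (h2.trans h1).trans h5
  rw [sub_eq_add_neg, Real.exp_add] at h6
  have h7 : (((LE Q).filter fun g => b ≤ nbad hm Q g).card : ℝ) * Real.exp (-(N / 1000)) ≤
      Real.exp (-(N / 200)) * (LE Q).card * Real.exp (-(N / 1000)) := by
    linarith
  exact le_of_mul_le_mul_right h7 (Real.exp_pos _)

end Pool.NL25
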