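import Pool.Agent.NL25.Stein

set_option autoImplicit false

/-!
# NL25/RareZ: many close comparable letters are rare (helper8)
-/

namespace Pool.NL25

open Pool.HB45 Pool.HM63 Pool.PH43 Pool.SC25 Pool.SC45

theorem rz_four : (4 : ℝ) ≤ Real.exp 2 := by
  have h1 : (2 : ℝ) ≤ Real.exp 1 := by
    have := Real.add_one_le_exp (1 : ℝ)
    linarith
  have h2 : Real.exp 2 = Real.exp 1 * Real.exp 1 := by
    rw [← Real.exp_add]
    norm_num
  rw [h2]
  nlinarith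

open Classical in
theorem rare_zero8 (f : ℕ) (ε : ℝ) (hε : 0 < ε) : ∃ c : ℝ, 0 < c ∧ ∃ N0 : ℕ, ∀ N ≥ N0, ∀ (h : ℕ)
    (Q : Rel (N + 1)) (κ lab : Fin (N + 1) → ℕ), 1 ≤ h → (h : ℝ) ≤ c * N → Lev h Q κ → Nat' Q lab →
    Tr Q → (((LE Q).filter fun g => ε * N ≤ ((Bf f Q g).card : ℝ)).card : ℝ) ≤
      Real.exp (-N) * (LE Q).card := by
  set δ : ℝ := min ε (1 / 4) with hδ
  have hδ0 : 0 < δ := lt_min hε (by norm_num)
  have hδε : δ ≤ ε := min_le_left _ _
  have hδ4 : δ ≤ 1 / 4 := min_le_right _ _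
  refine ⟨Real.exp (-(4 / δ)) / (2 * (f + 1)), by positivity, 4, ?_⟩
  intro N hN h Q κ lab hh hc hκ hn hQ
  have hN4 : (4 : ℝ) ≤ N := by exact_mod_cast hN
  set k : ℕ := ⌈δ * N⌉₊ with hk
  have hk1 : δ * N ≤ k := Nat.le_ceil _
  have hk2 : (k : ℝ) < δ * N + 1 := Nat.ceil_lt_add_one (by positivity)
  have hk3 : 2 * k ≤ N := by
    have h1 : δ * N ≤ 1 / 4 * N := mul_le_mul_of_nonneg_right hδ4 (Nat.cast_nonneg _)
    have h2 : (2 * k : ℝ) ≤ N := by linarith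
    exact_mod_cast h2
  have hsub : (((LE Q).filter fun g => ε * N ≤ ((Bf f Q g).card : ℝ)).card : ℝ) ≤
      (((LE Q).filter fun g => k ≤ (Bf f Q g).card).card : ℝ) := by
    have h1 : ((LE Q).filter fun g => ε * N ≤ ((Bf f Q g).card : ℝ)).card ≤
        ((LE Q).filter fun g => k ≤ (Bf f Q g).card).card := by
      refine Finset.card_le_card fun g hg => ?_
      rw [Finset.mem_filter] at hg ⊢
      refine ⟨hg.1, Nat.ceil_le.2 (le_trans ?_ hg.2)⟩
      exact mul_le_mul_of_nonneg_right hδε (Nat.cast_nonneg _)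
    exact_mod_cast h1
  refine hsub.trans ((ld_one (f := f) hh hk3 hκ hn hQ).trans ?_)
  refine mul_le_mul_of_nonneg_right ?_ (Nat.cast_nonneg _)
  have hq0 : (0 : ℝ) ≤ 2 * f * h / ((N : ℝ) + 1) := by positivity
  have hq : 2 * f * h / ((N : ℝ) + 1) ≤ Real.exp (-(4 / δ)) := by
    rw [div_le_iff₀ (by positivity)]
    have h1 : (2 * f * h : ℝ) ≤ 2 * (f + 1) * h := by
      have : (0 : ℝ) ≤ h := Nat.cast_nonneg _
      nlinarith
    have h2 : (2 * (f + 1) * h : ℝ) ≤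
        2 * (f + 1) * (Real.exp (-(4 / δ)) / (2 * (f + 1)) * N) :=
      mul_le_mul_of_nonneg_left hc (by positivity)
    have h3 : (2 * (f + 1) * (Real.exp (-(4 / δ)) / (2 * (f + 1)) * N) : ℝ) =
        Real.exp (-(4 / δ)) * N := by
      field_simp
    have h4 : Real.exp (-(4 / δ)) * (N : ℝ) ≤ Real.exp (-(4 / δ)) * ((N : ℝ) + 1) :=
      mul_le_mul_of_nonneg_left (by linarith) (Real.exp_pos _).le
    linarith
  have hpow : (2 * f * h / ((N : ℝ) + 1)) ^ k ≤ Real.exp (-(4 * N)) := by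
    refine (pow_le_pow_left₀ hq0 hq k).trans ?_
    rw [← Real.exp_nat_mul, Real.exp_le_exp]
    have h1 : (4 : ℝ) * N ≤ k * (4 / δ) := by
      rw [mul_div_assoc', le_div_iff₀ hδ0]
      nlinarith
    linarith
  have h4 : (4 : ℝ) ^ (N + 1) ≤ Real.exp (2 * (N + 1)) := by
    refine (pow_le_pow_left₀ (by norm_num) rz_four (N + 1)).trans (le_of_eq ?_)
    rw [← Real.exp_nat_mul]
    congr 1
    push_cast
    ring
  calc (4 : ℝ) ^ (N + 1) * (2 * f * h / ((N : ℝ) + 1)) ^ k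
      ≤ Real.exp (2 * (N + 1)) * Real.exp (-(4 * N)) :=
        mul_le_mul h4 hpow (pow_nonneg hq0 _) (Real.exp_pos _).le
    _ = Real.exp (2 * (N + 1) + -(4 * N)) := (Real.exp_add _ _).symm
    _ ≤ Real.exp (-N) := by
        rw [Real.exp_le_exp]
        linarith

end Pool.NL25
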