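import Pool.Agent.NL25.Stein
import Pool.Agent.NL25.BadZ98
import Pool.Agent.NL25.RareZ

set_option autoImplicit false

/-!
# NL25/Rare: close comparable letters are rare for small tilts of both signs (STUB)
-/

namespace Pool.NL25

open Pool.HB45 Pool.HM63 Pool.PH43 Pool.SC25 Pool.SC45

open Classical in
/-- for every `ε` : `P_0(#Bf f ≥ ε N) ≤ e^(-N)`. PROOF. `ld_one` with `k = ⌈ε N⌉` (`ε ≤ 1/4`):
`4^(N+1) (2 f h/(N+1))^k ≤ e^(-N)` as soon as `(2 f c)^ε ≤ e^(-4)`, roughly. -/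
theorem rare_zero (f : ℕ) (ε : ℝ) (hε : 0 < ε) : ∃ c : ℝ, 0 < c ∧ ∃ N0 : ℕ, ∀ N ≥ N0, ∀ (h : ℕ)
    (Q : Rel (N + 1)) (κ lab : Fin (N + 1) → ℕ), 1 ≤ h → (h : ℝ) ≤ c * N → Lev h Q κ → Nat' Q lab →
    Tr Q → (((LE Q).filter fun g => ε * N ≤ ((Bf f Q g).card : ℝ)).card : ℝ) ≤
      Real.exp (-N) * (LE Q).card := by
  exact rare_zero8 f ε hε

/-- PROOF. `rare_zero` with `ε/2`; on the exceptional set `#Bf ≤ N + 1`, `e^(sX/2) ≤ e^(N/4)`, and `MG ≥ e^(-N/4) #LE`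
(`|s| ≤ 1/2`, `|X| ≤ N`). -/
theorem rare_tilt (f : ℕ) (ε : ℝ) (hε : 0 < ε) : ∃ c : ℝ, 0 < c ∧ ∃ N0 : ℕ, ∀ N ≥ N0, ∀ (h : ℕ)
    (Q : Rel (N + 1)) (κ lab : Fin (N + 1) → ℕ), 1 ≤ h → (h : ℝ) ≤ c * N → Lev h Q κ → Nat' Q lab →
    Tr Q → ∀ s : ℝ, |s| ≤ 1 / 2 →
      ∑ g ∈ LE Q, ((Bf f Q g).card : ℝ) * Real.exp (s * Xf lab g / 2) ≤ ε * N * MG Q lab s := by
  classical
  obtain ⟨c, hc, N0, hN0⟩ := rare_zero f (ε / 2) (by positivity)
  refine ⟨c, hc, max N0 (⌈8 / ε⌉₊ + 1), fun N hN h Q κ lab hh hhc hκ hn hQ s hs => ?_⟩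
  have hNN0 : N0 ≤ N := (le_max_left _ _).trans hN
  have hN1 : ⌈8 / ε⌉₊ + 1 ≤ N := (le_max_right _ _).trans hN
  have hN2 : 8 / ε ≤ N := (Nat.le_ceil _).trans (by exact_mod_cast (by omega : ⌈8 / ε⌉₊ ≤ N))
  have hNpos : (1 : ℝ) ≤ N := by exact_mod_cast (by omega : 1 ≤ N)
  have h0 := hN0 N hNN0 h Q κ lab hh hhc hκ hn hQ
  have hX : ∀ g, |s * Xf lab g / 2| ≤ N / 4 := by
    intro g
    rw [abs_div, abs_mul, abs_of_pos (by norm_num : (0 : ℝ) < 2)]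
    have h1 := abs_Xf_le lab g
    have h2 : |s| * |Xf lab g| ≤ 1 / 2 * N := mul_le_mul hs h1 (abs_nonneg _) (by norm_num)
    linarith
  have hMG : Real.exp (-(N / 4 : ℝ)) * (LE Q).card ≤ MG Q lab s := by
    unfold MG
    rw [mul_comm, ← nsmul_eq_mul, ← Finset.sum_const]
    refine Finset.sum_le_sum fun g _ => Real.exp_le_exp.2 ?_
    have := (abs_le.1 (hX g)).1
    linarith
  have hB : ∀ g : Equiv.Perm (Fin (N + 1)), ((Bf f Q g).card : ℝ) ≤ N + 1 := by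
    intro g
    have := Finset.card_le_univ (Bf f Q g)
    rw [Fintype.card_fin] at this
    exact_mod_cast this
  rw [← Finset.sum_filter_add_sum_filter_not (LE Q)
    (fun g => ε / 2 * N ≤ ((Bf f Q g).card : ℝ))]
  have h1 : ∑ g ∈ (LE Q).filter (fun g => ε / 2 * N ≤ ((Bf f Q g).card : ℝ)),
      ((Bf f Q g).card : ℝ) * Real.exp (s * Xf lab g / 2) ≤
      (N + 1) * Real.exp (N / 4) * (Real.exp (-N) * (LE Q).card) := by
    calc ∑ g ∈ (LE Q).filter (fun g => ε / 2 * N ≤ ((Bf f Q g).card : ℝ)),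
        ((Bf f Q g).card : ℝ) * Real.exp (s * Xf lab g / 2)
        ≤ ∑ _g ∈ (LE Q).filter (fun g => ε / 2 * N ≤ ((Bf f Q g).card : ℝ)),
          (N + 1) * Real.exp (N / 4) := by
          refine Finset.sum_le_sum fun g _ => ?_
          refine mul_le_mul (hB g) (Real.exp_le_exp.2 (abs_le.1 (hX g)).2) (Real.exp_pos _).le
            (by positivity)
      _ = (N + 1) * Real.exp (N / 4) *
          (((LE Q).filter (fun g => ε / 2 * N ≤ ((Bf f Q g).card : ℝ))).card : ℝ) := by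
          rw [Finset.sum_const, nsmul_eq_mul]; ring
      _ ≤ _ := mul_le_mul_of_nonneg_left h0 (by positivity)
  have h2 : ∑ g ∈ (LE Q).filter (fun g => ¬ ε / 2 * N ≤ ((Bf f Q g).card : ℝ)),
      ((Bf f Q g).card : ℝ) * Real.exp (s * Xf lab g / 2) ≤ ε / 2 * N * MG Q lab s := by
    calc ∑ g ∈ (LE Q).filter (fun g => ¬ ε / 2 * N ≤ ((Bf f Q g).card : ℝ)),
        ((Bf f Q g).card : ℝ) * Real.exp (s * Xf lab g / 2)
        ≤ ∑ g ∈ (LE Q).filter (fun g => ¬ ε / 2 * N ≤ ((Bf f Q g).card : ℝ)),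
          ε / 2 * N * Real.exp (s * Xf lab g / 2) := by
          refine Finset.sum_le_sum fun g hg => ?_
          have h3 := (Finset.mem_filter.1 hg).2
          push Not at h3
          exact mul_le_mul_of_nonneg_right h3.le (Real.exp_pos _).le
      _ ≤ ∑ g ∈ LE Q, ε / 2 * N * Real.exp (s * Xf lab g / 2) :=
          Finset.sum_le_sum_of_subset_of_nonneg (Finset.filter_subset _ _)
            fun _ _ _ => by positivity
      _ = ε / 2 * N * MG Q lab s := by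
          unfold MG
          rw [Finset.mul_sum]
  have h3 : (N + 1) * Real.exp (N / 4) * (Real.exp (-N) * (LE Q).card) ≤
      ε / 2 * N * MG Q lab s := by
    have h4 : ((N : ℝ) + 1) * Real.exp (-(N / 2 : ℝ)) ≤ ε / 2 * N := by
      have h5 : (N : ℝ) / 2 + 1 ≤ Real.exp (N / 2) := Real.add_one_le_exp _
      have h6 : Real.exp (-(N / 2 : ℝ)) * Real.exp (N / 2) = 1 := by
        rw [← Real.exp_add]
        simp
      have h7 : 0 < Real.exp (-(N / 2 : ℝ)) := Real.exp_pos _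
      have h8 : Real.exp (-(N / 2 : ℝ)) * N ≤ 2 := by nlinarith
      have h9 : 8 ≤ ε * N := by
        rw [div_le_iff₀ hε] at hN2
        linarith
      have h10 : Real.exp (-(N / 2 : ℝ)) ≤ 1 := by
        rw [Real.exp_le_one_iff]
        linarith
      nlinarith
    have h5 : Real.exp (N / 4) * (Real.exp (-N) * (LE Q).card) =
        Real.exp (-(N / 2 : ℝ)) * (Real.exp (-(N / 4 : ℝ)) * (LE Q).card) := by
      rw [← mul_assoc, ← mul_assoc, ← Real.exp_add, ← Real.exp_add]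
      congr 2
      ring
    calc (N + 1) * Real.exp (N / 4) * (Real.exp (-N) * (LE Q).card)
        = (N + 1) * Real.exp (-(N / 2 : ℝ)) * (Real.exp (-(N / 4 : ℝ)) * (LE Q).card) := by
          rw [mul_assoc, h5]; ring
      _ ≤ ε / 2 * N * MG Q lab s := mul_le_mul h4 hMG (by positivity) (by positivity)
  calc _ ≤ ε / 2 * N * MG Q lab s + ε / 2 * N * MG Q lab s := add_le_add (h1.trans h3) h2
    _ = _ := by ring

open Classical in
/-- many bad windows, no tilt. PROOF. `SC25.star` with `σ = 1/1000` and `b`: `#bad ≤ e^(N/1000) ∑_bad e^(-σ des)`, `ps ≤ 1`,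
exponent `N/1000 + (150 + 3/1000)(h + 1) + 1 + (N+1)/900 - (7/50) b ≤ -N/200` for `b ≥ N/10`, `h ≤ c N`. -/
theorem bad_zero : ∃ c : ℝ, 0 < c ∧ ∃ N0 : ℕ, ∀ N ≥ N0, ∀ (h m b : ℕ) (hm : m * (3 + 2) ≤ N + 1)
    (Q : Rel (N + 1)) (κ lab : Fin (N + 1) → ℕ), 1 ≤ h → (h : ℝ) ≤ c * N → Lev h Q κ → Nat' Q lab →
    (N : ℝ) / 10 ≤ b → (((LE Q).filter fun g => b ≤ nbad hm Q g).card : ℝ) ≤
      Real.exp (-(N / 200)) * (LE Q).card :=
  bad_zero98

end Pool.NL25
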