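import Pool.Agent.NL25.Loc
import Pool.Agent.NL25.Rare
import Pool.Agent.NL25.Ent

set_option autoImplicit false

/-!
# NL25/MXmAS: mean of `X` against mean of `adj` in the tilt
-/

namespace Pool.NL25

open Pool.HB45 Pool.HM63 Pool.PH43 Pool.SC25 Pool.SC45

/-- PROOF. `stein`, `loc_sum`, `rare_tilt` (`f = 3`). -/
theorem mX_mA (ε : ℝ) (hε : 0 < ε) : ∃ c : ℝ, 0 < c ∧ ∃ s0 : ℝ, 0 < s0 ∧ ∃ N0 : ℕ, ∀ N ≥ N0, ∀ (h : ℕ)
    (Q : Rel (N + 1)) (κ lab : Fin (N + 1) → ℕ), 1 ≤ h → (h : ℝ) ≤ c * N → Lev h Q κ → Nat' Q lab →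
    Tr Q → ∀ s : ℝ, |s| ≤ s0 → |mX Q lab s - mA Q lab s - s * N / 6| ≤ ε * |s| * N := by
  obtain ⟨c, hc, N1, H⟩ := rare_tilt 3 (ε / 18) (by positivity)
  refine ⟨c, hc, min (1 / 2) (ε / 450), by positivity, max N1 ⌈8 / ε⌉₊, ?_⟩
  intro N hN h Q κ lab h1 hh hκ hn hTr s hs
  have hs1 : |s| ≤ 1 / 2 := hs.trans (min_le_left _ _)
  have hs2 : |s| ≤ ε / 450 := hs.trans (min_le_right _ _)
  have hN1 : N1 ≤ N := (le_max_left _ _).trans hN
  have hN2 : 8 / ε ≤ (N : ℝ) :=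
    (Nat.le_ceil _).trans (by exact_mod_cast (le_max_right _ _).trans hN)
  have hN3 : 8 ≤ ε * N := by
    rw [div_le_iff₀ hε] at hN2
    linarith
  have hM := MG_pos hn s
  have hB := H N hN1 h Q κ lab h1 hh hκ hn hTr s hs1
  have hL := loc_sum hn s (hs1.trans (by norm_num))
  have hst := stein hn s
  set A := ∑ g ∈ LE Q, (adj Q g : ℝ) * Real.exp (s * Xf lab g / 2) with hA
  set B := ∑ g ∈ LE Q, ((Bf 3 Q g).card : ℝ) * Real.exp (s * Xf lab g / 2) with hBdef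
  set C := ∑ g ∈ LE Q, (∑ i : Fin N, loc Q lab s i g) * Real.exp (s * Xf lab g / 2) with hC
  have hsplit : ∑ g ∈ LE Q, (∑ i : Fin N, loc Q lab s i g - s * N / 3) *
      Real.exp (s * Xf lab g / 2) = C - s * N / 3 * MG Q lab s := by
    rw [hC, MG, Finset.mul_sum, ← Finset.sum_sub_distrib]
    exact Finset.sum_congr rfl fun g _ => by ring
  rw [hsplit] at hL
  have hmain : mX Q lab s - mA Q lab s - s * N / 6 =
      1 / 2 * (C - s * N / 3 * MG Q lab s) / MG Q lab s := by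
    rw [mX, mA, hst, ← hA]
    field_simp
    ring
  have habs0 := abs_nonneg s
  have hN0 : (0 : ℝ) ≤ N := Nat.cast_nonneg _
  rw [hmain, abs_div, abs_of_pos hM, div_le_iff₀ hM, abs_mul,
    abs_of_pos (by norm_num : (0 : ℝ) < 1 / 2)]
  have e1 : s ^ 2 * N ≤ ε / 450 * (|s| * N) := by
    have : s ^ 2 = |s| * |s| := by rw [← sq, sq_abs]
    rw [this]
    nlinarith [mul_nonneg habs0 hN0]
  have e2 : 12 * |s| * B ≤ 12 * |s| * (ε / 18 * N * MG Q lab s) :=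
    mul_le_mul_of_nonneg_left hB (by positivity)
  have e3 : 300 * s ^ 2 * N + 5 * |s| ≤ 4 / 3 * ε * (|s| * N) := by
    nlinarith [mul_nonneg habs0 hN0, mul_le_mul_of_nonneg_left hN3 habs0]
  calc 1 / 2 * |C - s * N / 3 * MG Q lab s|
      ≤ 1 / 2 * ((300 * s ^ 2 * N + 5 * |s|) * MG Q lab s +
          12 * |s| * (ε / 18 * N * MG Q lab s)) := by linarith
    _ ≤ 1 / 2 * (4 / 3 * ε * (|s| * N) * MG Q lab s +
          12 * |s| * (ε / 18 * N * MG Q lab s)) := by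
        have := mul_le_mul_of_nonneg_right e3 hM.le
        linarith
    _ = ε * |s| * N * MG Q lab s := by ring

end Pool.NL25
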