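import Pool.Agent.NL25.LoopA
import Pool.Agent.NL25.MXmAS

set_option autoImplicit false

/-!
# NL25/MeanS: the mean of `X` in the tilt
-/

namespace Pool.NL25

open Pool.HB45 Pool.HM63 Pool.PH43 Pool.SC25 Pool.SC45

theorem abs_mX_leS {N : ℕ} {Q : Rel (N + 1)} {lab : Fin (N + 1) → ℕ} (hn : Nat' Q lab) (s : ℝ) :
    |mX Q lab s| ≤ N := by
  unfold mX
  rw [abs_div, abs_of_pos (MG_pos hn s), div_le_iff₀ (MG_pos hn s)]
  unfold MG
  rw [Finset.mul_sum]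
  refine (Finset.abs_sum_le_sum_abs _ _).trans (Finset.sum_le_sum fun g _ => ?_)
  rw [abs_mul, abs_of_pos (Real.exp_pos _)]
  exact mul_le_mul_of_nonneg_right (abs_Xf_le lab g) (Real.exp_pos _).le

/-- `mean_est` of NL25/Real -/
theorem mean_estS (ε : ℝ) (hε : 0 < ε) : ∃ ε1 : ℝ, 0 < ε1 ∧ ∀ v0 : ℝ, 0 < v0 → ∃ c : ℝ, 0 < c ∧
    ∃ s0 : ℝ, 0 < s0 ∧ ∃ N0 : ℕ, ∀ N ≥ N0, ∀ (h : ℕ)
    (Q : Rel (N + 1)) (κ lab : Fin (N + 1) → ℕ), 1 ≤ h → (h : ℝ) ≤ c * N → Lev h Q κ → Nat' Q lab →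
    Tr Q → SubG Q ε1 v0 → ∀ s : ℝ, |s| ≤ s0 →
      |mX Q lab s - GG Q - s * N / 6| ≤ ε * (|s| * N + Real.sqrt N) := by
  obtain ⟨ε1, hε1, H1⟩ := loop' (ε / 2) (by linarith)
  refine ⟨ε1, hε1, fun v0 hv0 => ?_⟩
  obtain ⟨s1, hs1, N1, H2⟩ := H1 v0 hv0
  obtain ⟨c, hc, s2, hs2, N2, H3⟩ := mX_mA (min (ε / 2) (1 / 100))
    (lt_min (by linarith) (by norm_num))
  refine ⟨min c 1, lt_min hc one_pos, min s1 s2, lt_min hs1 hs2, max N2 ⌈N1⌉₊,
    fun N hN h Q κ lab h1 hh hκ hn hQ hG s hs => ?_⟩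
  have hN0 : (0 : ℝ) ≤ N := Nat.cast_nonneg _
  have hh1 : (h : ℝ) ≤ c * N := hh.trans (mul_le_mul_of_nonneg_right (min_le_left _ _) hN0)
  have hh2 : (h : ℝ) ≤ N := by
    have := hh.trans (mul_le_mul_of_nonneg_right (min_le_right _ _) hN0)
    linarith
  have hN2 : N2 ≤ N := (le_max_left _ _).trans hN
  have hN1 : N1 ≤ (N : ℝ) := by
    have h2 : ⌈N1⌉₊ ≤ N := (le_max_right _ _).trans hN
    exact (Nat.le_ceil N1).trans (by exact_mod_cast h2)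
  have hsN : 0 ≤ |s| * N := mul_nonneg (abs_nonneg s) hN0
  have g1 := H3 N hN2 h Q κ lab h1 hh1 hκ hn hQ s (hs.trans (min_le_right _ _))
  have g1a : |mX Q lab s - mA Q lab s - s * N / 6| ≤ ε / 2 * (|s| * N) := by
    refine g1.trans ?_
    rw [mul_assoc]
    exact mul_le_mul_of_nonneg_right (min_le_left _ _) hsN
  have g1b : |mX Q lab s - mA Q lab s - s * N / 6| ≤ 1 / 100 * |s| * N := by
    refine g1.trans ?_
    rw [mul_assoc, mul_assoc]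
    exact mul_le_mul_of_nonneg_right (min_le_right _ _) hsN
  have gy : |mX Q lab s - GG Q| ≤ 2 * N := by
    have k1 := abs_le.1 (abs_mX_leS hn s)
    have k2 := GG_nonneg Q
    have k3 := GG_le hκ hn
    rw [abs_le]
    constructor <;> linarith
  have g2 := H2 N s (mA Q lab s - GG Q) (mX Q lab s - GG Q) hN1 (hs.trans (min_le_left _ _)) gy
    (by
      have e : mX Q lab s - GG Q - (mA Q lab s - GG Q) - s * N / 6 =
          mX Q lab s - mA Q lab s - s * N / 6 := by ring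
      rw [e]
      exact g1b)
    (fun v hv hv0' => mA_close hn hG s v hv hv0')
  have hsq : 0 ≤ Real.sqrt N := Real.sqrt_nonneg _
  have e : mX Q lab s - GG Q - s * N / 6 =
      (mX Q lab s - mA Q lab s - s * N / 6) + (mA Q lab s - GG Q) := by ring
  rw [e]
  refine (abs_add_le _ _).trans ?_
  have h3 : 0 ≤ ε * Real.sqrt N := mul_nonneg hε.le hsq
  linarith

end Pool.NL25
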