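import Pool.Agent.NL25.HdLog

set_option autoImplicit false

/-!
# NL25/RealEst5: from the mean estimate to the real estimate (for NL25/Real)
-/

namespace Pool.NL25

open Pool.HB45 Pool.HM63 Pool.PH43 Pool.SC25 Pool.SC45

theorem MG_zero {N : ℕ} (Q : Rel (N + 1)) (lab : Fin (N + 1) → ℕ) :
    MG Q lab 0 = (LE Q).card := by
  unfold MG
  simp

/-- integrate the mean estimate -/
theorem re_of_mean {N : ℕ} {Q : Rel (N + 1)} {lab : Fin (N + 1) → ℕ} (hn : Nat' Q lab)
    {ε s0 : ℝ} (hε : 0 ≤ ε)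
    (hm : ∀ s : ℝ, |s| ≤ s0 → |mX Q lab s - GG Q - s * N / 6| ≤ ε * (|s| * N + Real.sqrt N)) :
    RE Q lab ε s0 := by
  intro s hs
  have hc := card_pos hn
  have hd : ∀ x : ℝ, HasDerivAt
      (fun s => Real.log (MG Q lab s / (LE Q).card) - (s * GG Q / 2 + s ^ 2 * N / 24))
      (mX Q lab x / 2 - (GG Q / 2 + 2 * x * N / 24)) x := by
    intro x
    refine (hasDerivAt_log' hn x).sub ?_
    refine HasDerivAt.add ?_ ?_
    · have h1 := ((hasDerivAt_id x).mul_const (GG Q)).div_const 2
      simpa only [id_eq, one_mul] using h1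
    · have h2 := ((hasDerivAt_pow 2 x).mul_const (N : ℝ)).div_const 24
      have h3 : ((2 : ℕ) : ℝ) * x ^ (2 - 1) * N / 24 = 2 * x * N / 24 := by norm_num
      rw [h3] at h2
      exact h2
  have hN : (0 : ℝ) ≤ N := Nat.cast_nonneg N
  have hmv := Convex.norm_image_sub_le_of_norm_hasDerivWithin_le
    (f := fun s => Real.log (MG Q lab s / (LE Q).card) - (s * GG Q / 2 + s ^ 2 * N / 24))
    (f' := fun x => mX Q lab x / 2 - (GG Q / 2 + 2 * x * N / 24))
    (s := Metric.closedBall (0 : ℝ) |s|) (x := 0) (y := s)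
    (C := ε * (|s| * N + Real.sqrt N) / 2)
    (fun x _ => (hd x).hasDerivWithinAt)
    (fun x hx => by
      rw [Metric.mem_closedBall, Real.dist_eq, sub_zero] at hx
      have h1 := hm x (hx.trans hs)
      have h2 : mX Q lab x / 2 - (GG Q / 2 + 2 * x * N / 24) =
          (mX Q lab x - GG Q - x * N / 6) / 2 := by ring
      rw [Real.norm_eq_abs, h2, abs_div, abs_of_pos (by norm_num : (0 : ℝ) < 2)]
      have h3 : ε * (|x| * N + Real.sqrt N) ≤ ε * (|s| * N + Real.sqrt N) := by
        refine mul_le_mul_of_nonneg_left ?_ hε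
        have := mul_le_mul_of_nonneg_right hx hN
        linarith
      linarith)
    (convex_closedBall _ _)
    (by rw [Metric.mem_closedBall, dist_self]; exact abs_nonneg s)
    (by rw [Metric.mem_closedBall, Real.dist_eq, sub_zero])
  simp only [MG_zero, div_self hc.ne', Real.log_one, zero_mul, zero_div, ne_eq,
    OfNat.ofNat_ne_zero, not_false_eq_true, zero_pow, add_zero, sub_zero,
    Real.norm_eq_abs] at hmv
  refine hmv.trans ?_
  have h4 : |s| * Real.sqrt N ≤ (s ^ 2 * N + 1) / 2 := by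
    have h5 := Real.sq_sqrt hN
    nlinarith [sq_nonneg (|s| * Real.sqrt N - 1), sq_abs s]
  have h6 : ε * (|s| * N + Real.sqrt N) / 2 * |s| =
      ε * ((s ^ 2 * N + |s| * Real.sqrt N) / 2) := by
    rw [← sq_abs s]
    ring
  rw [h6]
  refine mul_le_mul_of_nonneg_left ?_ hε
  nlinarith [mul_nonneg (sq_nonneg s) hN]

end Pool.NL25
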