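import Pool.Agent.NL25.HdLog
import Pool.Agent.NL25.Loc
import Pool.Agent.NL25.Rare
import Pool.Agent.NL25.Ent
import Pool.Agent.NL25.MXmAS
import Pool.Agent.NL25.RealEst5
import Pool.Agent.NL25.LoopS
import Pool.Agent.NL25.MeanS

set_option autoImplicit false

/-!
# NL25/Real: the real estimate for `log MG` (STUB; mX_mA is in MXmAS)
-/

namespace Pool.NL25

open Pool.HB45 Pool.HM63 Pool.PH43 Pool.SC25 Pool.SC45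

/-- CLOSING THE LOOP (real numbers). `a = mA - G`, `y = mX - G`, `N ≥ 1`. PROOF. `v = √((1 + |s||y|/2)/(ε1 N))` is `≤ v0`
(`|y| ≤ 2N`, `|s| ≤ ε1 v0²/2`, `N ≥ 2/(ε1 v0²)`), so `|a| ≤ 2 √(ε1 N (1 + |s||y|/2))`; `|y| ≤ |a| + |s| N/5`;
`2 √(ε1 N |s||y|/2) ≤ |y|/2 + ε1 N |s|`, hence `|y| ≤ 4 √(ε1 N) + 2 ε1 N|s| + (2/5)|s| N ≤ 4 √(ε1 N) + |s| N`, and then
`|a| ≤ 2 √(ε1 N) (1 + √(2|s|√(ε1 N)) + |s| √N) ≤ ε (|s| N + √N)` for `ε1` small. -/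
theorem loop (ε : ℝ) (hε : 0 < ε) : ∃ ε1 : ℝ, 0 < ε1 ∧ ∀ v0 : ℝ, 0 < v0 → ∃ s0 : ℝ, 0 < s0 ∧ ∃ N0 : ℝ,
    ∀ N s a y : ℝ, N0 ≤ N → |s| ≤ s0 → |y| ≤ 2 * N → |y - a - s * N / 6| ≤ 1 / 100 * |s| * N →
    (∀ v : ℝ, 0 < v → v ≤ v0 → v * |a| ≤ ε1 * v ^ 2 * N + 1 + s * y / 2) →
    |a| ≤ ε * (|s| * N + Real.sqrt N) := loopS ε hε

/-- the derivative of `log MG` -/
theorem hasDerivAt_log {N : ℕ} {Q : Rel (N + 1)} {lab : Fin (N + 1) → ℕ} (hn : Nat' Q lab) (s : ℝ) :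
    HasDerivAt (fun s => Real.log (MG Q lab s / (LE Q).card)) (mX Q lab s / 2) s :=
  hasDerivAt_log' hn s

/-- MEAN ESTIMATE (also used in the centre). PROOF. `mX_mA` and `mA_close`, `loop` give
`|mX - GG - sN/6| ≤ ε (|s| N + √N)`. (`|mX - GG| ≤ 2 N` since `|X| ≤ N`, `0 ≤ GG ≤ N`.) -/
theorem mean_est (ε : ℝ) (hε : 0 < ε) : ∃ ε1 : ℝ, 0 < ε1 ∧ ∀ v0 : ℝ, 0 < v0 → ∃ c : ℝ, 0 < c ∧
    ∃ s0 : ℝ, 0 < s0 ∧ ∃ N0 : ℕ, ∀ N ≥ N0, ∀ (h : ℕ)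
    (Q : Rel (N + 1)) (κ lab : Fin (N + 1) → ℕ), 1 ≤ h → (h : ℝ) ≤ c * N → Lev h Q κ → Nat' Q lab →
    Tr Q → SubG Q ε1 v0 → ∀ s : ℝ, |s| ≤ s0 →
      |mX Q lab s - GG Q - s * N / 6| ≤ ε * (|s| * N + Real.sqrt N) := by
  exact mean_estS ε hε

/-- REAL ESTIMATE. PROOF. `mX_mA` and `mA_close`, `loop` give
`|mX - GG - sN/6| ≤ ε (|s| N + √N)`; integrate `hasDerivAt_log` from `0` to `s` (mean value inequality for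
`log MG - s GG/2 - s² N/24`); `|s| √N ≤ s² N + 1`. (`|mX - GG| ≤ 2 N` since `|X| ≤ N`, `0 ≤ GG ≤ N`.) -/
theorem real_est (ε : ℝ) (hε : 0 < ε) : ∃ ε1 : ℝ, 0 < ε1 ∧ ∀ v0 : ℝ, 0 < v0 → ∃ c : ℝ, 0 < c ∧
    ∃ s0 : ℝ, 0 < s0 ∧ ∃ N0 : ℕ, ∀ N ≥ N0, ∀ (h : ℕ)
    (Q : Rel (N + 1)) (κ lab : Fin (N + 1) → ℕ), 1 ≤ h → (h : ℝ) ≤ c * N → Lev h Q κ → Nat' Q lab →
    Tr Q → SubG Q ε1 v0 → RE Q lab ε s0 := by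
  obtain ⟨ε1, h1, hA⟩ := mean_est ε hε
  refine ⟨ε1, h1, fun v0 hv => ?_⟩
  obtain ⟨c, hc, s0, hs0, N0, hB⟩ := hA v0 hv
  exact ⟨c, hc, s0, hs0, N0, fun N hN h Q κ lab h1 hh hL hn hT hG =>
    re_of_mean hn hε.le (hB N hN h Q κ lab h1 hh hL hn hT hG)⟩

end Pool.NL25
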