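import Pool.Agent.SC25.FlipE2A

set_option autoImplicit false

/-!
# NL25/OneWinBS: one window for tilts between 1/2 and 2
-/

namespace Pool.NL25

open Pool.HB45 Pool.HM63 Pool.PH43 Pool.SC25

/-- a rearrangement of a window changes the number of descents by at most 5 -/
theorem OWB_des_le {N m : ℕ} (hm : m * (3 + 2) ≤ N + 1) (lab : Fin (N + 1) → ℕ) (k : Fin m)
    (π : Equiv.Perm (Fin (N + 1))) (τ0 τ : Equiv.Perm (Fin (3 + 1))) :
    des lab (π * emb (win_le hm k) τ0) ≤ des lab (π * emb (win_le hm k) τ) + 5 := by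
  classical
  rw [← card_DS, ← card_DS]
  have h1 : DS lab (π * emb (win_le hm k) τ0) ⊆ DS lab (π * emb (win_le hm k) τ) ∪
      (Finset.univ.filter fun p : Fin N =>
        k.val * (3 + 2) ≤ p.val + 1 ∧ p.val ≤ k.val * (3 + 2) + 3) := by
    intro p hp
    rw [Finset.mem_union, Finset.mem_filter]
    by_cases h2 : k.val * (3 + 2) ≤ p.val + 1 ∧ p.val ≤ k.val * (3 + 2) + 3
    · exact Or.inr ⟨Finset.mem_univ _, h2⟩
    · left
      have hc : p.castSucc.val = p.val := rfl
      have hv : p.succ.val = p.val + 1 := rfl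
      rw [mem_DS] at hp ⊢
      rw [Equiv.Perm.mul_apply, Equiv.Perm.mul_apply] at hp ⊢
      rw [emb_of_not (win_le hm k) τ0 p.succ (by rw [hv]; omega),
        emb_of_not (win_le hm k) τ0 p.castSucc (by rw [hc]; omega)] at hp
      rw [emb_of_not (win_le hm k) τ p.succ (by rw [hv]; omega),
        emb_of_not (win_le hm k) τ p.castSucc (by rw [hc]; omega)]
      exact hp
  have h2 : (Finset.univ.filter fun p : Fin N =>
      k.val * (3 + 2) ≤ p.val + 1 ∧ p.val ≤ k.val * (3 + 2) + 3).card ≤ 5 := by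
    have h3 : ((Finset.univ.filter fun p : Fin N =>
        k.val * (3 + 2) ≤ p.val + 1 ∧ p.val ≤ k.val * (3 + 2) + 3).image
          fun p : Fin N => p.val + 1) ⊆
        Finset.Icc (k.val * (3 + 2)) (k.val * (3 + 2) + 4) := by
      intro x hx
      rw [Finset.mem_image] at hx
      obtain ⟨p, hp, rfl⟩ := hx
      rw [Finset.mem_filter] at hp
      rw [Finset.mem_Icc]
      omega
    have h4 := Finset.card_le_card h3
    rw [Finset.card_image_of_injective _ (fun a b h => by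
      apply Fin.ext
      have : a.val + 1 = b.val + 1 := h
      omega), Nat.card_Icc] at h4
    omega
  refine (Finset.card_le_card h1).trans ((Finset.card_union_le _ _).trans ?_)
  omega

/-- the weights of two arrangements of a window differ at most by the factor `32` -/
theorem OWB_pow_le {r : ℝ} (hr : 1 / 2 ≤ r) (hr1 : r ≤ 2) {a b : ℕ} (h1 : a ≤ b + 5)
    (h2 : b ≤ a + 5) : r ^ a ≤ 32 * r ^ b := by
  have hr0 : 0 < r := by linarith
  rcases le_total r 1 with h | h
  · have h3 : r ^ (a + 5) ≤ r ^ b := pow_le_pow_of_le_one hr0.le h h2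
    have h4 : (1 / 32 : ℝ) ≤ r ^ 5 := by
      have := pow_le_pow_left₀ (by norm_num : (0 : ℝ) ≤ 1 / 2) hr 5
      norm_num at this ⊢
      exact this
    have h5 : 0 < r ^ a := pow_pos hr0 a
    rw [pow_add] at h3
    nlinarith
  · have h3 : r ^ a ≤ r ^ (b + 5) := pow_le_pow_right₀ h h1
    have h4 : r ^ 5 ≤ (32 : ℝ) := by
      have := pow_le_pow_left₀ hr0.le hr1 5
      norm_num at this ⊢
      exact this
    have h5 : 0 < r ^ b := pow_pos hr0 b
    rw [pow_add] at h3
    nlinarith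

/-- ONE WINDOW, the inner sum -/
theorem OWB_inner {N m : ℕ} (hm : m * (3 + 2) ≤ N + 1) {Q : Rel (N + 1)}
    {lab : Fin (N + 1) → ℕ} (hn : Nat' Q lab) (k : Fin m) (r c : ℝ) (hr : 1 / 2 ≤ r) (hr1 : r ≤ 2)
    (hc1 : c ≤ 1) (π : Equiv.Perm (Fin (N + 1))) (hπ : π ∈ LE Q)
    (hg : ¬ Bad (winRel (win_le hm k) Q π)) :
    ∑ τ ∈ LE (winRel (win_le hm k) Q π), r ^ des lab (π * emb (win_le hm k) τ) *
        tw Q lab c c (mid hm k) (π * emb (win_le hm k) τ) ≤
      (1 - (1 - c) / 768) *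
        ∑ τ ∈ LE (winRel (win_le hm k) Q π), r ^ des lab (π * emb (win_le hm k) τ) := by
  classical
  have hr0 : 0 < r := by linarith
  have hall : LE (winRel (win_le hm k) Q π) = Finset.univ := by
    ext τ
    rw [mem_LE]
    exact ⟨fun _ => Finset.mem_univ _, fun _ i j h => absurd ⟨_, _, h⟩ hg⟩
  rw [hall]
  obtain ⟨τ0, h1, h2⟩ := FlipE2_sorted hm hn k π hg
  have h3 : tw Q lab c c (mid hm k) (π * emb (win_le hm k) τ0) = c := by
    unfold tw
    rw [if_pos h2]
  have h5 : ∑ τ : Equiv.Perm (Fin (3 + 1)), r ^ des lab (π * emb (win_le hm k) τ) ≤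
      768 * r ^ des lab (π * emb (win_le hm k) τ0) := by
    refine (Finset.sum_le_sum fun τ _ => OWB_pow_le hr hr1 (OWB_des_le hm lab k π τ τ0)
      (OWB_des_le hm lab k π τ0 τ)).trans ?_
    rw [Finset.sum_const, Finset.card_univ, Fintype.card_perm, Fintype.card_fin, nsmul_eq_mul]
    norm_num [Nat.factorial]
    linarith
  have h6 : (1 - c) * r ^ des lab (π * emb (win_le hm k) τ0) ≤
      ∑ τ : Equiv.Perm (Fin (3 + 1)), r ^ des lab (π * emb (win_le hm k) τ) *
        (1 - tw Q lab c c (mid hm k) (π * emb (win_le hm k) τ)) := by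
    refine le_trans ?_ (Finset.single_le_sum (f := fun τ : Equiv.Perm (Fin (3 + 1)) =>
      r ^ des lab (π * emb (win_le hm k) τ) *
        (1 - tw Q lab c c (mid hm k) (π * emb (win_le hm k) τ))) (fun τ _ => ?_)
      (Finset.mem_univ τ0))
    · simp only [h3]
      rw [mul_comm]
    · exact mul_nonneg (pow_nonneg hr0.le _) (sub_nonneg.2 (FlipE2_tw_le_one Q lab hc1 _ _))
  have h7 : ∑ τ : Equiv.Perm (Fin (3 + 1)), r ^ des lab (π * emb (win_le hm k) τ) *
        (1 - tw Q lab c c (mid hm k) (π * emb (win_le hm k) τ)) =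
      ∑ τ : Equiv.Perm (Fin (3 + 1)), r ^ des lab (π * emb (win_le hm k) τ) -
      ∑ τ : Equiv.Perm (Fin (3 + 1)), r ^ des lab (π * emb (win_le hm k) τ) *
        tw Q lab c c (mid hm k) (π * emb (win_le hm k) τ) := by
    rw [← Finset.sum_sub_distrib]
    exact Finset.sum_congr rfl fun τ _ => by ring
  rw [h7] at h6
  have h8 : 0 ≤ 1 - c := by linarith
  have h9 := mul_le_mul_of_nonneg_left h5 h8
  linarith

/-- ONE WINDOW for `1/2 ≤ r ≤ 2` -/
theorem OWB_one_win {N m : ℕ} (hm : m * (3 + 2) ≤ N + 1) {Q : Rel (N + 1)}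
    {lab : Fin (N + 1) → ℕ} (hn : Nat' Q lab) (k : Fin m) (r c : ℝ) (hr : 1 / 2 ≤ r) (hr1 : r ≤ 2)
    (hc1 : c ≤ 1) (F : Equiv.Perm (Fin (N + 1)) → ℝ) (hF0 : ∀ g, 0 ≤ F g)
    (hF : ∀ π ∈ LE Q, ∀ g, π * emb (win_le hm k) g ∈ LE Q → F (π * emb (win_le hm k) g) = F π)
    (hb : ∀ π ∈ LE Q, Bad (winRel (win_le hm k) Q π) → F π = 0) :
    ∑ g ∈ LE Q, r ^ des lab g * (tw Q lab c c (mid hm k) g * F g) ≤
      (1 - (1 - c) / 768) * ∑ g ∈ LE Q, r ^ des lab g * F g := by
  classical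
  rw [avg (win_le hm k) fun g => r ^ des lab g * (tw Q lab c c (mid hm k) g * F g),
    avg (win_le hm k) fun g => r ^ des lab g * F g, Finset.mul_sum]
  refine Finset.sum_le_sum fun π hπ => ?_
  rw [smul_eq_mul, smul_eq_mul]
  have h1 : ∑ g ∈ LE (winRel (win_le hm k) Q π), r ^ des lab (π * emb (win_le hm k) g) *
      (tw Q lab c c (mid hm k) (π * emb (win_le hm k) g) * F (π * emb (win_le hm k) g)) =
      (∑ g ∈ LE (winRel (win_le hm k) Q π), r ^ des lab (π * emb (win_le hm k) g) *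
        tw Q lab c c (mid hm k) (π * emb (win_le hm k) g)) * F π := by
    rw [Finset.sum_mul]
    refine Finset.sum_congr rfl fun g hg => ?_
    rw [hF π hπ g ((mul_emb_mem (win_le hm k) π hπ g).2 hg)]
    ring
  have h2 : ∑ g ∈ LE (winRel (win_le hm k) Q π), r ^ des lab (π * emb (win_le hm k) g) *
      F (π * emb (win_le hm k) g) =
      (∑ g ∈ LE (winRel (win_le hm k) Q π), r ^ des lab (π * emb (win_le hm k) g)) * F π := by
    rw [Finset.sum_mul]
    refine Finset.sum_congr rfl fun g hg => ?_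
    rw [hF π hπ g ((mul_emb_mem (win_le hm k) π hπ g).2 hg)]
  rw [h1, h2]
  have hcard : 0 ≤ ((LE (winRel (win_le hm k) Q π)).card : ℝ)⁻¹ := by positivity
  by_cases hbad : Bad (winRel (win_le hm k) Q π)
  · rw [hb π hπ hbad]
    simp
  · have h3 := OWB_inner hm hn k r c hr hr1 hc1 π hπ hbad
    have h4 := mul_le_mul_of_nonneg_right h3 (hF0 π)
    have h5 := mul_le_mul_of_nonneg_left h4 hcard
    calc _ ≤ _ := h5
      _ = _ := by ring

end Pool.NL25
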