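import Pool.Agent.SC25.FlipE2
import Pool.Agent.NL25.OneWinBS

set_option autoImplicit false

/-!
# NL25/FlipX.all_win_B: all windows for `1/2 ≤ r ≤ 2` (helper file)
-/

namespace Pool.NL25

open Pool.HB45 Pool.HM63 Pool.PH43 Pool.SC25

/-- ALL WINDOWS for `1/2 ≤ r ≤ 2`: the proof of `SC25.all_win`. -/
theorem AWB_all_win {N m : ℕ} (hm : m * (3 + 2) ≤ N + 1) {Q : Rel (N + 1)} {lab : Fin (N + 1) → ℕ}
    (hn : Nat' Q lab) (r c : ℝ) (hr : 1 / 2 ≤ r) (hr1 : r ≤ 2) (hc : 0 ≤ c) (hc1 : c ≤ 1) :
    ∑ g ∈ LE Q, r ^ des lab g *
        c ^ ((upT Q lab (Tw hm) g).card + (dnT Q lab (Tw hm) g).card) ≤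
      ∑ g ∈ LE Q, r ^ des lab g * (1 - (1 - c) / 768) ^ (m - nbad hm Q g) := by
  classical
  have hr0 : 0 ≤ r := by linarith
  set η : ℝ := 1 - (1 - c) / 768 with hη
  have hη0 : 0 ≤ η := by
    rw [hη]
    linarith
  let bw : Fin m → Equiv.Perm (Fin (N + 1)) → ℝ := fun k g =>
    if Bad (winRel (win_le hm k) Q g) then 1 else η
  have hbw0 : ∀ k g, 0 ≤ bw k g := fun k g => by
    simp only [bw]; split_ifs
    · exact zero_le_one
    · exact hη0
  have key : ∀ K : Finset (Fin m),
      ∑ g ∈ LE Q, r ^ des lab g * ∏ k : Fin m, tw Q lab c c (mid hm k) g ≤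
        ∑ g ∈ LE Q, r ^ des lab g * ((∏ k ∈ K, bw k g) * ∏ k ∈ Kᶜ, tw Q lab c c (mid hm k) g) := by
    intro K
    induction K using Finset.induction_on with
    | empty => simp
    | insert k K hk ih =>
      refine ih.trans ?_
      have hKc : Kᶜ = insert k (insert k K)ᶜ := by
        ext l
        simp only [Finset.mem_compl, Finset.mem_insert, not_or]
        constructor
        · intro h
          by_cases hlk : l = k
          · exact Or.inl hlk
          · exact Or.inr ⟨hlk, h⟩
        · rintro (h | h)
          · rw [h]; exact hk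
          · exact h.2
      have hkn : k ∉ (insert k K)ᶜ := by simp
      rw [hKc]
      let G : Equiv.Perm (Fin (N + 1)) → ℝ := fun g =>
        (∏ l ∈ K, bw l g) * ∏ l ∈ (insert k K)ᶜ, tw Q lab c c (mid hm l) g
      have hG0 : ∀ g, 0 ≤ G g := fun g =>
        mul_nonneg (Finset.prod_nonneg fun l _ => hbw0 l g)
          (Finset.prod_nonneg fun l _ => tw_nonneg Q lab hc _ g)
      let F : Equiv.Perm (Fin (N + 1)) → ℝ := fun g =>
        if Bad (winRel (win_le hm k) Q g) then 0 else G g
      have hF0 : ∀ g, 0 ≤ F g := fun g => by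
        simp only [F]; split_ifs
        · exact le_rfl
        · exact hG0 g
      have hGemb : ∀ π g, G (π * emb (win_le hm k) g) = G π := by
        intro π g
        simp only [G]
        congr 1
        · refine Finset.prod_congr rfl fun l hl => ?_
          simp only [bw]
          rw [winRel_emb_ne hm Q k l (fun h => hk (h ▸ hl))]
        · refine Finset.prod_congr rfl fun l hl => ?_
          exact tw_emb hm Q lab c c k l (fun h => hkn (h ▸ hl)) π g
      have hF : ∀ π ∈ LE Q, ∀ g, π * emb (win_le hm k) g ∈ LE Q →
          F (π * emb (win_le hm k) g) = F π := by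
        intro π _ g _
        simp only [F]
        rw [hGemb]
        simp only [bad_emb_self hm Q k π g]
      have h1 := OWB_one_win hm hn k r c hr hr1 hc1 F hF0 hF
        (fun π _ hb => by simp only [F]; rw [if_pos hb])
      have h2 : ∀ g, (∏ k ∈ K, bw k g) * ∏ l ∈ insert k (insert k K)ᶜ, tw Q lab c c (mid hm l) g =
          tw Q lab c c (mid hm k) g * G g := by
        intro g
        rw [Finset.prod_insert hkn]
        simp only [G]
        ring
      have h3 : ∀ g, (∏ k ∈ insert k K, bw k g) * ∏ l ∈ (insert k K)ᶜ, tw Q lab c c (mid hm l) g =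
          bw k g * G g := by
        intro g
        rw [Finset.prod_insert hk]
        simp only [G]
        ring
      simp_rw [h2, h3]
      have h4 : ∀ g, G g = F g + (if Bad (winRel (win_le hm k) Q g) then G g else 0) := by
        intro g
        simp only [F]
        split_ifs <;> simp
      calc ∑ g ∈ LE Q, r ^ des lab g * (tw Q lab c c (mid hm k) g * G g)
          = ∑ g ∈ LE Q, r ^ des lab g * (tw Q lab c c (mid hm k) g * F g) +
            ∑ g ∈ LE Q, r ^ des lab g * (tw Q lab c c (mid hm k) g *
              (if Bad (winRel (win_le hm k) Q g) then G g else 0)) := by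
            rw [← Finset.sum_add_distrib]
            refine Finset.sum_congr rfl fun g _ => ?_
            conv_lhs => rw [h4 g]
            ring
        _ ≤ η * ∑ g ∈ LE Q, r ^ des lab g * F g +
            ∑ g ∈ LE Q, r ^ des lab g * (1 *
              (if Bad (winRel (win_le hm k) Q g) then G g else 0)) := by
            refine add_le_add h1 (Finset.sum_le_sum fun g _ => ?_)
            refine mul_le_mul_of_nonneg_left (mul_le_mul_of_nonneg_right (tw_le_one Q lab hc1 _ g) ?_)
              (pow_nonneg hr0 _)
            split_ifs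
            · exact hG0 g
            · exact le_rfl
        _ = ∑ g ∈ LE Q, r ^ des lab g * (bw k g * G g) := by
            rw [Finset.mul_sum, ← Finset.sum_add_distrib]
            refine Finset.sum_congr rfl fun g _ => ?_
            simp only [F, bw]
            split_ifs <;> ring
  have h1 := key Finset.univ
  refine le_trans (le_of_eq ?_) (h1.trans (le_of_eq ?_))
  · refine Finset.sum_congr rfl fun g _ => ?_
    rw [pow_eq_prod_tw]
  · refine Finset.sum_congr rfl fun g _ => ?_
    congr 1
    rw [Finset.compl_univ, Finset.prod_empty, mul_one]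
    simp only [bw]
    rw [Finset.prod_ite, Finset.prod_const_one, one_mul, Finset.prod_const]
    congr 1
    unfold nbad
    have h2 := Finset.card_filter_add_card_filter_not (s := (Finset.univ : Finset (Fin m)))
      (fun k : Fin m => Bad (winRel (win_le hm k) Q g))
    rw [Finset.card_univ, Fintype.card_fin] at h2
    omega

end Pool.NL25
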