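import Pool.Agent.SC25.FlipE2
import Pool.Agent.NL25.OneWinBS
import Pool.Agent.NL25.AllWinBS

set_option autoImplicit false

/-!
# NL25/FlipX: independent flips for tilts of both signs
-/

namespace Pool.NL25

open Pool.HB45 Pool.HM63 Pool.PH43 Pool.SC25

open Classical in
/-- `r ≥ 1`. PROOF. `all_pos` with `x = √r`, `y = 1/√r`: `(x + r y)/(1 + r) = 2 √r/(1 + r)`, and
`x^up y^down = √r^(up - down) ≥ 1/√r` if `down ≤ up + 1`. (Copy of `flip_exp`.) -/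
theorem flip_exp_R {N : ℕ} {Q : Rel (N + 1)} {lab : Fin (N + 1) → ℕ} {T : Finset (Fin N)} (hT : Sep T)
    (r : ℝ) (hr : 1 ≤ r) :
    ∑ g ∈ (LE Q).filter (fun g => (dnT Q lab T g).card ≤ (upT Q lab T g).card + 1),
        r ^ des lab g ≤
      Real.sqrt r * ∑ g ∈ LE Q, r ^ des lab g *
        (2 * Real.sqrt r / (1 + r)) ^ ((upT Q lab T g).card + (dnT Q lab T g).card) := by
  have hr0 : 0 < r := by linarith
  have hs : 0 < Real.sqrt r := Real.sqrt_pos.2 hr0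
  have hs1 : 1 ≤ Real.sqrt r := Real.one_le_sqrt.2 hr
  have hss : Real.sqrt r * Real.sqrt r = r := Real.mul_self_sqrt hr0.le
  have h1 := all_pos (Q := Q) (lab := lab) hT r (Real.sqrt r) (Real.sqrt r)⁻¹ hr0
  have h2 : (Real.sqrt r + r * (Real.sqrt r)⁻¹) / (1 + r) = 2 * Real.sqrt r / (1 + r) := by
    have : r * (Real.sqrt r)⁻¹ = Real.sqrt r := by
      nth_rewrite 1 [← hss]
      field_simp
    rw [this]
    ring
  rw [h2] at h1
  rw [← h1, Finset.mul_sum]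
  have h3 : ∀ g ∈ (LE Q).filter (fun g => (dnT Q lab T g).card ≤ (upT Q lab T g).card + 1),
      r ^ des lab g ≤ Real.sqrt r * (r ^ des lab g *
        (Real.sqrt r ^ (upT Q lab T g).card * (Real.sqrt r)⁻¹ ^ (dnT Q lab T g).card)) := by
    intro g hg
    have hg' := (Finset.mem_filter.1 hg).2
    have h4 : Real.sqrt r ^ (dnT Q lab T g).card ≤ Real.sqrt r ^ ((upT Q lab T g).card + 1) :=
      pow_le_pow_right₀ hs1 hg'
    have h5 : 1 ≤ Real.sqrt r *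
        (Real.sqrt r ^ (upT Q lab T g).card * (Real.sqrt r)⁻¹ ^ (dnT Q lab T g).card) := by
      have h6 : 0 < (Real.sqrt r)⁻¹ ^ (dnT Q lab T g).card := by positivity
      have h7 := mul_le_mul_of_nonneg_right h4 h6.le
      have h8 : Real.sqrt r ^ (dnT Q lab T g).card * (Real.sqrt r)⁻¹ ^ (dnT Q lab T g).card = 1 := by
        rw [← mul_pow, mul_inv_cancel₀ hs.ne', one_pow]
      rw [h8, pow_succ] at h7
      linarith
    have h6 : 0 ≤ r ^ des lab g := by positivity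
    have h7 := mul_le_mul_of_nonneg_left h5 h6
    linarith
  refine (Finset.sum_le_sum h3).trans ?_
  refine Finset.sum_le_sum_of_subset_of_nonneg (Finset.filter_subset _ _) ?_
  intro g _ _
  positivity

/-- ONE WINDOW for `1/2 ≤ r ≤ 2`. As `SC25.one_win` (`FlipE2_one_win`, `FlipE2_inner`): `des` changes by at most 5 in the
window, so `r^(des of the sorted order) ≥ r^des / 32`, and there are 24 orders: factor `1 - (1 - c)/(24 * 32)`. -/
theorem one_win_B {N m : ℕ} (hm : m * (3 + 2) ≤ N + 1) {Q : Rel (N + 1)} {lab : Fin (N + 1) → ℕ}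
    (hn : Nat' Q lab) (k : Fin m) (r c : ℝ) (hr : 1 / 2 ≤ r) (hr1 : r ≤ 2) (hc : 0 ≤ c) (hc1 : c ≤ 1)
    (F : Equiv.Perm (Fin (N + 1)) → ℝ) (hF0 : ∀ g, 0 ≤ F g)
    (hF : ∀ π ∈ LE Q, ∀ g, π * emb (win_le hm k) g ∈ LE Q → F (π * emb (win_le hm k) g) = F π)
    (hb : ∀ π ∈ LE Q, Bad (winRel (win_le hm k) Q π) → F π = 0) :
    ∑ g ∈ LE Q, r ^ des lab g * (tw Q lab c c (mid hm k) g * F g) ≤
      (1 - (1 - c) / 768) * ∑ g ∈ LE Q, r ^ des lab g * F g :=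
  OWB_one_win hm hn k r c hr hr1 hc1 F hF0 hF hb

/-- ALL WINDOWS for `1/2 ≤ r ≤ 2`. The proof of `SC25.all_win` with `η = 1 - (1 - c)/768` and `one_win_B`. -/
theorem all_win_B {N m : ℕ} (hm : m * (3 + 2) ≤ N + 1) {Q : Rel (N + 1)} {lab : Fin (N + 1) → ℕ}
    (hn : Nat' Q lab) (r c : ℝ) (hr : 1 / 2 ≤ r) (hr1 : r ≤ 2) (hc : 0 ≤ c) (hc1 : c ≤ 1) :
    ∑ g ∈ LE Q, r ^ des lab g *
        c ^ ((upT Q lab (Tw hm) g).card + (dnT Q lab (Tw hm) g).card) ≤
      ∑ g ∈ LE Q, r ^ des lab g * (1 - (1 - c) / 768) ^ (m - nbad hm Q g) :=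
  AWB_all_win hm hn r c hr hr1 hc hc1

end Pool.NL25
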