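import Pool.Agent.NL25.Defs

set_option autoImplicit false

/-!
# NL25/Conc2A: concentration of `X` at scale `δ |s| N` from the real estimate
-/

namespace Pool.NL25

open Pool.HB45 Pool.HM63 Pool.PH43 Pool.SC25 Pool.SC45

theorem MG_quotA {N : ℕ} {Q : Rel (N + 1)} {lab : Fin (N + 1) → ℕ} (hn : Nat' Q lab) {ε s0 : ℝ}
    (hRE : RE Q lab ε s0) (s l : ℝ) (hs : |s| ≤ s0) (hl : |s + l| ≤ s0) :
    MG Q lab (s + l) ≤ MG Q lab s * Real.exp (l * GG Q / 2 + (2 * s * l + l ^ 2) * N / 24 +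
      ε * (((s + l) ^ 2 + s ^ 2) * N + 2)) := by
  have h1 := hRE (s + l) hl
  have h2 := hRE s hs
  rw [Real.log_div (MG_pos hn _).ne' (card_pos hn).ne'] at h1 h2
  have h3 := (abs_le.1 h1).2
  have h4 := (abs_le.1 h2).1
  rw [← Real.exp_log (MG_pos hn (s + l)), ← Real.exp_log (MG_pos hn s), ← Real.exp_add,
    Real.exp_le_exp]
  linarith

/-- the common Chernoff step -/
theorem cher_aux {N : ℕ} {Q : Rel (N + 1)} {lab : Fin (N + 1) → ℕ} (hn : Nat' Q lab)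
    {δ ε s0 s : ℝ} (hδ : 0 < δ) (hδ1 : δ ≤ 1 / 100) (hε1 : ε ≤ δ ^ 2)
    (hRE : RE Q lab ε s0) (hs0 : |s| * (1 + 12 * δ) ≤ s0) (hsN : 1 / δ ^ 2 ≤ s ^ 2 * N)
    (l : ℝ) (hl : |l| = 12 * δ * |s|) (S : Finset (Equiv.Perm (Fin (N + 1)))) (hS : S ⊆ LE Q)
    (hX : ∀ g ∈ S, l * (GG Q + s * N / 6) + 24 * δ ^ 2 * s ^ 2 * N ≤ l * Xf lab g) :
    ∑ g ∈ S, Real.exp (s * Xf lab g / 2) ≤ 1 / 4 * MG Q lab s := by
  have hsabs : 0 ≤ |s| := abs_nonneg s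
  have hs1 : |s| ≤ s0 := by nlinarith
  have hl1 : |s + l| ≤ s0 := (abs_add_le s l).trans (by rw [hl]; linarith)
  have hN : (0 : ℝ) ≤ N := Nat.cast_nonneg _
  have hδ2 : 0 < δ ^ 2 := by positivity
  have hD : 1 ≤ δ ^ 2 * (s ^ 2 * N) := by
    have h1 := mul_le_mul_of_nonneg_left hsN hδ2.le
    rwa [mul_one_div_cancel hδ2.ne'] at h1
  have hl2 : l ^ 2 = 144 * δ ^ 2 * s ^ 2 := by
    rw [← sq_abs l, hl, mul_pow, mul_pow, sq_abs]
    ring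
  have hsl : (s + l) ^ 2 ≤ 1.2544 * s ^ 2 := by
    have h1 : |s + l| ≤ 1.12 * |s| := (abs_add_le s l).trans (by rw [hl]; nlinarith)
    calc (s + l) ^ 2 = |s + l| ^ 2 := (sq_abs _).symm
      _ ≤ (1.12 * |s|) ^ 2 := pow_le_pow_left₀ (abs_nonneg _) h1 2
      _ = 1.2544 * s ^ 2 := by rw [mul_pow, sq_abs]; norm_num
  have hq := MG_quotA hn hRE s l hs1 hl1
  have hterm : ∀ g ∈ S, Real.exp (s * Xf lab g / 2) ≤
      Real.exp (-(l * (GG Q + s * N / 6) + 24 * δ ^ 2 * s ^ 2 * N) / 2) *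
        Real.exp ((s + l) * Xf lab g / 2) := by
    intro g hg
    rw [← Real.exp_add, Real.exp_le_exp]
    have h1 := hX g hg
    linarith
  have hsum : ∑ g ∈ S, Real.exp (s * Xf lab g / 2) ≤
      Real.exp (-(l * (GG Q + s * N / 6) + 24 * δ ^ 2 * s ^ 2 * N) / 2) * MG Q lab (s + l) := by
    refine (Finset.sum_le_sum hterm).trans ?_
    rw [← Finset.mul_sum]
    refine mul_le_mul_of_nonneg_left ?_ (Real.exp_pos _).le
    unfold MG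
    exact Finset.sum_le_sum_of_subset_of_nonneg hS fun _ _ _ => (Real.exp_pos _).le
  refine hsum.trans ?_
  refine (mul_le_mul_of_nonneg_left hq (Real.exp_pos _).le).trans ?_
  have hMG := MG_pos hn s
  have hexp : Real.exp (-(l * (GG Q + s * N / 6) + 24 * δ ^ 2 * s ^ 2 * N) / 2) *
      (MG Q lab s * Real.exp (l * GG Q / 2 + (2 * s * l + l ^ 2) * N / 24 +
        ε * (((s + l) ^ 2 + s ^ 2) * N + 2))) =
      MG Q lab s * Real.exp (-(6 * (δ ^ 2 * (s ^ 2 * N))) +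
        ε * (((s + l) ^ 2 + s ^ 2) * N + 2)) := by
    rw [mul_left_comm, ← Real.exp_add, hl2]
    congr 2
    ring
  rw [hexp, mul_comm (1 / 4 : ℝ)]
  refine mul_le_mul_of_nonneg_left ?_ hMG.le
  have h5 : ε * (((s + l) ^ 2 + s ^ 2) * N + 2) ≤ δ ^ 2 * (2.2544 * (s ^ 2 * N) + 2) := by
    refine mul_le_mul hε1 ?_ (by positivity) hδ2.le
    have h6 : ((s + l) ^ 2 + s ^ 2) * N ≤ (1.2544 * s ^ 2 + s ^ 2) * N :=
      mul_le_mul_of_nonneg_right (by linarith) hN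
    linarith
  have h7 : δ ^ 2 ≤ 1 / 10000 := by nlinarith
  have h8 : -(6 * (δ ^ 2 * (s ^ 2 * N))) + ε * (((s + l) ^ 2 + s ^ 2) * N + 2) ≤ -3 := by
    nlinarith
  refine (Real.exp_le_exp.2 h8).trans ?_
  have h9 : (4 : ℝ) ≤ Real.exp 3 := by
    have := Real.add_one_le_exp (3 : ℝ)
    linarith
  rw [Real.exp_neg, one_div]
  exact inv_anti₀ (by norm_num) h9

open Classical in
theorem tail_X_upA {N : ℕ} {Q : Rel (N + 1)} {lab : Fin (N + 1) → ℕ} (hn : Nat' Q lab)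
    {δ ε s0 s : ℝ} (hδ : 0 < δ) (hδ1 : δ ≤ 1 / 100) (_hε : 0 ≤ ε) (hε1 : ε ≤ δ ^ 2)
    (hRE : RE Q lab ε s0) (hs0 : |s| * (1 + 12 * δ) ≤ s0) (hsN : 1 / δ ^ 2 ≤ s ^ 2 * N) :
    ∑ g ∈ (LE Q).filter (fun g => GG Q + s * N / 6 + 2 * δ * |s| * N ≤ Xf lab g),
      Real.exp (s * Xf lab g / 2) ≤ 1 / 4 * MG Q lab s := by
  have hl0 : 0 ≤ 12 * δ * |s| := by positivity
  refine cher_aux hn hδ hδ1 hε1 hRE hs0 hsN (12 * δ * |s|) (abs_of_nonneg hl0) _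
    (Finset.filter_subset _ _) ?_
  intro g hg
  have h1 := mul_le_mul_of_nonneg_left (Finset.mem_filter.1 hg).2 hl0
  have h2 : |s| * |s| = s ^ 2 := by rw [← sq, sq_abs]
  have h3 : 12 * δ * |s| * (GG Q + s * N / 6 + 2 * δ * |s| * N) =
      12 * δ * |s| * (GG Q + s * N / 6) + 24 * δ ^ 2 * (|s| * |s|) * N := by ring
  rw [h3, h2] at h1
  exact h1

open Classical in
theorem tail_X_downA {N : ℕ} {Q : Rel (N + 1)} {lab : Fin (N + 1) → ℕ} (hn : Nat' Q lab)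
    {δ ε s0 s : ℝ} (hδ : 0 < δ) (hδ1 : δ ≤ 1 / 100) (_hε : 0 ≤ ε) (hε1 : ε ≤ δ ^ 2)
    (hRE : RE Q lab ε s0) (hs0 : |s| * (1 + 12 * δ) ≤ s0) (hsN : 1 / δ ^ 2 ≤ s ^ 2 * N) :
    ∑ g ∈ (LE Q).filter (fun g => Xf lab g ≤ GG Q + s * N / 6 - 2 * δ * |s| * N),
      Real.exp (s * Xf lab g / 2) ≤ 1 / 4 * MG Q lab s := by
  have hl0 : 0 ≤ 12 * δ * |s| := by positivity
  refine cher_aux hn hδ hδ1 hε1 hRE hs0 hsN (-(12 * δ * |s|))
    (by rw [abs_neg]; exact abs_of_nonneg hl0) _ (Finset.filter_subset _ _) ?_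
  intro g hg
  have h1 := mul_le_mul_of_nonneg_left (Finset.mem_filter.1 hg).2 hl0
  have h2 : |s| * |s| = s ^ 2 := by rw [← sq, sq_abs]
  have h3 : 12 * δ * |s| * (GG Q + s * N / 6 - 2 * δ * |s| * N) =
      12 * δ * |s| * (GG Q + s * N / 6) - 24 * δ ^ 2 * (|s| * |s|) * N := by ring
  rw [h3, h2] at h1
  linarith

end Pool.NL25
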