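import Pool.Agent.NL25.Defs

set_option autoImplicit false

/-!
# NL25/LowS: lower bounds for `w_j` from the concentration of `X`
-/

namespace Pool.NL25

open Pool.HB45 Pool.HM63 Pool.PH43 Pool.SC25 Pool.SC45

/-- a set of words that carries half of `MG`, with at most `w_j` words at each level -/
theorem low_gen {N j : ℕ} {Q : Rel (N + 1)} {lab : Fin (N + 1) → ℕ} {s D : ℝ}
    (S : Finset (Equiv.Perm (Fin (N + 1)))) (hS : S ⊆ LE Q)
    (hw : ∀ g ∈ S, w Q lab (des lab g) ≤ w Q lab j)
    (hD : ∀ g ∈ S, s * Xf lab g / 2 ≤ s * (N - 2 * j) / 2 + D)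
    (hhalf : MG Q lab s ≤ 2 * ∑ g ∈ S, Real.exp (s * Xf lab g / 2)) :
    MG Q lab s * Real.exp (-D) ≤
      2 * (N + 1) * (w Q lab j * Real.exp (s * (N - 2 * j) / 2)) := by
  classical
  have hcard : S.card ≤ w Q lab j * (N + 1) := by
    have h6 : S.card ≤ w Q lab j * (S.image (des lab)).card := by
      apply Finset.card_le_mul_card_image
      intro i hi
      obtain ⟨g, hg, rfl⟩ := Finset.mem_image.1 hi
      refine le_trans (Finset.card_le_card ?_) (hw g hg)
      intro g' hg'
      rw [Finset.mem_filter] at hg'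
      rw [Finset.mem_filter]
      exact ⟨hS hg'.1, hg'.2⟩
    have h8 : (S.image (des lab)).card ≤ N + 1 := by
      have h9 : S.image (des lab) ⊆ Finset.range (N + 1) := by
        intro i hi
        obtain ⟨g, hg, rfl⟩ := Finset.mem_image.1 hi
        rw [Finset.mem_range]
        have h10 : des lab g ≤ N := by
          unfold des
          exact (Finset.card_le_univ _).trans (by rw [Fintype.card_fin])
        omega
      have := Finset.card_le_card h9
      rwa [Finset.card_range] at this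
    exact h6.trans (Nat.mul_le_mul_left _ h8)
  have h11 : ∑ g ∈ S, Real.exp (s * Xf lab g / 2) ≤
      (w Q lab j * (N + 1)) * Real.exp (s * (N - 2 * j) / 2 + D) := by
    have h12 : ∑ g ∈ S, Real.exp (s * Xf lab g / 2) ≤
        ∑ g ∈ S, Real.exp (s * (N - 2 * j) / 2 + D) :=
      Finset.sum_le_sum fun g hg => Real.exp_le_exp.2 (hD g hg)
    rw [Finset.sum_const, nsmul_eq_mul] at h12
    refine h12.trans (mul_le_mul_of_nonneg_right ?_ (Real.exp_pos _).le)
    exact_mod_cast hcard
  have h13 : Real.exp (s * (N - 2 * j) / 2 + D) * Real.exp (-D) =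
      Real.exp (s * (N - 2 * j) / 2) := by
    rw [← Real.exp_add]
    congr 1
    ring
  have h14 : MG Q lab s ≤ 2 * ((w Q lab j * (N + 1)) * Real.exp (s * (N - 2 * j) / 2 + D)) := by
    linarith
  have h15 := mul_le_mul_of_nonneg_right h14 (Real.exp_pos (-D)).le
  refine h15.trans (le_of_eq ?_)
  rw [← h13]
  ring

open Classical in
/-- the complement of two tails of weight at most `1 / 4` carries half -/
theorem half_mid {N : ℕ} {Q : Rel (N + 1)} {lab : Fin (N + 1) → ℕ} {s a b : ℝ}
    (hu : ∑ g ∈ (LE Q).filter (fun g => b ≤ Xf lab g), Real.exp (s * Xf lab g / 2) ≤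
      1 / 4 * MG Q lab s)
    (hd : ∑ g ∈ (LE Q).filter (fun g => Xf lab g ≤ a), Real.exp (s * Xf lab g / 2) ≤
      1 / 4 * MG Q lab s) :
    MG Q lab s ≤ 2 * ∑ g ∈ (LE Q).filter (fun g => a < Xf lab g ∧ Xf lab g < b),
      Real.exp (s * Xf lab g / 2) := by
  have h3 : MG Q lab s ≤
      ∑ g ∈ (LE Q).filter (fun g => b ≤ Xf lab g), Real.exp (s * Xf lab g / 2) +
      ∑ g ∈ (LE Q).filter (fun g => Xf lab g ≤ a), Real.exp (s * Xf lab g / 2) +
      ∑ g ∈ (LE Q).filter (fun g => a < Xf lab g ∧ Xf lab g < b),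
        Real.exp (s * Xf lab g / 2) := by
    unfold MG
    rw [Finset.sum_filter, Finset.sum_filter, Finset.sum_filter, ← Finset.sum_add_distrib,
      ← Finset.sum_add_distrib]
    apply Finset.sum_le_sum
    intro g _
    have h4 := Real.exp_pos (s * Xf lab g / 2)
    by_cases ha : b ≤ Xf lab g
    · rw [if_pos ha]
      have : 0 ≤ (if Xf lab g ≤ a then Real.exp (s * Xf lab g / 2) else 0) := by
        split_ifs <;> linarith
      have : 0 ≤ (if a < Xf lab g ∧ Xf lab g < b then Real.exp (s * Xf lab g / 2) else 0) := by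
        split_ifs <;> linarith
      linarith
    · rw [if_neg ha]
      by_cases hb : Xf lab g ≤ a
      · rw [if_pos hb]
        have : 0 ≤ (if a < Xf lab g ∧ Xf lab g < b then Real.exp (s * Xf lab g / 2) else 0) := by
          split_ifs <;> linarith
        linarith
      · rw [if_neg hb, if_pos ⟨not_le.1 hb, not_le.1 ha⟩]
        linarith
  linarith

open Classical in
/-- left side, from the two tail bounds -/
theorem lower_left_of {N j : ℕ} {Q : Rel (N + 1)} {lab : Fin (N + 1) → ℕ}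
    {δ s : ℝ} (hs : 0 < s)
    (hu : ∑ g ∈ (LE Q).filter (fun g => GG Q + s * N / 6 + 2 * δ * |s| * N ≤ Xf lab g),
      Real.exp (s * Xf lab g / 2) ≤ 1 / 4 * MG Q lab s)
    (hd : ∑ g ∈ (LE Q).filter (fun g => Xf lab g ≤ GG Q + s * N / 6 - 2 * δ * |s| * N),
      Real.exp (s * Xf lab g / 2) ≤ 1 / 4 * MG Q lab s)
    (hj : (j : ℝ) = (N - (GG Q + s * N / 6)) / 2 + δ * s * N)
    (hinc : ∀ i ≤ j, w Q lab i ≤ w Q lab j) :
    MG Q lab s * Real.exp (-(2 * δ * s ^ 2 * N)) ≤
      2 * (N + 1) * (w Q lab j * Real.exp (s * (N - 2 * j) / 2)) := by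
  rw [abs_of_pos hs] at hu hd
  refine low_gen _ (Finset.filter_subset _ _) ?_ ?_ (half_mid hu hd)
  · intro g hg
    rw [Finset.mem_filter] at hg
    apply hinc
    have h1 := hg.2.1
    unfold Xf at h1
    have h2 : (des lab g : ℝ) ≤ j := by linarith
    exact_mod_cast h2
  · intro g hg
    rw [Finset.mem_filter] at hg
    have h1 := mul_le_mul_of_nonneg_left hg.2.2.le hs.le
    have h3 := congrArg (fun t => s * t) hj
    nlinarith

open Classical in
/-- right side, from the two tail bounds -/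
theorem lower_right_of {N j : ℕ} {Q : Rel (N + 1)} {lab : Fin (N + 1) → ℕ}
    {δ s : ℝ} (hs : s < 0)
    (hu : ∑ g ∈ (LE Q).filter (fun g => GG Q + s * N / 6 + 2 * δ * |s| * N ≤ Xf lab g),
      Real.exp (s * Xf lab g / 2) ≤ 1 / 4 * MG Q lab s)
    (hd : ∑ g ∈ (LE Q).filter (fun g => Xf lab g ≤ GG Q + s * N / 6 - 2 * δ * |s| * N),
      Real.exp (s * Xf lab g / 2) ≤ 1 / 4 * MG Q lab s)
    (hj : (j : ℝ) = (N - (GG Q + s * N / 6)) / 2 + δ * s * N)
    (hdec : ∀ i, j ≤ i → w Q lab i ≤ w Q lab j) :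
    MG Q lab s * Real.exp (-(2 * δ * s ^ 2 * N)) ≤
      2 * (N + 1) * (w Q lab j * Real.exp (s * (N - 2 * j) / 2)) := by
  rw [abs_of_neg hs] at hu hd
  refine low_gen _ (Finset.filter_subset _ _) ?_ ?_ (half_mid hu hd)
  · intro g hg
    rw [Finset.mem_filter] at hg
    apply hdec
    have h1 := hg.2.2
    unfold Xf at h1
    have h2 : (j : ℝ) ≤ des lab g := by linarith
    exact_mod_cast h2
  · intro g hg
    rw [Finset.mem_filter] at hg
    have h1 := mul_le_mul_of_nonneg_left hg.2.1.le (neg_pos.2 hs).le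
    have h3 := congrArg (fun t => s * t) hj
    nlinarith

end Pool.NL25
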