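import Pool.Agent.NL25.Defs
import Pool.Agent.NL25.Conc2A
import Pool.Agent.NL25.LowS

set_option autoImplicit false

/-!
# NL25/Conc2: concentration of `X` at scale `δ |s| N` from the real estimate (STUB)
-/

namespace Pool.NL25

open Pool.HB45 Pool.HM63 Pool.PH43 Pool.SC25 Pool.SC45

/-- QUOTIENT. PROOF. `RE` at `s + l` and at `s`, difference of the logarithms (`MG_pos`, `card_pos`). -/
theorem MG_quot {N : ℕ} {Q : Rel (N + 1)} {lab : Fin (N + 1) → ℕ} (hn : Nat' Q lab) {ε s0 : ℝ}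
    (hRE : RE Q lab ε s0) (s l : ℝ) (hs : |s| ≤ s0) (hl : |s + l| ≤ s0) :
    MG Q lab (s + l) ≤ MG Q lab s * Real.exp (l * GG Q / 2 + (2 * s * l + l ^ 2) * N / 24 +
      ε * (((s + l) ^ 2 + s ^ 2) * N + 2)) :=
  MG_quotA hn hRE s l hs hl

open Classical in
/-- UPPER TAIL. PROOF. Chernoff with `l = 12 δ |s|`, `t = 2 δ |s| N`:
`∑ e^(sX/2) ≤ e^(-l (X̄ + t)/2) MG (s + l)`, exponent `-l t/2 + l² N/24 + ε (...) = -6 δ² s² N + ε (((s+l)² + s²) N + 2)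
≤ -6 δ² s² N + 2.3 δ² s² N + 2 δ² ≤ -3` and `e^(-3) ≤ 1/4`. -/
theorem tail_X_up {N : ℕ} {Q : Rel (N + 1)} {lab : Fin (N + 1) → ℕ} (hn : Nat' Q lab)
    {δ ε s0 s : ℝ} (hδ : 0 < δ) (hδ1 : δ ≤ 1 / 100) (hε : 0 ≤ ε) (hε1 : ε ≤ δ ^ 2)
    (hRE : RE Q lab ε s0) (hs0 : |s| * (1 + 12 * δ) ≤ s0) (hsN : 1 / δ ^ 2 ≤ s ^ 2 * N) :
    ∑ g ∈ (LE Q).filter (fun g => GG Q + s * N / 6 + 2 * δ * |s| * N ≤ Xf lab g),
      Real.exp (s * Xf lab g / 2) ≤ 1 / 4 * MG Q lab s :=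
  tail_X_upA hn hδ hδ1 hε hε1 hRE hs0 hsN

open Classical in
/-- LOWER TAIL. PROOF. The same with `l = -12 δ |s|`. -/
theorem tail_X_down {N : ℕ} {Q : Rel (N + 1)} {lab : Fin (N + 1) → ℕ} (hn : Nat' Q lab)
    {δ ε s0 s : ℝ} (hδ : 0 < δ) (hδ1 : δ ≤ 1 / 100) (hε : 0 ≤ ε) (hε1 : ε ≤ δ ^ 2)
    (hRE : RE Q lab ε s0) (hs0 : |s| * (1 + 12 * δ) ≤ s0) (hsN : 1 / δ ^ 2 ≤ s ^ 2 * N) :
    ∑ g ∈ (LE Q).filter (fun g => Xf lab g ≤ GG Q + s * N / 6 - 2 * δ * |s| * N),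
      Real.exp (s * Xf lab g / 2) ≤ 1 / 4 * MG Q lab s :=
  tail_X_downA hn hδ hδ1 hε hε1 hRE hs0 hsN

/-- LOWER BOUND FOR `w_j`, LEFT. PROOF (as `SC25.lower_w`). The words with `j - 2 δ s N < des < j` carry half of `MG`
(`tail_X_up`, `tail_X_down`; `des = (N - X)/2`); there are at most `(N + 1) w_j` of them, each of weight
`e^(s (N - 2 des)/2) ≤ e^(s (N - 2 j)/2) e^(2 δ s² N)`. -/
theorem lower_left {N j : ℕ} {Q : Rel (N + 1)} {lab : Fin (N + 1) → ℕ} (hn : Nat' Q lab)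
    {δ ε s0 s : ℝ} (hδ : 0 < δ) (hδ1 : δ ≤ 1 / 100) (hε : 0 ≤ ε) (hε1 : ε ≤ δ ^ 2)
    (hRE : RE Q lab ε s0) (hs0 : |s| * (1 + 12 * δ) ≤ s0) (hsN : 1 / δ ^ 2 ≤ s ^ 2 * N) (hs : 0 < s)
    (hj : (j : ℝ) = (N - (GG Q + s * N / 6)) / 2 + δ * s * N)
    (hinc : ∀ i ≤ j, w Q lab i ≤ w Q lab j) :
    MG Q lab s * Real.exp (-(2 * δ * s ^ 2 * N)) ≤
      2 * (N + 1) * (w Q lab j * Real.exp (s * (N - 2 * j) / 2)) :=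
  lower_left_of hs (tail_X_up hn hδ hδ1 hε hε1 hRE hs0 hsN)
    (tail_X_down hn hδ hδ1 hε hε1 hRE hs0 hsN) hj hinc

/-- LOWER BOUND FOR `w_j`, RIGHT (`s < 0`, `w` decreases behind `j`). PROOF. The words with `j < des < j + 2 δ |s| N`. -/
theorem lower_right {N j : ℕ} {Q : Rel (N + 1)} {lab : Fin (N + 1) → ℕ} (hn : Nat' Q lab)
    {δ ε s0 s : ℝ} (hδ : 0 < δ) (hδ1 : δ ≤ 1 / 100) (hε : 0 ≤ ε) (hε1 : ε ≤ δ ^ 2)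
    (hRE : RE Q lab ε s0) (hs0 : |s| * (1 + 12 * δ) ≤ s0) (hsN : 1 / δ ^ 2 ≤ s ^ 2 * N) (hs : s < 0)
    (hj : (j : ℝ) = (N - (GG Q + s * N / 6)) / 2 + δ * s * N)
    (hdec : ∀ i, j ≤ i → w Q lab i ≤ w Q lab j) :
    MG Q lab s * Real.exp (-(2 * δ * s ^ 2 * N)) ≤
      2 * (N + 1) * (w Q lab j * Real.exp (s * (N - 2 * j) / 2)) :=
  lower_right_of hs (tail_X_up hn hδ hδ1 hε hε1 hRE hs0 hsN)
    (tail_X_down hn hδ hδ1 hε hε1 hRE hs0 hsN) hj hdec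

end Pool.NL25
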