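import Pool.Agent.SC25.Flip

set_option autoImplicit false

/-!
# NL25/FlipR: the flips in the other direction
-/

namespace Pool.NL25

open Pool.HB45 Pool.HM63 Pool.PH43 Pool.SC25

/-- a down flip at `p` adds `p` to the up flips -/
theorem FU_sw {N : ℕ} {Q : Rel (N + 1)} {lab : Fin (N + 1) → ℕ} {T : Finset (Fin N)}
    (hT : Sparse T) {g : Equiv.Perm (Fin (N + 1))} (hg : g ∈ LE Q) {p : Fin N}
    (hp : p ∈ FD Q lab T g) :
    p ∈ FU Q lab T (sw g p) ∧ (FU Q lab T (sw g p)).card = (FU Q lab T g).card + 1 := by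
  classical
  obtain ⟨h1, h2, h3⟩ := mem_FD.1 hp
  have h4 : p ∈ FU Q lab T (sw g p) := by
    rw [mem_FU]
    refine ⟨h1, ?_, ?_⟩
    · rw [sw_left, sw_right]
      intro h
      have h5 := mem_LE.1 hg _ _ h
      have h6 : p.succ.val < p.castSucc.val := h5
      have hc : p.castSucc.val = p.val := rfl
      have hs : p.succ.val = p.val + 1 := rfl
      omega
    · rw [sw_sw, h3]
  refine ⟨h4, ?_⟩
  have h5 : FU Q lab T (sw g p) = insert p (FU Q lab T g) := by
    ext q
    by_cases hq : q = p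
    · subst hq
      simp [h4]
    · rw [Finset.mem_insert, mem_FU, mem_FU]
      by_cases hqT : q ∈ T
      · have hf := hT.far h1 hqT hq
        have h6 := des_sw_sw lab g hf
        rw [Q_far Q g hf]
        constructor
        · rintro ⟨-, h7, h8⟩
          exact Or.inr ⟨hqT, h7, by omega⟩
        · rintro (h7 | ⟨-, h7, h8⟩)
          · exact absurd h7 hq
          · exact ⟨hqT, h7, by omega⟩
      · simp [hq, hqT]
  have h6 : p ∉ FU Q lab T g := by
    rw [mem_FU]
    rintro ⟨-, -, h7⟩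
    omega
  rw [h5, Finset.card_insert_of_notMem h6]

/-- THE FLIP INEQUALITY, the other direction. -/
theorem flip_R {N : ℕ} (Q : Rel (N + 1)) (lab : Fin (N + 1) → ℕ) {T : Finset (Fin N)}
    (hT : Sparse T) (j : ℕ) :
    ∑ g ∈ Lj Q lab (j + 1), ((FD Q lab T g).card : ℝ) / ((FU Q lab T g).card + 1) ≤
      w Q lab j := by
  classical
  have h1 : ∑ g ∈ Lj Q lab (j + 1), ((FD Q lab T g).card : ℝ) / ((FU Q lab T g).card + 1) =
      ∑ x ∈ (Lj Q lab (j + 1)).sigma fun g => FD Q lab T g,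
        (1 : ℝ) / (FU Q lab T (sw x.1 x.2)).card := by
    rw [Finset.sum_sigma]
    refine Finset.sum_congr rfl fun g hg => ?_
    rw [Finset.sum_congr rfl (g := fun _ => (1 : ℝ) / ((FU Q lab T g).card + 1)) (fun p hp => by
      rw [(FU_sw hT (mem_Lj.1 hg).1 hp).2]
      push_cast
      rfl), Finset.sum_const, nsmul_eq_mul]
    ring
  have hinj : Set.InjOn (flipMap (N := N))
      ((Lj Q lab (j + 1)).sigma fun g => FD Q lab T g : Finset _) := by
    rintro ⟨g, p⟩ - ⟨g', p'⟩ - hx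
    simp only [flipMap, Sigma.mk.injEq, heq_eq_eq] at hx
    obtain ⟨hx1, rfl⟩ := hx
    have := congrArg (fun g => sw g p) hx1
    simp only [sw_sw] at this
    rw [this]
  have h2 : ∑ x ∈ (Lj Q lab (j + 1)).sigma fun g => FD Q lab T g,
      (1 : ℝ) / (FU Q lab T (sw x.1 x.2)).card =
      ∑ y ∈ ((Lj Q lab (j + 1)).sigma fun g => FD Q lab T g).image flipMap,
        (1 : ℝ) / (FU Q lab T y.1).card := by
    rw [Finset.sum_image hinj]
    rfl
  have h3 : ((Lj Q lab (j + 1)).sigma fun g => FD Q lab T g).image flipMap ⊆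
      (Lj Q lab j).sigma fun g => FU Q lab T g := by
    intro y hy
    obtain ⟨⟨g, p⟩, hx, rfl⟩ := Finset.mem_image.1 hy
    obtain ⟨hg, hp⟩ := Finset.mem_sigma.1 hx
    obtain ⟨hg1, hg2⟩ := mem_Lj.1 hg
    obtain ⟨-, hp2, hp3⟩ := mem_FD.1 hp
    rw [Finset.mem_sigma]
    refine ⟨mem_Lj.2 ⟨sw_mem hg1 hp2, ?_⟩, (FU_sw hT hg1 hp).1⟩
    show des lab (sw g p) = j
    have h : des lab (sw g p) + 1 = j + 1 := hp3.trans hg2
    omega
  have h4 : ∑ y ∈ (Lj Q lab j).sigma fun g => FU Q lab T g,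
      (1 : ℝ) / (FU Q lab T y.1).card ≤ w Q lab j := by
    rw [Finset.sum_sigma, ← card_Lj, ← nsmul_one, ← Finset.sum_const]
    refine Finset.sum_le_sum fun g _ => ?_
    show ∑ _s ∈ FU Q lab T g, (1 : ℝ) / (FU Q lab T g).card ≤ 1
    rw [Finset.sum_const, nsmul_eq_mul]
    rcases Nat.eq_zero_or_pos (FU Q lab T g).card with h | h
    · rw [h]
      simp
    · have : ((FU Q lab T g).card : ℝ) ≠ 0 := by
        have : (0 : ℝ) < (FU Q lab T g).card := by exact_mod_cast h
        exact this.ne'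
      rw [mul_one_div_cancel this]
  rw [h1, h2]
  exact (Finset.sum_le_sum_of_subset_of_nonneg h3 fun _ _ _ => by positivity).trans h4

/-- down flips minus up flips on most words -/
theorem flip_le_R {N : ℕ} (Q : Rel (N + 1)) (lab : Fin (N + 1) → ℕ) {T : Finset (Fin N)}
    (hT : Sparse T) (j : ℕ) :
    (1 + 1 / ((N : ℝ) + 1)) * (((Lj Q lab (j + 1)).filter fun g =>
      (FU Q lab T g).card + 2 ≤ (FD Q lab T g).card).card : ℝ) ≤ w Q lab j := by
  classical
  refine le_trans ?_ (flip_R Q lab hT j)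
  rw [mul_comm, ← nsmul_eq_mul, ← Finset.sum_const]
  refine (Finset.sum_le_sum (f := fun _ => 1 + 1 / ((N : ℝ) + 1)) (g := fun g =>
    ((FD Q lab T g).card : ℝ) / ((FU Q lab T g).card + 1)) fun g hg => ?_).trans
    (Finset.sum_le_sum_of_subset_of_nonneg (Finset.filter_subset _ _) fun _ _ _ => by positivity)
  have h1 := (Finset.mem_filter.1 hg).2
  have h2 : (FU Q lab T g).card ≤ N := by
    have := Finset.card_le_univ (FU Q lab T g)
    simpa using this
  have h1' : ((FU Q lab T g).card : ℝ) + 2 ≤ (FD Q lab T g).card := by exact_mod_cast h1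
  have h2' : ((FU Q lab T g).card : ℝ) ≤ N := by exact_mod_cast h2
  have h3 : (1 : ℝ) / (N + 1) ≤ 1 / ((FU Q lab T g).card + 1) :=
    one_div_le_one_div_of_le (by positivity) (by linarith)
  have h4 : ((FU Q lab T g).card + 2 : ℝ) / ((FU Q lab T g).card + 1) =
      1 + 1 / ((FU Q lab T g).card + 1) := by
    field_simp
    ring
  calc 1 + 1 / ((N : ℝ) + 1) ≤ 1 + 1 / ((FU Q lab T g).card + 1) := by linarith
    _ = ((FU Q lab T g).card + 2 : ℝ) / ((FU Q lab T g).card + 1) := h4.symm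
    _ ≤ _ := div_le_div_of_nonneg_right h1' (by positivity)

/-- If all but `B` of the `w_(j+1)` words have `D ≥ U + 2` and `(N + 2) B ≤ w_(j+1)` then
`w_(j+1) ≤ w_j`. -/
theorem w_le_of_flip_R {N : ℕ} (Q : Rel (N + 1)) (lab : Fin (N + 1) → ℕ) {T : Finset (Fin N)}
    (hT : Sparse T) (j : ℕ) (hB : (N + 2) * ((Lj Q lab (j + 1)).filter fun g =>
      (FD Q lab T g).card ≤ (FU Q lab T g).card + 1).card ≤ w Q lab (j + 1)) :
    w Q lab (j + 1) ≤ w Q lab j := by
  classical
  have h1 := flip_le_R Q lab hT j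
  have h2 := Finset.card_filter_add_card_filter_not (s := Lj Q lab (j + 1))
    (fun g => (FU Q lab T g).card + 2 ≤ (FD Q lab T g).card)
  have h3 : (Lj Q lab (j + 1)).filter
      (fun g => ¬ (FU Q lab T g).card + 2 ≤ (FD Q lab T g).card) =
      (Lj Q lab (j + 1)).filter fun g => (FD Q lab T g).card ≤ (FU Q lab T g).card + 1 :=
    Finset.filter_congr fun g _ => by omega
  rw [h3, card_Lj] at h2
  set A := ((Lj Q lab (j + 1)).filter fun g => (FU Q lab T g).card + 2 ≤ (FD Q lab T g).card).card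
  set B := ((Lj Q lab (j + 1)).filter fun g => (FD Q lab T g).card ≤ (FU Q lab T g).card + 1).card
  have h4 : (A : ℝ) + B = w Q lab (j + 1) := by exact_mod_cast h2
  have h5 : ((N : ℝ) + 2) * B ≤ w Q lab (j + 1) := by exact_mod_cast hB
  have h6 : (w Q lab (j + 1) : ℝ) ≤ (1 + 1 / ((N : ℝ) + 1)) * A := by
    have h7 : (1 + 1 / ((N : ℝ) + 1)) = (N + 2) / (N + 1) := by field_simp; ring
    rw [h7, div_mul_eq_mul_div, le_div_iff₀ (by positivity)]
    nlinarith
  exact_mod_cast h6.trans h1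

/-- DOUBLE COUNTING, mirror image of `PH43/Flip`. Pairs `(g, p)`, `des g = j + 1`, `p ∈ dnT g`, against pairs `(g', p)`,
`des g' = j`, `p ∈ upT g'`, by `g' = sw g p`; `#upT g' = #upT g + 1` (`upT_sw`, `upT_sw_self`, `dnT_sw_self`). -/
theorem flip_ineq_R {N : ℕ} {Q : Rel (N + 1)} {lab : Fin (N + 1) → ℕ}
    {T : Finset (Fin N)} (hT : Sep T) (j : ℕ) :
    ∑ g ∈ Lj Q lab (j + 1),
        ((dnT Q lab T g).card : ℝ) / ((upT Q lab T g).card + 1) ≤ w Q lab j := by
  have h := flip_R Q lab (T := T) hT j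
  simpa only [upT_eq_FU, dnT_eq_FD] using h

open Classical in
/-- STEP. If `#down ≥ #up + 2` then `#down/(#up + 1) ≥ 1 + 1/(N + 1)`. So
`w_j ≥ (w_(j+1) - b)(1 + 1/(N+1)) ≥ w_(j+1)`. -/
theorem step_R {N : ℕ} {Q : Rel (N + 1)} {lab : Fin (N + 1) → ℕ}
    {T : Finset (Fin N)} (hT : Sep T) (j : ℕ)
    (hb : (N + 2) * ((LE Q).filter fun g => des lab g = j + 1 ∧
      (dnT Q lab T g).card ≤ (upT Q lab T g).card + 1).card ≤ w Q lab (j + 1)) :
    w Q lab (j + 1) ≤ w Q lab j := by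
  refine w_le_of_flip_R Q lab (T := T) hT j ?_
  have e : (Lj Q lab (j + 1)).filter (fun g => (FD Q lab T g).card ≤ (FU Q lab T g).card + 1) =
      (LE Q).filter fun g => des lab g = j + 1 ∧
        (dnT Q lab T g).card ≤ (upT Q lab T g).card + 1 := by
    ext g
    rw [Finset.mem_filter, Finset.mem_filter, mem_Lj, upT_eq_FU, dnT_eq_FD]
    tauto
  rw [e]
  exact hb

end Pool.NL25
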