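import Pool.Agent.NL25.Defs
import Pool.Agent.NL25.FlipX

set_option autoImplicit false

/-!
# NL25/BadLRS: `bad_left`, `bad_right` (helper76)
-/

namespace Pool.NL25

open Pool.HB45 Pool.HM63 Pool.PH43 Pool.SC25 Pool.SC45

theorem sqrt_exp_neg (s : ℝ) : Real.sqrt (Real.exp (-s)) = Real.exp (-(s / 2)) := by
  rw [show -s = -(s / 2) + -(s / 2) by ring, Real.exp_add, Real.sqrt_mul_self (Real.exp_pos _).le]

theorem gam_eq_S (s : ℝ) : 2 * Real.sqrt (Real.exp (-s)) / (1 + Real.exp (-s)) =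
    1 / Real.cosh (s / 2) := by
  rw [sqrt_exp_neg, Real.cosh_eq]
  have h1 : Real.exp (-s) = Real.exp (-(s / 2)) * Real.exp (-(s / 2)) := by
    rw [← Real.exp_add]
    congr 1
    ring
  have h2 : Real.exp (s / 2) * Real.exp (-(s / 2)) = 1 := by
    rw [← Real.exp_add, add_neg_cancel, Real.exp_zero]
  have h3 := Real.exp_pos (-(s / 2))
  have h4 := Real.exp_pos (s / 2)
  rw [h1, div_eq_div_iff (by positivity) (by positivity)]
  linear_combination h2

open Classical in
theorem bad_core {N m b : ℕ} (hm : m * (3 + 2) ≤ N + 1) {Q : Rel (N + 1)} {lab : Fin (N + 1) → ℕ}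
    (hn : Nat' Q lab) (s : ℝ) (hs : |s| ≤ 1 / 2) (A : ℝ)
    (hA : A ≤ Real.exp (|s| / 2) * ∑ g ∈ LE Q, Real.exp (-s) ^ des lab g *
      (2 * Real.sqrt (Real.exp (-s)) / (1 + Real.exp (-s))) ^
        ((upT Q lab (Tw hm) g).card + (dnT Q lab (Tw hm) g).card)) :
    Real.exp (s * N / 2) * A ≤
      Real.exp (|s| / 2) * (MG Q lab s * (1 - (1 - 1 / Real.cosh (s / 2)) / 768) ^ (m - b) +
        Real.exp (|s| * N / 2) * (((LE Q).filter fun g => b ≤ nbad hm Q g).card : ℝ)) := by
  rw [abs_le] at hs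
  have hs' : |s| ≤ 1 / 2 := abs_le.2 hs
  set r : ℝ := Real.exp (-s) with hr
  have hr0 : 0 < r := Real.exp_pos _
  have hr1 : 1 / 2 ≤ r := by
    have h1 := Real.add_one_le_exp (-s)
    rw [hr]
    linarith [hs.2]
  have hr2 : r ≤ 2 := by
    have h1 : r ≤ Real.exp (1 / 2) := by
      rw [hr]
      apply Real.exp_le_exp.2
      linarith [hs.1]
    have h2 : Real.exp (1 / 2) ^ 2 ≤ 2 ^ 2 := by
      rw [← Real.exp_nat_mul]
      have := Real.exp_one_lt_d9
      norm_num
      linarith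
    have h3 := abs_le_of_sq_le_sq' h2 (by norm_num)
    exact h1.trans h3.2
  set c : ℝ := 2 * Real.sqrt r / (1 + r) with hc
  have hcg : c = 1 / Real.cosh (s / 2) := gam_eq_S s
  have hc0 : 0 ≤ c := by positivity
  have hc1 : c ≤ 1 := by
    rw [hcg, div_le_one (Real.cosh_pos _)]
    exact Real.one_le_cosh _
  rw [← hcg]
  set η : ℝ := 1 - (1 - c) / 768 with hη
  have hη1 : η ≤ 1 := by
    rw [hη]
    linarith
  have hη0 : 0 ≤ η := by
    rw [hη]
    linarith
  have h3 := all_win_B hm hn r c hr1 hr2 hc0 hc1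
  have hbad : ∀ g ∈ (LE Q).filter (fun g => b ≤ nbad hm Q g),
      Real.exp (s * N / 2) * (r ^ des lab g * η ^ (m - nbad hm Q g)) ≤ Real.exp (|s| * N / 2) := by
    intro g _
    have h5 : η ^ (m - nbad hm Q g) ≤ 1 := pow_le_one₀ hη0 hη1
    have h6 : Real.exp (s * N / 2) * r ^ des lab g = Real.exp (s * Xf lab g / 2) := (exp_X lab s g).symm
    have h7 : Real.exp (s * Xf lab g / 2) ≤ Real.exp (|s| * N / 2) := by
      apply Real.exp_le_exp.2
      have h8 : s * Xf lab g ≤ |s| * N := by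
        calc s * Xf lab g ≤ |s * Xf lab g| := le_abs_self _
          _ = |s| * |Xf lab g| := abs_mul _ _
          _ ≤ |s| * N := mul_le_mul_of_nonneg_left (abs_Xf_le lab g) (abs_nonneg s)
      linarith
    calc Real.exp (s * N / 2) * (r ^ des lab g * η ^ (m - nbad hm Q g))
        = Real.exp (s * Xf lab g / 2) * η ^ (m - nbad hm Q g) := by rw [← mul_assoc, h6]
      _ ≤ Real.exp (s * Xf lab g / 2) * 1 := mul_le_mul_of_nonneg_left h5 (Real.exp_pos _).le
      _ ≤ _ := by rw [mul_one]; exact h7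
  have h4 : Real.exp (s * N / 2) * ∑ g ∈ LE Q, r ^ des lab g * η ^ (m - nbad hm Q g) ≤
      MG Q lab s * η ^ (m - b) +
        Real.exp (|s| * N / 2) * (((LE Q).filter fun g => b ≤ nbad hm Q g).card : ℝ) := by
    rw [← Finset.sum_filter_add_sum_filter_not (LE Q) (fun g => b ≤ nbad hm Q g), mul_add, add_comm]
    apply add_le_add
    · calc Real.exp (s * N / 2) *
            ∑ g ∈ (LE Q).filter (fun g => ¬ b ≤ nbad hm Q g), r ^ des lab g * η ^ (m - nbad hm Q g)
          ≤ Real.exp (s * N / 2) *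
            ∑ g ∈ (LE Q).filter (fun g => ¬ b ≤ nbad hm Q g), r ^ des lab g * η ^ (m - b) := by
            apply mul_le_mul_of_nonneg_left _ (Real.exp_pos _).le
            apply Finset.sum_le_sum
            intro g hg
            have hg2 := (Finset.mem_filter.1 hg).2
            apply mul_le_mul_of_nonneg_left _ (by positivity)
            exact pow_le_pow_of_le_one hη0 hη1 (by omega)
        _ ≤ Real.exp (s * N / 2) * ∑ g ∈ LE Q, r ^ des lab g * η ^ (m - b) := by
            apply mul_le_mul_of_nonneg_left _ (Real.exp_pos _).le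
            apply Finset.sum_le_sum_of_subset_of_nonneg (Finset.filter_subset _ _)
            intro g _ _
            positivity
        _ = MG Q lab s * η ^ (m - b) := by
            rw [MG_eq, ← Finset.sum_mul, ← mul_assoc]
            rfl
    · rw [Finset.mul_sum]
      calc ∑ g ∈ (LE Q).filter (fun g => b ≤ nbad hm Q g),
            Real.exp (s * N / 2) * (r ^ des lab g * η ^ (m - nbad hm Q g))
          ≤ ∑ _g ∈ (LE Q).filter (fun g => b ≤ nbad hm Q g), Real.exp (|s| * N / 2) :=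
            Finset.sum_le_sum hbad
        _ = _ := by rw [Finset.sum_const, nsmul_eq_mul, mul_comm]
  calc Real.exp (s * N / 2) * A
      ≤ Real.exp (s * N / 2) * (Real.exp (|s| / 2) *
          ∑ g ∈ LE Q, r ^ des lab g * η ^ (m - nbad hm Q g)) :=
        mul_le_mul_of_nonneg_left
          (hA.trans (mul_le_mul_of_nonneg_left h3 (Real.exp_pos _).le)) (Real.exp_pos _).le
    _ = Real.exp (|s| / 2) * (Real.exp (s * N / 2) *
          ∑ g ∈ LE Q, r ^ des lab g * η ^ (m - nbad hm Q g)) := by ring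
    _ ≤ _ := mul_le_mul_of_nonneg_left h4 (Real.exp_pos _).le

/-- the number of words of level `j` with a property, in terms of the tilted sum -/
theorem level_le {N j : ℕ} {Q : Rel (N + 1)} {lab : Fin (N + 1) → ℕ} (s : ℝ)
    (p : Equiv.Perm (Fin (N + 1)) → Prop) [DecidablePred p] :
    (((LE Q).filter fun g => des lab g = j ∧ p g).card : ℝ) * Real.exp (s * (N - 2 * j) / 2) ≤
      Real.exp (s * N / 2) * ∑ g ∈ (LE Q).filter (fun g => p g), Real.exp (-s) ^ des lab g := by
  have h0 : Real.exp (s * (N - 2 * j) / 2) = Real.exp (s * N / 2) * Real.exp (-s) ^ j := by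
    rw [← Real.exp_nat_mul, ← Real.exp_add]
    congr 1
    ring
  rw [h0, mul_left_comm]
  apply mul_le_mul_of_nonneg_left _ (Real.exp_pos _).le
  rw [← nsmul_eq_mul, ← Finset.sum_const]
  calc ∑ _g ∈ (LE Q).filter (fun g => des lab g = j ∧ p g), Real.exp (-s) ^ j
      = ∑ g ∈ (LE Q).filter (fun g => des lab g = j ∧ p g), Real.exp (-s) ^ des lab g := by
        apply Finset.sum_congr rfl
        intro g hg
        rw [(Finset.mem_filter.1 hg).2.1]
    _ ≤ _ := by
        apply Finset.sum_le_sum_of_subset_of_nonneg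
        · intro g hg
          rw [Finset.mem_filter] at hg ⊢
          exact ⟨hg.1, hg.2.2⟩
        · intro g _ _
          positivity

open Classical in
theorem bad_left_S {N m b j : ℕ} (hm : m * (3 + 2) ≤ N + 1) {Q : Rel (N + 1)} {lab : Fin (N + 1) → ℕ}
    (hn : Nat' Q lab) (s : ℝ) (hs : 0 < s) (hs1 : s ≤ 1 / 2) :
    (((LE Q).filter fun g => des lab g = j ∧
      (upT Q lab (Tw hm) g).card ≤ (dnT Q lab (Tw hm) g).card + 1).card : ℝ) *
        Real.exp (s * (N - 2 * j) / 2) ≤
      Real.exp (|s| / 2) * (MG Q lab s * (1 - (1 - 1 / Real.cosh (s / 2)) / 768) ^ (m - b) +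
        Real.exp (|s| * N / 2) * (((LE Q).filter fun g => b ≤ nbad hm Q g).card : ℝ)) := by
  have hr0 : 0 < Real.exp (-s) := Real.exp_pos _
  have hr1 : Real.exp (-s) ≤ 1 := by
    rw [Real.exp_le_one_iff]
    linarith
  have h1 := level_le (j := j) (Q := Q) (lab := lab) s (fun g =>
    (upT Q lab (Tw hm) g).card ≤ (dnT Q lab (Tw hm) g).card + 1)
  refine h1.trans (bad_core hm hn s (by rw [abs_of_pos hs]; exact hs1) _ ?_)
  have h2 := flip_exp (Q := Q) (lab := lab) (sep_Tw hm) (Real.exp (-s)) hr0 hr1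
  have h3 : Real.exp (|s| / 2) * Real.sqrt (Real.exp (-s)) = 1 := by
    rw [sqrt_exp_neg, abs_of_pos hs, ← Real.exp_add, add_neg_cancel, Real.exp_zero]
  have h4 := mul_le_mul_of_nonneg_left h2 (Real.exp_pos (|s| / 2)).le
  rw [← mul_assoc, h3, one_mul] at h4
  exact h4

open Classical in
theorem bad_right_S {N m b j : ℕ} (hm : m * (3 + 2) ≤ N + 1) {Q : Rel (N + 1)} {lab : Fin (N + 1) → ℕ}
    (hn : Nat' Q lab) (s : ℝ) (hs : s < 0) (hs1 : -(1 / 2) ≤ s) :
    (((LE Q).filter fun g => des lab g = j ∧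
      (dnT Q lab (Tw hm) g).card ≤ (upT Q lab (Tw hm) g).card + 1).card : ℝ) *
        Real.exp (s * (N - 2 * j) / 2) ≤
      Real.exp (|s| / 2) * (MG Q lab s * (1 - (1 - 1 / Real.cosh (s / 2)) / 768) ^ (m - b) +
        Real.exp (|s| * N / 2) * (((LE Q).filter fun g => b ≤ nbad hm Q g).card : ℝ)) := by
  have hr1 : 1 ≤ Real.exp (-s) := Real.one_le_exp (by linarith)
  have h1 := level_le (j := j) (Q := Q) (lab := lab) s (fun g =>
    (dnT Q lab (Tw hm) g).card ≤ (upT Q lab (Tw hm) g).card + 1)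
  refine h1.trans (bad_core hm hn s (by rw [abs_of_neg hs]; linarith) _ ?_)
  have h2 := flip_exp_R (Q := Q) (lab := lab) (sep_Tw hm) (Real.exp (-s)) hr1
  have h3 : Real.sqrt (Real.exp (-s)) = Real.exp (|s| / 2) := by
    rw [sqrt_exp_neg, abs_of_neg hs]
    congr 1
    ring
  rw [h3] at h2 ⊢
  exact h2

end Pool.NL25
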