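import Mathlib

set_option autoImplicit false

/-!
# NL25/EtaS: the power of eta
-/

namespace Pool.NL25

theorem cosh_ge_S (y : ℝ) : 1 + y ^ 2 / 2 ≤ Real.cosh y := by
  have h1 : (y / 2) ^ 2 ≤ Real.sinh (y / 2) ^ 2 := by
    rcases le_total 0 (y / 2) with h | h
    · exact pow_le_pow_left₀ h (Real.self_le_sinh_iff.2 h) 2
    · have h2 : -(y / 2) ≤ Real.sinh (-(y / 2)) := Real.self_le_sinh_iff.2 (by linarith)
      rw [Real.sinh_neg] at h2
      nlinarith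
  have h2 : Real.cosh y = Real.cosh (y / 2) ^ 2 + Real.sinh (y / 2) ^ 2 := by
    rw [← Real.cosh_two_mul]
    congr 1
    ring
  have h3 := Real.cosh_sq (y / 2)
  nlinarith

theorem eta_powS {N m b : ℕ} (s : ℝ) (hs : |s| ≤ 1 / 2) (hm : m = (N + 1) / 5) (hb : b = (N + 1) / 10 + 1)
    (hN : 1000 ≤ N) :
    (1 - (1 - 1 / Real.cosh (s / 2)) / 768) ^ (m - b) ≤ Real.exp (-(s ^ 2 * N / 140000)) := by
  have hc := cosh_ge_S (s / 2)
  have hc0 := Real.cosh_pos (s / 2)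
  have hs2 : s ^ 2 ≤ 1 / 4 := by
    have := pow_le_pow_left₀ (abs_nonneg s) hs 2
    rw [sq_abs] at this
    linarith
  have h1 : 1 / Real.cosh (s / 2) ≤ 1 - s ^ 2 / 16 := by
    rw [div_le_iff₀ hc0]
    have h2 : 0 ≤ s ^ 2 := sq_nonneg s
    have h3 : (1 - s ^ 2 / 16) * (1 + (s / 2) ^ 2 / 2) ≤ (1 - s ^ 2 / 16) * Real.cosh (s / 2) :=
      mul_le_mul_of_nonneg_left hc (by linarith)
    nlinarith
  have h0 : 0 ≤ 1 / Real.cosh (s / 2) := by positivity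
  have hb0 : 0 ≤ 1 - (1 - 1 / Real.cosh (s / 2)) / 768 := by linarith
  have h4 : 1 - (1 - 1 / Real.cosh (s / 2)) / 768 ≤ Real.exp (-(s ^ 2 / 12288)) := by
    have := Real.add_one_le_exp (-(s ^ 2 / 12288))
    linarith
  refine (pow_le_pow_left₀ hb0 h4 _).trans ?_
  rw [← Real.exp_nat_mul]
  refine Real.exp_le_exp.2 ?_
  have h5 : 10 * b ≤ (N + 1) + 10 := by omega
  have h6 : N + 1 ≤ 5 * m + 4 := by omega
  have h7 : b ≤ m := by omega
  have h8 : (N : ℝ) / 10 - 2 ≤ ((m - b : ℕ) : ℝ) := by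
    rw [Nat.cast_sub h7]
    have h5' : 10 * (b : ℝ) ≤ (N + 1) + 10 := by exact_mod_cast h5
    have h6' : (N : ℝ) + 1 ≤ 5 * m + 4 := by exact_mod_cast h6
    linarith
  have h9 : (1000 : ℝ) ≤ N := by exact_mod_cast hN
  have h10 : (N : ℝ) * (12288 / 140000) ≤ ((m - b : ℕ) : ℝ) := by
    have : (N : ℝ) * (12288 / 140000) ≤ N * (9 / 100) := by
      refine mul_le_mul_of_nonneg_left (by norm_num) (by linarith)
    linarith
  have h11 : s ^ 2 * ((N : ℝ) * (12288 / 140000)) ≤ s ^ 2 * ((m - b : ℕ) : ℝ) :=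
    mul_le_mul_of_nonneg_left h10 (sq_nonneg s)
  linarith

end Pool.NL25
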