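import Pool.Agent.NL25.Defs
import Pool.Agent.NL25.FlipX
import Pool.Agent.NL25.EtaS
import Pool.Agent.NL25.BadLRS

set_option autoImplicit false

/-!
# NL25/Bad2: few flips is rare in the tilt, both signs (STUB)
-/

namespace Pool.NL25

open Pool.HB45 Pool.HM63 Pool.PH43 Pool.SC25 Pool.SC45

/-- `2 √r/(1 + r) = 1/cosh (s/2)` for `r = e^(-s)` -/
theorem gam_eq (s : ℝ) : 2 * Real.sqrt (Real.exp (-s)) / (1 + Real.exp (-s)) =
    1 / Real.cosh (s / 2) :=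
  gam_eq_S s

open Classical in
/-- LEFT (`0 < s ≤ 1/2`). PROOF. `card * e^(s(N-2j)/2) = ∑ e^(sX/2)` over the set `≤ ∑_(up ≤ down + 1) e^(sX/2)`
`= e^(sN/2) ∑ r^des` (`exp_X`) `≤ e^(sN/2) r^(-1/2) ∑ r^des γ^(up + down)` (`flip_exp`)
`≤ e^(s/2) ∑ e^(sX/2) η^(m - nbad)` (`all_win_B`), `η = 1 - (1 - 1/cosh(s/2))/768`; words with `nbad < b`: `η^(m - b)`;
words with `nbad ≥ b`: `η^.. ≤ 1`, `e^(sX/2) ≤ e^(sN/2)`. -/
theorem bad_left {N m b j : ℕ} (hm : m * (3 + 2) ≤ N + 1) {Q : Rel (N + 1)} {lab : Fin (N + 1) → ℕ}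
    (hn : Nat' Q lab) (s : ℝ) (hs : 0 < s) (hs1 : s ≤ 1 / 2) :
    (((LE Q).filter fun g => des lab g = j ∧
      (upT Q lab (Tw hm) g).card ≤ (dnT Q lab (Tw hm) g).card + 1).card : ℝ) *
        Real.exp (s * (N - 2 * j) / 2) ≤
      Real.exp (|s| / 2) * (MG Q lab s * (1 - (1 - 1 / Real.cosh (s / 2)) / 768) ^ (m - b) +
        Real.exp (|s| * N / 2) * (((LE Q).filter fun g => b ≤ nbad hm Q g).card : ℝ)) :=
  bad_left_S hm hn s hs hs1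

open Classical in
/-- RIGHT (`-1/2 ≤ s < 0`, `r = e^(-s) ≥ 1`). PROOF. The same with `flip_exp_R`. -/
theorem bad_right {N m b j : ℕ} (hm : m * (3 + 2) ≤ N + 1) {Q : Rel (N + 1)} {lab : Fin (N + 1) → ℕ}
    (hn : Nat' Q lab) (s : ℝ) (hs : s < 0) (hs1 : -(1 / 2) ≤ s) :
    (((LE Q).filter fun g => des lab g = j ∧
      (dnT Q lab (Tw hm) g).card ≤ (upT Q lab (Tw hm) g).card + 1).card : ℝ) *
        Real.exp (s * (N - 2 * j) / 2) ≤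
      Real.exp (|s| / 2) * (MG Q lab s * (1 - (1 - 1 / Real.cosh (s / 2)) / 768) ^ (m - b) +
        Real.exp (|s| * N / 2) * (((LE Q).filter fun g => b ≤ nbad hm Q g).card : ℝ)) :=
  bad_right_S hm hn s hs hs1

/-- the power. PROOF. `1 - 1/cosh(s/2) ≥ s²/16` (`|s| ≤ 1/2`), so the base is `≤ exp (-s²/12288)`, and
`m - b ≥ N/10 - 2 ≥ 9 N/100`. -/
theorem eta_pow {N m b : ℕ} (s : ℝ) (hs : |s| ≤ 1 / 2) (hm : m = (N + 1) / 5) (hb : b = (N + 1) / 10 + 1)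
    (hN : 1000 ≤ N) :
    (1 - (1 - 1 / Real.cosh (s / 2)) / 768) ^ (m - b) ≤ Real.exp (-(s ^ 2 * N / 140000)) :=
  eta_powS s hs hm hb hN

end Pool.NL25
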