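import Pool.Agent.NL25.Rare
import Pool.Agent.NL25.Stein

set_option autoImplicit false

/-!
# NL25/BadMassS: the bad mass (proof of `bad_mass`)
-/

namespace Pool.NL25

open Pool.HB45 Pool.HM63 Pool.PH43 Pool.SC25 Pool.SC45

open Classical in
theorem bad_massS : ∃ c : ℝ, 0 < c ∧ ∃ N0 : ℕ, ∀ N ≥ N0, ∀ (h m b : ℕ) (hm : m * (3 + 2) ≤ N + 1)
    (Q : Rel (N + 1)) (κ lab : Fin (N + 1) → ℕ), 1 ≤ h → (h : ℝ) ≤ c * N → Lev h Q κ → Nat' Q lab →
    m = (N + 1) / 5 → b = (N + 1) / 10 + 1 → ∀ s : ℝ, |s| ≤ 1 / 400 →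
      Real.exp (|s| * N / 2) * (((LE Q).filter fun g => b ≤ nbad hm Q g).card : ℝ) ≤
        MG Q lab s * Real.exp (-(s ^ 2 * N / 140000)) := by
  obtain ⟨c, hc, N0, hN0⟩ := bad_zero
  refine ⟨min c 1, lt_min hc one_pos, N0, ?_⟩
  intro N hN h m b hm Q κ lab h1 hh hL hn _ hb s hs
  have hN' : (0 : ℝ) ≤ N := Nat.cast_nonneg N
  have hhc : (h : ℝ) ≤ c * N :=
    hh.trans (mul_le_mul_of_nonneg_right (min_le_left _ _) hN')
  have hhN : (h : ℝ) ≤ N := by
    have := hh.trans (mul_le_mul_of_nonneg_right (min_le_right c 1) hN')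
    linarith
  have hb' : (N : ℝ) / 10 ≤ b := by
    have e1 : N + 1 < 10 * b := by omega
    have e2 : ((N + 1 : ℕ) : ℝ) < ((10 * b : ℕ) : ℝ) := by exact_mod_cast e1
    push_cast at e2
    linarith
  have h2 := hN0 N hN h m b hm Q κ lab h1 hhc hL hn hb'
  have h3 := jensen hn s (Q := Q) (lab := lab)
  have h4 : 0 ≤ GG Q := GG_nonneg Q
  have h5 : GG Q ≤ N := (GG_le hL hn).trans hhN
  have hab := abs_nonneg s
  have h6 : -(|s| * N / 2) ≤ s * GG Q / 2 := by
    have e1 : -(|s| * GG Q) ≤ s * GG Q := by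
      have := mul_le_mul_of_nonneg_right (neg_abs_le s) h4
      linarith
    have e2 : |s| * GG Q ≤ |s| * N := mul_le_mul_of_nonneg_left h5 hab
    linarith
  have h7 : ((LE Q).card : ℝ) * Real.exp (-(|s| * N / 2)) ≤ MG Q lab s :=
    (mul_le_mul_of_nonneg_left (Real.exp_le_exp.2 h6) (Nat.cast_nonneg _)).trans h3
  have h8 : ((LE Q).card : ℝ) ≤ MG Q lab s * Real.exp (|s| * N / 2) := by
    have e1 : Real.exp (-(|s| * N / 2)) * Real.exp (|s| * N / 2) = 1 := by
      rw [← Real.exp_add]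
      simp
    calc ((LE Q).card : ℝ) = (LE Q).card * Real.exp (-(|s| * N / 2)) * Real.exp (|s| * N / 2) := by
          rw [mul_assoc, e1, mul_one]
      _ ≤ MG Q lab s * Real.exp (|s| * N / 2) :=
          mul_le_mul_of_nonneg_right h7 (Real.exp_pos _).le
  have h9 : |s| * N ≤ 1 / 400 * N := mul_le_mul_of_nonneg_right hs hN'
  have h10 : s ^ 2 * N ≤ 1 * N := by
    refine mul_le_mul_of_nonneg_right ?_ hN'
    rw [← sq_abs]
    nlinarith
  have hM := MG_pos hn s (Q := Q) (lab := lab)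
  calc Real.exp (|s| * N / 2) * (((LE Q).filter fun g => b ≤ nbad hm Q g).card : ℝ)
      ≤ Real.exp (|s| * N / 2) * (Real.exp (-(N / 200)) * (LE Q).card) :=
        mul_le_mul_of_nonneg_left h2 (Real.exp_pos _).le
    _ ≤ Real.exp (|s| * N / 2) * (Real.exp (-(N / 200)) *
        (MG Q lab s * Real.exp (|s| * N / 2))) :=
        mul_le_mul_of_nonneg_left (mul_le_mul_of_nonneg_left h8 (Real.exp_pos _).le)
          (Real.exp_pos _).le
    _ = MG Q lab s * Real.exp (|s| * N / 2 + -(N / 200) + |s| * N / 2) := by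
        rw [Real.exp_add, Real.exp_add]
        ring
    _ ≤ MG Q lab s * Real.exp (-(s ^ 2 * N / 140000)) :=
        mul_le_mul_of_nonneg_left (Real.exp_le_exp.2 (by linarith)) hM.le

end Pool.NL25
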