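import Pool.Agent.NL25.MeanS
import Pool.Agent.NL25.HdLog

set_option autoImplicit false

/-!
# NL25/EstAS: integration of the mean
-/

namespace Pool.NL25

open Pool.HB45 Pool.HM63 Pool.PH43 Pool.SC25 Pool.SC45

/-- mean value inequality for `log MG` -/
theorem log_of_meanS {N : ℕ} {Q : Rel (N + 1)} {lab : Fin (N + 1) → ℕ} (hn : Nat' Q lab)
    {s C : ℝ} (H : ∀ u : ℝ, |u| ≤ |s| → |mX Q lab u - GG Q - u * N / 6| ≤ C) :
    |Real.log (MG Q lab s / (LE Q).card) - (s * GG Q / 2 + s ^ 2 * N / 24)| ≤ C / 2 * |s| := by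
  set f : ℝ → ℝ := fun u => Real.log (MG Q lab u / (LE Q).card) - (u * GG Q / 2 + u ^ 2 * N / 24)
    with hf
  have hd : ∀ u ∈ Set.Icc (-|s|) |s|, HasDerivWithinAt f ((mX Q lab u - GG Q - u * N / 6) / 2)
      (Set.Icc (-|s|) |s|) u := by
    intro u _
    have h1 := hasDerivAt_log' hn u
    have h2 : HasDerivAt (fun u : ℝ => u * GG Q / 2 + u ^ 2 * N / 24)
        (GG Q / 2 + 2 * u * N / 24) u := by
      have a1 : HasDerivAt (fun u : ℝ => u * GG Q / 2) (1 * GG Q / 2) u :=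
        ((hasDerivAt_id u).mul_const _).div_const _
      have a2 : HasDerivAt (fun u : ℝ => u ^ 2 * N / 24) (2 * u * N / 24) u := by
        have a3 := ((hasDerivAt_pow 2 u).mul_const (N : ℝ)).div_const 24
        simpa using a3
      have a4 := a1.add a2
      rw [one_mul] at a4
      exact a4
    have h3 := (h1.sub h2).hasDerivWithinAt (s := Set.Icc (-|s|) |s|)
    have e : mX Q lab u / 2 - (GG Q / 2 + 2 * u * N / 24) =
        (mX Q lab u - GG Q - u * N / 6) / 2 := by ring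
    rw [e] at h3
    exact h3
  have hb : ∀ u ∈ Set.Icc (-|s|) |s|, ‖(mX Q lab u - GG Q - u * N / 6) / 2‖ ≤ C / 2 := by
    intro u hu
    have h1 := H u (abs_le.2 ⟨hu.1, hu.2⟩)
    rw [Real.norm_eq_abs, abs_div, abs_of_pos (by norm_num : (0 : ℝ) < 2)]
    linarith
  have h0 : (0 : ℝ) ∈ Set.Icc (-|s|) |s| := ⟨by linarith [abs_nonneg s], abs_nonneg s⟩
  have hs : s ∈ Set.Icc (-|s|) |s| := ⟨neg_abs_le s, le_abs_self s⟩
  have hmain := Convex.norm_image_sub_le_of_norm_hasDerivWithin_le hd hb (convex_Icc _ _) h0 hs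
  have hMG0 : MG Q lab 0 = (LE Q).card := by
    unfold MG
    simp
  have hf0 : f 0 = 0 := by
    rw [hf]
    simp only
    rw [hMG0, div_self (card_pos hn).ne', Real.log_one]
    ring
  rw [hf0, sub_zero, sub_zero, Real.norm_eq_abs, Real.norm_eq_abs] at hmain
  exact hmain

/-- `RE` from the estimate of the mean -/
theorem RE_of_meanS {N : ℕ} {Q : Rel (N + 1)} {lab : Fin (N + 1) → ℕ} (hn : Nat' Q lab)
    {ε s0 : ℝ} (hε : 0 ≤ ε)
    (H : ∀ u : ℝ, |u| ≤ s0 → |mX Q lab u - GG Q - u * N / 6| ≤ ε * (|u| * N + Real.sqrt N)) :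
    RE Q lab ε s0 := by
  intro s hs
  have hN0 : (0 : ℝ) ≤ N := Nat.cast_nonneg _
  have hsq : 0 ≤ Real.sqrt N := Real.sqrt_nonneg _
  have hsq2 : Real.sqrt N * Real.sqrt N = N := Real.mul_self_sqrt hN0
  have h1 := log_of_meanS hn (s := s) (C := ε * (|s| * N + Real.sqrt N)) (fun u hu =>
    (H u (hu.trans hs)).trans (mul_le_mul_of_nonneg_left
      (add_le_add (mul_le_mul_of_nonneg_right hu hN0) le_rfl) hε))
  refine h1.trans ?_
  have e1 : |s| * |s| = s ^ 2 := by rw [← sq, sq_abs]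
  have h2 : |s| * Real.sqrt N ≤ (s ^ 2 * N + 1) / 2 := by
    have h3 := sq_nonneg (|s| * Real.sqrt N - 1)
    have e2 : (|s| * Real.sqrt N - 1) ^ 2 = |s| * |s| * (Real.sqrt N * Real.sqrt N) -
        2 * (|s| * Real.sqrt N) + 1 := by ring
    rw [e2, e1, hsq2] at h3
    linarith
  have h4 : (|s| * N + Real.sqrt N) * |s| ≤ 2 * (s ^ 2 * N + 1) := by
    have e3 : (|s| * N + Real.sqrt N) * |s| = |s| * |s| * N + |s| * Real.sqrt N := by ring
    rw [e3, e1]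
    have h5 : 0 ≤ s ^ 2 * N := mul_nonneg (sq_nonneg s) hN0
    linarith
  calc ε * (|s| * N + Real.sqrt N) / 2 * |s| = ε / 2 * ((|s| * N + Real.sqrt N) * |s|) := by ring
    _ ≤ ε / 2 * (2 * (s ^ 2 * N + 1)) := mul_le_mul_of_nonneg_left h4 (by linarith)
    _ = ε * (s ^ 2 * N + 1) := by ring

/-- `real_estA` of NL25/Real2 -/
theorem real_estAS (ε k : ℝ) (hε : 0 < ε) (hk : 0 < k) (hkε : k ≤ ε / 28) : ∃ c : ℝ, 0 < c ∧
    ∃ s0 : ℝ, 0 < s0 ∧ ∃ N0 : ℕ, ∀ N ≥ N0, ∀ (h : ℕ)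
    (Q : Rel (N + 1)) (κ lab : Fin (N + 1) → ℕ), 1 ≤ h → (h : ℝ) ≤ c * N → Lev h Q κ → Nat' Q lab →
    Tr Q → (∀ s : ℝ, |s| ≤ k / 24 → |mA Q lab s - GG Q| ≤ 14 * k * |s| * N) → RE Q lab ε s0 := by
  obtain ⟨c, hc, s1, hs1, N0, H⟩ := mX_mA (ε / 2) (by linarith)
  refine ⟨c, hc, min s1 (k / 24), lt_min hs1 (by positivity), N0,
    fun N hN h Q κ lab h1 hh hκ hn hQ hA => RE_of_meanS hn hε.le fun u hu => ?_⟩
  have hN0 : (0 : ℝ) ≤ N := Nat.cast_nonneg _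
  have g1 := H N hN h Q κ lab h1 hh hκ hn hQ u (hu.trans (min_le_left _ _))
  have g2 := hA u (hu.trans (min_le_right _ _))
  have e : mX Q lab u - GG Q - u * N / 6 =
      (mX Q lab u - mA Q lab u - u * N / 6) + (mA Q lab u - GG Q) := by ring
  rw [e]
  refine (abs_add_le _ _).trans ?_
  have h3 : 0 ≤ |u| * N := mul_nonneg (abs_nonneg u) hN0
  have h4 : 14 * k * (|u| * N) ≤ ε / 2 * (|u| * N) :=
    mul_le_mul_of_nonneg_right (by linarith) h3
  have h5 : 0 ≤ ε * Real.sqrt N := mul_nonneg hε.le (Real.sqrt_nonneg _)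
  rw [mul_assoc] at g1 g2
  linarith

end Pool.NL25
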