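import Mathlib

set_option autoImplicit false

/-!
# NL25/LoopA: closing the loop (real numbers)
-/

namespace Pool.NL25

theorem loop_aux {ε1 N σ A Y T v : ℝ} (hε1 : 0 < ε1) (hε1' : ε1 ≤ 1) (hN : 0 < N)
    (hσ : 0 ≤ σ) (hA : 0 ≤ A) (hYA : Y ≤ A + σ * N / 5)
    (hT : T = σ * Y / 2) (hv : 0 < v) (hv2 : ε1 * v ^ 2 * N = 1 + T)
    (hva : v * A ≤ ε1 * v ^ 2 * N + 1 + T) (hT0 : 0 ≤ T) :
    A ^ 2 ≤ 8 * ε1 * N + 5 * ε1 * (σ * N) ^ 2 := by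
  have h1 : v * A ≤ 2 * (1 + T) := by linarith
  have h2 : (v * A) ^ 2 ≤ (2 * (1 + T)) ^ 2 := pow_le_pow_left₀ (mul_nonneg hv.le hA) h1 2
  have hH : 0 < 1 + T := by linarith
  -- multiply by `ε1 N`
  have h3 : (1 + T) * A ^ 2 ≤ (1 + T) * (4 * ε1 * N * (1 + T)) := by
    have h4 : ε1 * N * (v * A) ^ 2 ≤ ε1 * N * (2 * (1 + T)) ^ 2 :=
      mul_le_mul_of_nonneg_left h2 (mul_nonneg hε1.le hN.le)
    have e1 : ε1 * N * (v * A) ^ 2 = (ε1 * v ^ 2 * N) * A ^ 2 := by ring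
    rw [e1, hv2] at h4
    linarith [h4, (by ring : ε1 * N * (2 * (1 + T)) ^ 2 = (1 + T) * (4 * ε1 * N * (1 + T)))]
  have h5 : A ^ 2 ≤ 4 * ε1 * N * (1 + T) := le_of_mul_le_mul_left h3 hH
  have h6 : T ≤ σ * (A + σ * N / 5) / 2 := by
    rw [hT]
    have := mul_le_mul_of_nonneg_left hYA hσ
    linarith
  have h7 : 4 * ε1 * N * (1 + T) ≤ 4 * ε1 * N * (1 + σ * (A + σ * N / 5) / 2) :=
    mul_le_mul_of_nonneg_left (by linarith) (by positivity)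
  have h8 : 4 * ε1 * N * (1 + σ * (A + σ * N / 5) / 2)
      = 4 * ε1 * N + 2 * (ε1 * (σ * N)) * A + 2 / 5 * ε1 * (σ * N) ^ 2 := by ring
  have h9 : 2 * (ε1 * (σ * N)) * A ≤ A ^ 2 / 2 + 2 * (ε1 * (σ * N)) ^ 2 := by
    nlinarith [sq_nonneg (A - 2 * (ε1 * (σ * N)))]
  have h10 : (ε1 * (σ * N)) ^ 2 ≤ ε1 * (σ * N) ^ 2 := by
    have : ε1 ^ 2 ≤ ε1 := by nlinarith
    rw [mul_pow]
    exact mul_le_mul_of_nonneg_right this (sq_nonneg _)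
  have h11 : A ^ 2 ≤ 4 * ε1 * N + (A ^ 2 / 2 + 2 * (ε1 * (σ * N) ^ 2))
      + 2 / 5 * ε1 * (σ * N) ^ 2 := by
    linarith
  have h12 : 0 ≤ ε1 * (σ * N) ^ 2 := by positivity
  linarith

theorem loop' (ε : ℝ) (hε : 0 < ε) : ∃ ε1 : ℝ, 0 < ε1 ∧ ∀ v0 : ℝ, 0 < v0 → ∃ s0 : ℝ, 0 < s0 ∧
    ∃ N0 : ℝ, ∀ N s a y : ℝ, N0 ≤ N → |s| ≤ s0 → |y| ≤ 2 * N →
    |y - a - s * N / 6| ≤ 1 / 100 * |s| * N →
    (∀ v : ℝ, 0 < v → v ≤ v0 → v * |a| ≤ ε1 * v ^ 2 * N + 1 + s * y / 2) →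
    |a| ≤ ε * (|s| * N + Real.sqrt N) := by
  obtain ⟨ε1, hε1, hε1', hε1ε⟩ : ∃ ε1 : ℝ, 0 < ε1 ∧ ε1 ≤ 1 ∧ 8 * ε1 ≤ ε ^ 2 := by
    refine ⟨min 1 (ε ^ 2 / 8), lt_min one_pos (by positivity), min_le_left _ _, ?_⟩
    have := min_le_right 1 (ε ^ 2 / 8)
    linarith
  refine ⟨ε1, hε1, fun v0 hv0 => ⟨ε1 * v0 ^ 2 / 2, by positivity, 2 / (ε1 * v0 ^ 2), ?_⟩⟩
  intro N s a y hN hs hy hya hv
  have hN0 : 0 < N := lt_of_lt_of_le (by positivity) hN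
  have hs0 := abs_nonneg s
  have hy0 := abs_nonneg y
  have ha0 := abs_nonneg a
  obtain ⟨T, hT⟩ : ∃ T : ℝ, T = |s| * |y| / 2 := ⟨_, rfl⟩
  have hT0 : 0 ≤ T := by rw [hT]; positivity
  have hTs : s * y / 2 ≤ T := by
    rw [hT, ← abs_mul]
    have := le_abs_self (s * y)
    linarith
  obtain ⟨v, hvdef⟩ : ∃ v : ℝ, v = Real.sqrt ((1 + T) / (ε1 * N)) := ⟨_, rfl⟩
  have hεN : 0 < ε1 * N := mul_pos hε1 hN0
  have hpos : 0 < (1 + T) / (ε1 * N) := div_pos (by linarith) hεN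
  have hv0' : 0 < v := by rw [hvdef]; exact Real.sqrt_pos.2 hpos
  have hv2 : v ^ 2 = (1 + T) / (ε1 * N) := by rw [hvdef]; exact Real.sq_sqrt hpos.le
  have hv2' : ε1 * v ^ 2 * N = 1 + T := by
    rw [hv2]
    field_simp
  have hvle : v ≤ v0 := by
    rw [hvdef]
    apply Real.sqrt_le_iff.2 ⟨hv0.le, ?_⟩
    rw [div_le_iff₀ hεN]
    have h1 : 1 ≤ v0 ^ 2 * (ε1 * N) / 2 := by
      rw [div_le_iff₀ (by positivity)] at hN
      linarith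
    have h2 : T ≤ |s| * N := by
      rw [hT]
      have := mul_le_mul_of_nonneg_left hy hs0
      linarith
    have h3 : |s| * N ≤ ε1 * v0 ^ 2 / 2 * N := mul_le_mul_of_nonneg_right hs hN0.le
    linarith [(by ring : v0 ^ 2 * (ε1 * N) / 2 = ε1 * v0 ^ 2 / 2 * N)]
  have hYA : |y| ≤ |a| + |s| * N / 5 := by
    have h1 : y = (y - a - s * N / 6) + a + s * N / 6 := by ring
    have h2 : |y| ≤ |y - a - s * N / 6| + |a| + |s * N / 6| := by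
      calc |y| = |(y - a - s * N / 6) + a + s * N / 6| := by rw [← h1]
        _ ≤ |(y - a - s * N / 6) + a| + |s * N / 6| := abs_add_le _ _
        _ ≤ |y - a - s * N / 6| + |a| + |s * N / 6| := by
            have := abs_add_le (y - a - s * N / 6) a
            linarith
    have h3 : |s * N / 6| = |s| * N / 6 := by
      rw [abs_div, abs_mul, abs_of_pos hN0, abs_of_pos (by norm_num : (0 : ℝ) < 6)]
    rw [h3] at h2
    have h4 : 0 ≤ |s| * N := by positivity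
    linarith
  have hmain := loop_aux hε1 hε1' hN0 hs0 ha0 hYA hT hv0' hv2'
    (by have := hv v hv0' hvle; linarith) hT0
  have hsq : Real.sqrt N ^ 2 = N := Real.sq_sqrt hN0.le
  have hsq0 := Real.sqrt_nonneg N
  apply le_of_sq_le_sq _ (by positivity)
  have h5 : 8 * ε1 * N ≤ ε ^ 2 * N := mul_le_mul_of_nonneg_right hε1ε hN0.le
  have h6 : 5 * ε1 * (|s| * N) ^ 2 ≤ ε ^ 2 * (|s| * N) ^ 2 :=
    mul_le_mul_of_nonneg_right (by linarith) (sq_nonneg _)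
  have h7 : (ε * (|s| * N + Real.sqrt N)) ^ 2
      = ε ^ 2 * (|s| * N) ^ 2 + ε ^ 2 * Real.sqrt N ^ 2 + 2 * ε ^ 2 * (|s| * N * Real.sqrt N) := by
    ring
  rw [h7, hsq]
  have h8 : 0 ≤ 2 * ε ^ 2 * (|s| * N * Real.sqrt N) := by positivity
  linarith

end Pool.NL25
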