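import Mathlib

set_option autoImplicit false

/-!
# NL25/NearT: numbers for `left_near` and `right_near` (helper47)
-/

namespace Pool.NL25

/-- the numbers of the tilt: `t = y/((1/12 - δ) N)`, `δ = 10^(-6)` -/
theorem near_tilt (s0 : ℝ) (N : ℕ) (hN : Real.exp 1000000 ≤ N) (y : ℝ)
    (hy1 : 100 * Real.sqrt (N * Real.log N) ≤ y) (hy2 : y ≤ min (1 / 10000) (s0 / 20) * N) :
    ∃ t : ℝ, 0 < t ∧ t * ((1 / 12 - 1 / 1000000) * N) = y ∧ t ≤ 1 / 400 ∧
      t * (1 + 12 * (1 / 1000000)) ≤ s0 ∧ 1 / (1 / 1000000 : ℝ) ^ 2 ≤ t ^ 2 * N ∧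
      1000000 * Real.log N ≤ t ^ 2 * N := by
  have hNpos : (0 : ℝ) < N := lt_of_lt_of_le (Real.exp_pos _) hN
  have hlog : 1000000 ≤ Real.log N := by
    rw [Real.le_log_iff_exp_le hNpos]
    exact hN
  have hNl : 0 < N * Real.log N := mul_pos hNpos (by linarith)
  have hsq : 0 < Real.sqrt (N * Real.log N) := Real.sqrt_pos.2 hNl
  have hy0 : 0 < y := by linarith
  have hysq : 10000 * (N * Real.log N) ≤ y ^ 2 := by
    have h1 : (100 * Real.sqrt (N * Real.log N)) ^ 2 ≤ y ^ 2 :=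
      pow_le_pow_left₀ (by positivity) hy1 2
    rw [mul_pow, Real.sq_sqrt hNl.le] at h1
    linarith
  have hD : (0 : ℝ) < (1 / 12 - 1 / 1000000) * N := mul_pos (by norm_num) hNpos
  obtain ⟨t, ht⟩ : ∃ t : ℝ, t = y / ((1 / 12 - 1 / 1000000) * N) := ⟨_, rfl⟩
  have htD : t * ((1 / 12 - 1 / 1000000) * N) = y := by
    rw [ht]
    exact div_mul_cancel₀ _ hD.ne'
  have ht0 : 0 < t := by rw [ht]; positivity
  have hmin1 : y ≤ 1 / 10000 * N :=
    hy2.trans (mul_le_mul_of_nonneg_right (min_le_left _ _) hNpos.le)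
  have hmin2 : y ≤ s0 / 20 * N :=
    hy2.trans (mul_le_mul_of_nonneg_right (min_le_right _ _) hNpos.le)
  have ht13 : t * N ≤ 13 * y := by nlinarith
  have ht12 : 12 * y ≤ t * N := by nlinarith
  have hb1 : t ≤ 13 / 10000 := by
    have : t * N ≤ 13 / 10000 * N := by linarith
    exact le_of_mul_le_mul_right this hNpos
  have hb2 : t ≤ 13 / 20 * s0 := by
    have : t * N ≤ 13 / 20 * s0 * N := by linarith
    exact le_of_mul_le_mul_right this hNpos
  have hb3 : 1440000 * Real.log N ≤ t ^ 2 * N := by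
    have h1 : (12 * y) ^ 2 ≤ (t * N) ^ 2 := pow_le_pow_left₀ (by positivity) ht12 2
    have h2 : 1440000 * Real.log N * N ≤ t ^ 2 * N * N := by
      calc 1440000 * Real.log N * N = 144 * (10000 * (N * Real.log N)) := by ring
        _ ≤ 144 * y ^ 2 := by linarith
        _ = (12 * y) ^ 2 := by ring
        _ ≤ (t * N) ^ 2 := h1
        _ = t ^ 2 * N * N := by ring
    exact le_of_mul_le_mul_right h2 hNpos
  refine ⟨t, ht0, htD, by linarith, by nlinarith, ?_, by linarith⟩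
  have : (1 : ℝ) / (1 / 1000000) ^ 2 = 1000000000000 := by norm_num
  rw [this]
  linarith

/-- the comparison: from the bad mass to `(N + 2) #bad ≤ w` -/
theorem near_fin (N : ℕ) (B W E M s : ℝ) (hE : 0 < E) (hM : 0 ≤ M)
    (hnum : 4 * ((N : ℝ) + 1) * (N + 2) * Real.exp (|s| / 2) *
      Real.exp (2 * (1 / 1000000) * s ^ 2 * N) * Real.exp (-(s ^ 2 * N / 140000)) ≤ 1)
    (hbad : B * E ≤ Real.exp (|s| / 2) * (M * Real.exp (-(s ^ 2 * N / 140000)) +
      M * Real.exp (-(s ^ 2 * N / 140000))))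
    (hlow : M * Real.exp (-(2 * (1 / 1000000) * s ^ 2 * N)) ≤ 2 * ((N : ℝ) + 1) * (W * E)) :
    ((N : ℝ) + 2) * B ≤ W := by
  have h1 : Real.exp (2 * (1 / 1000000) * s ^ 2 * N) *
      Real.exp (-(2 * (1 / 1000000) * s ^ 2 * N)) = 1 := by
    rw [← Real.exp_add, add_neg_cancel, Real.exp_zero]
  have hp : 0 < Real.exp (-(2 * (1 / 1000000) * s ^ 2 * (N : ℝ))) := Real.exp_pos _
  have h2 : 4 * ((N : ℝ) + 1) * (N + 2) * Real.exp (|s| / 2) *
      Real.exp (-(s ^ 2 * N / 140000)) ≤ Real.exp (-(2 * (1 / 1000000) * s ^ 2 * N)) := by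
    have h3 := mul_le_mul_of_nonneg_right hnum hp.le
    calc 4 * ((N : ℝ) + 1) * (N + 2) * Real.exp (|s| / 2) * Real.exp (-(s ^ 2 * N / 140000))
        = 4 * ((N : ℝ) + 1) * (N + 2) * Real.exp (|s| / 2) * Real.exp (-(s ^ 2 * N / 140000)) *
          (Real.exp (2 * (1 / 1000000) * s ^ 2 * N) *
            Real.exp (-(2 * (1 / 1000000) * s ^ 2 * N))) := by rw [h1, mul_one]
      _ = 4 * ((N : ℝ) + 1) * (N + 2) * Real.exp (|s| / 2) *
          Real.exp (2 * (1 / 1000000) * s ^ 2 * N) * Real.exp (-(s ^ 2 * N / 140000)) *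
            Real.exp (-(2 * (1 / 1000000) * s ^ 2 * N)) := by ring
      _ ≤ 1 * Real.exp (-(2 * (1 / 1000000) * s ^ 2 * N)) := h3
      _ = _ := one_mul _
  have h4 : 2 * ((N : ℝ) + 1) * E * (((N : ℝ) + 2) * B) ≤ 2 * ((N : ℝ) + 1) * E * W := by
    calc 2 * ((N : ℝ) + 1) * E * (((N : ℝ) + 2) * B) = 2 * ((N : ℝ) + 1) * (N + 2) * (B * E) := by ring
      _ ≤ 2 * ((N : ℝ) + 1) * (N + 2) * (Real.exp (|s| / 2) * (M * Real.exp (-(s ^ 2 * N / 140000)) +
          M * Real.exp (-(s ^ 2 * N / 140000)))) := mul_le_mul_of_nonneg_left hbad (by positivity)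
      _ = M * (4 * ((N : ℝ) + 1) * (N + 2) * Real.exp (|s| / 2) *
          Real.exp (-(s ^ 2 * N / 140000))) := by ring
      _ ≤ M * Real.exp (-(2 * (1 / 1000000) * s ^ 2 * N)) := mul_le_mul_of_nonneg_left h2 hM
      _ ≤ 2 * ((N : ℝ) + 1) * (W * E) := hlow
      _ = _ := by ring
  exact le_of_mul_le_mul_left h4 (by positivity)

end Pool.NL25
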