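import Mathlib

set_option autoImplicit false

/-!
# NL25/NumNearS24: proof of `num_near` (helper24)
-/

namespace Pool.NL25

theorem num_nearS24 (N : ℕ) (hN : 3 ≤ N) (s : ℝ) (hs : |s| ≤ 1 / 2)
    (h : 1000000 * Real.log N ≤ s ^ 2 * N) :
    4 * ((N : ℝ) + 1) * (N + 2) * Real.exp (|s| / 2) * Real.exp (2 * (1 / 1000000) * s ^ 2 * N) *
      Real.exp (-(s ^ 2 * N / 140000)) ≤ 1 := by
  have hN3 : (3 : ℝ) ≤ N := by exact_mod_cast hN
  have hN0 : (0 : ℝ) < N := by linarith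
  have h1 : Real.exp (|s| / 2) ≤ 2 := by
    have h2 : Real.exp (|s| / 2) ≤ Real.exp (1 / 4) := Real.exp_le_exp.2 (by linarith)
    have h3 : Real.exp (1 / 4) ≤ 2 := by
      have h4 : Real.exp (1 / 4) ^ 4 = Real.exp 1 := by
        rw [← Real.exp_nat_mul]
        norm_num
      have h5 : Real.exp 1 < 2.7182818286 := Real.exp_one_lt_d9
      by_contra hc
      push Not at hc
      have h6 : (2 : ℝ) ^ 4 ≤ Real.exp (1 / 4) ^ 4 :=
        pow_le_pow_left₀ (by norm_num) hc.le 4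
      rw [h4] at h6
      norm_num at h6 h5
      linarith
    linarith
  have h2 : Real.exp (2 * (1 / 1000000) * s ^ 2 * N) * Real.exp (-(s ^ 2 * N / 140000)) ≤
      1 / (N : ℝ) ^ 5 := by
    rw [← Real.exp_add]
    have h3 : 2 * (1 / 1000000) * s ^ 2 * (N : ℝ) + -(s ^ 2 * N / 140000) ≤ -(5 * Real.log N) := by
      have h4 : 0 ≤ s ^ 2 * (N : ℝ) := by positivity
      nlinarith
    have h5 : Real.exp (-(5 * Real.log N)) = 1 / (N : ℝ) ^ 5 := by
      rw [Real.exp_neg, show 5 * Real.log (N : ℝ) = Real.log ((N : ℝ) ^ 5) by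
        rw [Real.log_pow]; norm_num, Real.exp_log (by positivity)]
      simp
    rw [← h5]
    exact Real.exp_le_exp.2 h3
  have h3 : 8 * ((N : ℝ) + 1) * (N + 2) ≤ (N : ℝ) ^ 5 := by
    have h4 : (N : ℝ) + 1 ≤ 4 / 3 * N := by linarith
    have h5 : (N : ℝ) + 2 ≤ 5 / 3 * N := by linarith
    have h6 : 8 * ((N : ℝ) + 1) * (N + 2) ≤ 8 * (4 / 3 * N) * (5 / 3 * N) := by
      apply mul_le_mul (by linarith) h5 (by linarith) (by positivity)
    have h7 : (27 : ℝ) ≤ (N : ℝ) ^ 3 := by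
      have := pow_le_pow_left₀ (by norm_num : (0 : ℝ) ≤ 3) hN3 3
      norm_num at this
      linarith
    have h8 : 27 * (N : ℝ) ^ 2 ≤ (N : ℝ) ^ 3 * (N : ℝ) ^ 2 :=
      mul_le_mul_of_nonneg_right h7 (by positivity)
    nlinarith [sq_nonneg (N : ℝ)]
  have h4 : 4 * ((N : ℝ) + 1) * (N + 2) * Real.exp (|s| / 2) ≤ (N : ℝ) ^ 5 := by
    calc 4 * ((N : ℝ) + 1) * (N + 2) * Real.exp (|s| / 2)
        ≤ 4 * ((N : ℝ) + 1) * (N + 2) * 2 := mul_le_mul_of_nonneg_left h1 (by positivity)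
      _ = 8 * ((N : ℝ) + 1) * (N + 2) := by ring
      _ ≤ _ := h3
  rw [mul_assoc (4 * ((N : ℝ) + 1) * (N + 2) * Real.exp (|s| / 2))]
  calc 4 * ((N : ℝ) + 1) * (N + 2) * Real.exp (|s| / 2) *
        (Real.exp (2 * (1 / 1000000) * s ^ 2 * N) * Real.exp (-(s ^ 2 * N / 140000)))
      ≤ (N : ℝ) ^ 5 * (1 / (N : ℝ) ^ 5) :=
        mul_le_mul h4 h2 (by positivity) (by positivity)
    _ = 1 := by
        rw [mul_one_div, div_self (by positivity)]

end Pool.NL25
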