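import Pool.Agent.NL25.Conc2
import Pool.Agent.NL25.FlipR
import Pool.Agent.NL25.Bad2
import Pool.Agent.NL25.Rare
import Pool.Agent.NL25.NearT
import Pool.Agent.NL25.NumNearS24
import Pool.Agent.NL25.BadMassS

set_option autoImplicit false

/-!
# NL25/Near: flips on both sides of the mean (STUB)
-/

namespace Pool.NL25

open Pool.HB45 Pool.HM63 Pool.PH43 Pool.SC25 Pool.SC45

/-- NUMBERS. `4 (N+1)(N+2) e^(|s|/2) e^(2 δ s² N) e^(-s² N/140000) ≤ 1`, `δ = 10^(-6)`, if `s² N ≥ 10^6 log N`. PROOF.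
`1/140000 - 2/10^6 ≥ 1/200000`; `e^(1/4) ≤ 2`; `N^5 ≥ 8 (N+1)(N+2)` for `N ≥ 3`. -/
theorem num_near (N : ℕ) (hN : 3 ≤ N) (s : ℝ) (hs : |s| ≤ 1 / 2) (h : 1000000 * Real.log N ≤ s ^ 2 * N) :
    4 * ((N : ℝ) + 1) * (N + 2) * Real.exp (|s| / 2) * Real.exp (2 * (1 / 1000000) * s ^ 2 * N) *
      Real.exp (-(s ^ 2 * N / 140000)) ≤ 1 :=
  num_nearS24 N hN s hs h

open Classical in
/-- THE BAD MASS against `MG`, `m = (N+1)/5`, `b = (N+1)/10 + 1`, `|s| ≤ 1/400`. PROOF. `bad_zero`, `jensen`: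
`MG ≥ #LE e^(s GG/2) ≥ #LE e^(-|s| N/2)`, so `e^(|s|N/2) #bad ≤ MG e^(|s| N - N/200) ≤ MG e^(-N/400)
≤ MG e^(-s² N/140000)`. -/
theorem bad_mass : ∃ c : ℝ, 0 < c ∧ ∃ N0 : ℕ, ∀ N ≥ N0, ∀ (h m b : ℕ) (hm : m * (3 + 2) ≤ N + 1)
    (Q : Rel (N + 1)) (κ lab : Fin (N + 1) → ℕ), 1 ≤ h → (h : ℝ) ≤ c * N → Lev h Q κ → Nat' Q lab →
    m = (N + 1) / 5 → b = (N + 1) / 10 + 1 → ∀ s : ℝ, |s| ≤ 1 / 400 →
      Real.exp (|s| * N / 2) * (((LE Q).filter fun g => b ≤ nbad hm Q g).card : ℝ) ≤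
        MG Q lab s * Real.exp (-(s ^ 2 * N / 140000)) :=
  bad_massS

open Classical in
/-- FLIPS LEFT OF THE MEAN. `μ = (N - GG)/2`, `y = μ - j`. PROOF. `δ = 10^(-6)`, `s = y/((1/12 - δ) N) > 0`, so
`j = (N - (GG + sN/6))/2 + δ s N` and `s ≥ 12 y/N`, `s ≤ 13 y/N ≤ 13 c5` (`c5 = min (1/10000) (s0/20)`);
`s² N ≥ 144 * 10000 log N ≥ 10^6 log N`, and `≥ 1/δ²` for `N ≥ N0`. `lower_left`, `bad_left`, `bad_mass`, `eta_pow`:
`#bad_j e^(s(N-2j)/2) ≤ 2 e^(|s|/2) MG e^(-s²N/140000)`, `num_near`: `(N + 2) #bad_j ≤ w_j`; `SC25.step` with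
`T = Tw hm` (`sep_Tw`). -/
theorem left_near (s0 : ℝ) (hs0 : 0 < s0) : ∃ c : ℝ, 0 < c ∧ ∃ c5 : ℝ, 0 < c5 ∧ ∃ N0 : ℕ, ∀ N ≥ N0,
    ∀ (h : ℕ) (Q : Rel (N + 1)) (κ lab : Fin (N + 1) → ℕ), 1 ≤ h → (h : ℝ) ≤ c * N → Lev h Q κ →
    Nat' Q lab → RE Q lab (1 / 10 ^ 12) s0 → ∀ j : ℕ,
    100 * Real.sqrt (N * Real.log N) ≤ (N - GG Q) / 2 - j → (N - GG Q) / 2 - j ≤ c5 * N →
    (∀ i ≤ j, w Q lab i ≤ w Q lab j) → w Q lab j ≤ w Q lab (j + 1) := by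
  obtain ⟨c, hc, N1, hN1⟩ := bad_mass
  obtain ⟨N3, hN3⟩ : ∃ N3 : ℕ, Real.exp 1000000 ≤ N3 := exists_nat_ge _
  refine ⟨c, hc, min (1 / 10000) (s0 / 20), lt_min (by norm_num) (by positivity),
    max N1 (N3 + 1000), fun N hN h Q κ lab hh hhc hκ hn hRE j hj1 hj2 hdec => ?_⟩
  have hNN1 : N1 ≤ N := (le_max_left _ _).trans hN
  have hN2 : N3 + 1000 ≤ N := (le_max_right _ _).trans hN
  have hNe : Real.exp 1000000 ≤ N := hN3.trans (Nat.cast_le.2 (by omega))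
  have hN1000 : 1000 ≤ N := by omega
  obtain ⟨t, ht0, htD, ht1, ht2, ht3, ht4⟩ := near_tilt s0 N hNe _ hj1 hj2
  obtain ⟨s, hs⟩ : ∃ s : ℝ, s = t := ⟨_, rfl⟩
  have hsabs : |s| = t := by rw [hs, abs_of_pos ht0]
  have hssq : s ^ 2 = t ^ 2 := by rw [hs]
  have hspos : 0 < s := by rw [hs]; exact ht0
  set m : ℕ := (N + 1) / 5 with hm0
  set b : ℕ := (N + 1) / 10 + 1 with hb0
  have hm : m * (3 + 2) ≤ N + 1 := Nat.div_mul_le_self _ _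
  have hlow := lower_left (Q := Q) (lab := lab) (j := j) hn (δ := 1 / 1000000)
    (ε := 1 / 10 ^ 12) (s0 := s0) (s := s) (by norm_num) (by norm_num) (by norm_num) (by norm_num)
    hRE (by rw [hsabs]; exact ht2) (by rw [hssq]; exact ht3) hspos (by
      rw [hs]
      linarith) hdec
  have hbad := bad_left (b := b) (j := j) hm hn s hspos (by rw [hs]; linarith)
  have heta := eta_pow (m := m) (b := b) s (by rw [hsabs]; linarith) hm0 hb0 hN1000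
  have hmass := hN1 N hNN1 h m b hm Q κ lab hh hhc hκ hn hm0 hb0 s (by rw [hsabs]; exact ht1)
  have hnum := num_near N (by omega) s (by rw [hsabs]; linarith) (by rw [hssq]; exact ht4)
  have hMG := (MG_pos (Q := Q) hn s).le
  refine step hn (sep_Tw hm) j ?_
  have hfin := near_fin N _ (w Q lab j : ℝ) (Real.exp (s * (N - 2 * (j : ℝ)) / 2))
    (MG Q lab s) s (Real.exp_pos _) hMG hnum (hbad.trans ?_) hlow
  · exact_mod_cast hfin
  · refine mul_le_mul_of_nonneg_left (add_le_add ?_ hmass) (Real.exp_pos _).le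
    exact mul_le_mul_of_nonneg_left heta hMG

open Classical in
/-- FLIPS RIGHT OF THE MEAN. `y = j + 1 - μ`, `s = -y/((1/12 - δ) N) < 0`. PROOF. The same with `lower_right`, `bad_right`
(at the level `j + 1`), `step_R`. -/
theorem right_near (s0 : ℝ) (hs0 : 0 < s0) : ∃ c : ℝ, 0 < c ∧ ∃ c5 : ℝ, 0 < c5 ∧ ∃ N0 : ℕ, ∀ N ≥ N0,
    ∀ (h : ℕ) (Q : Rel (N + 1)) (κ lab : Fin (N + 1) → ℕ), 1 ≤ h → (h : ℝ) ≤ c * N → Lev h Q κ →
    Nat' Q lab → RE Q lab (1 / 10 ^ 12) s0 → ∀ j : ℕ,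
    100 * Real.sqrt (N * Real.log N) ≤ (j : ℝ) + 1 - (N - GG Q) / 2 →
    (j : ℝ) + 1 - (N - GG Q) / 2 ≤ c5 * N →
    (∀ i, j + 1 ≤ i → w Q lab i ≤ w Q lab (j + 1)) → w Q lab (j + 1) ≤ w Q lab j := by
  obtain ⟨c, hc, N1, hN1⟩ := bad_mass
  obtain ⟨N3, hN3⟩ : ∃ N3 : ℕ, Real.exp 1000000 ≤ N3 := exists_nat_ge _
  refine ⟨c, hc, min (1 / 10000) (s0 / 20), lt_min (by norm_num) (by positivity),
    max N1 (N3 + 1000), fun N hN h Q κ lab hh hhc hκ hn hRE j hj1 hj2 hdec => ?_⟩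
  have hNN1 : N1 ≤ N := (le_max_left _ _).trans hN
  have hN2 : N3 + 1000 ≤ N := (le_max_right _ _).trans hN
  have hNe : Real.exp 1000000 ≤ N := hN3.trans (Nat.cast_le.2 (by omega))
  have hN1000 : 1000 ≤ N := by omega
  obtain ⟨t, ht0, htD, ht1, ht2, ht3, ht4⟩ := near_tilt s0 N hNe _ hj1 hj2
  obtain ⟨s, hs⟩ : ∃ s : ℝ, s = -t := ⟨_, rfl⟩
  have hsabs : |s| = t := by rw [hs, abs_neg, abs_of_pos ht0]
  have hssq : s ^ 2 = t ^ 2 := by rw [hs]; ring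
  have hsneg : s < 0 := by rw [hs]; linarith
  set m : ℕ := (N + 1) / 5 with hm0
  set b : ℕ := (N + 1) / 10 + 1 with hb0
  have hm : m * (3 + 2) ≤ N + 1 := Nat.div_mul_le_self _ _
  have hlow := lower_right (Q := Q) (lab := lab) (j := j + 1) hn (δ := 1 / 1000000)
    (ε := 1 / 10 ^ 12) (s0 := s0) (s := s) (by norm_num) (by norm_num) (by norm_num) (by norm_num)
    hRE (by rw [hsabs]; exact ht2) (by rw [hssq]; exact ht3) hsneg (by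
      push_cast
      rw [hs]
      linarith) hdec
  have hbad := bad_right (b := b) (j := j + 1) hm hn s hsneg (by rw [hs]; linarith)
  have heta := eta_pow (m := m) (b := b) s (by rw [hsabs]; linarith) hm0 hb0 hN1000
  have hmass := hN1 N hNN1 h m b hm Q κ lab hh hhc hκ hn hm0 hb0 s (by rw [hsabs]; exact ht1)
  have hnum := num_near N (by omega) s (by rw [hsabs]; linarith) (by rw [hssq]; exact ht4)
  have hMG := (MG_pos (Q := Q) hn s).le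
  refine step_R (sep_Tw hm) j ?_
  have hfin := near_fin N _ (w Q lab (j + 1) : ℝ) (Real.exp (s * (N - 2 * ((j + 1 : ℕ) : ℝ)) / 2))
    (MG Q lab s) s (Real.exp_pos _) hMG hnum (hbad.trans ?_) hlow
  · exact_mod_cast hfin
  · refine mul_le_mul_of_nonneg_left (add_le_add ?_ hmass) (Real.exp_pos _).le
    exact mul_le_mul_of_nonneg_left heta hMG

end Pool.NL25
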