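import Pool.Agent.NL25.Real
import Pool.Agent.NL25.EstAS

set_option autoImplicit false

/-!
# NL25/Real2: the real estimate from the mean of `adj` in the tilt
-/

namespace Pool.NL25

open Pool.HB45 Pool.HM63 Pool.PH43 Pool.SC25 Pool.SC45

/-- REAL ESTIMATE from `adj_mean` (GE63/Ent). PROOF. `mX_mA (ε/2)`: `|mX - GG - sN/6| ≤ (14 k + ε/2) |s| N ≤ ε |s| N`
(`k ≤ ε/28`); `hasDerivAt_log`, integrate from `0` to `s` (`log (MG 0/#) = 0`): error `≤ ε s² N/4`. -/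
theorem real_estA (ε k : ℝ) (hε : 0 < ε) (hk : 0 < k) (hkε : k ≤ ε / 28) : ∃ c : ℝ, 0 < c ∧
    ∃ s0 : ℝ, 0 < s0 ∧ ∃ N0 : ℕ, ∀ N ≥ N0, ∀ (h : ℕ)
    (Q : Rel (N + 1)) (κ lab : Fin (N + 1) → ℕ), 1 ≤ h → (h : ℝ) ≤ c * N → Lev h Q κ → Nat' Q lab →
    Tr Q → (∀ s : ℝ, |s| ≤ k / 24 → |mA Q lab s - GG Q| ≤ 14 * k * |s| * N) → RE Q lab ε s0 := by
  exact real_estAS ε k hε hk hkε

end Pool.NL25
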